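import Pool.Agent.SST.Walk

/-!
# SST-S-SumMap: disjoint sums and relabelling
`T.sum T'` on `D ⊕ D'`; `T.map e` on `D'` for `e : D ≃ D'`.
Everything is transported: `(T.map e).s = e.permCongr T.s` etc.; `SameCycle` is transported
(`Equiv.Perm.SameCycle.conj` or directly by powers: `((T.map e).s ^ k) (e d) = e ((T.s ^ k) d)`).
* `card_V_sum`: `Quotient` of a sum of two permutations is the sum of the quotients
  (`inl d`, `inr d'` are never in the same cycle).
* `map_V`: equivalence of quotients.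
* `fin_six`: the two basic spheres `Theta`, `Theta2` on `Fin 6` used by SPLIT and SUBDIV have three
  vertices (`decide` / `Nat.card_eq_fintype_card`; if `decide` is awkward show that the classes are
  `{0}, {3}, {1,2,4,5}` resp. `{0,3}, {1,5}, {2,4}`).
-/

namespace SST
namespace Tri

variable {D D' : Type}

/-- Disjoint union. -/
def sum (T : Tri D) (T' : Tri D') : Tri (D ⊕ D') where
  a := Equiv.sumCongr T.a T'.a
  f := Equiv.sumCongr T.f T'.f
  aa := by rintro (d | d) <;> simp [T.aa, T'.aa]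
  ane := by rintro (d | d) <;> simp [T.ane, T'.ane]
  fff := by rintro (d | d) <;> simp [T.fff, T'.fff]
  fne := by rintro (d | d) <;> simp [T.fne, T'.fne]

/-- Relabelling the darts. -/
def map (T : Tri D) (e : D ≃ D') : Tri D' where
  a := (e.symm.trans T.a).trans e
  f := (e.symm.trans T.f).trans e
  aa := by intro d; simp [T.aa]
  ane := by
    intro d h
    have : T.a (e.symm d) = e.symm d := by
      have := congrArg e.symm h
      simpa using this
    exact T.ane _ this
  fff := by intro d; simp [T.fff]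
  fne := by
    intro d h
    have : T.f (e.symm d) = e.symm d := by
      have := congrArg e.symm h
      simpa using this
    exact T.fne _ this

/-- The sphere with two triangles `0 1 2`, `3 4 5` and edges `02, 35, 14`. -/
def Theta : Tri (Fin 6) where
  a := ⟨![2, 4, 0, 5, 1, 3], ![2, 4, 0, 5, 1, 3], by decide, by decide⟩
  f := ⟨![1, 2, 0, 4, 5, 3], ![2, 0, 1, 5, 3, 4], by decide, by decide⟩
  aa := by decide
  ane := by decide
  fff := by decide
  fne := by decide

/-- The sphere with two triangles `0 1 2`, `3 4 5` and edges `05, 23, 14`. -/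
def Theta2 : Tri (Fin 6) where
  a := ⟨![5, 4, 3, 2, 1, 0], ![5, 4, 3, 2, 1, 0], by decide, by decide⟩
  f := ⟨![1, 2, 0, 4, 5, 3], ![2, 0, 1, 5, 3, 4], by decide, by decide⟩
  aa := by decide
  ane := by decide
  fff := by decide
  fne := by decide

private theorem zpow_comm {α β : Type} (s : Equiv.Perm α) (s' : Equiv.Perm β) (e : α → β)
    (h : ∀ d, s' (e d) = e (s d)) (k : ℤ) (d : α) : (s' ^ k) (e d) = e ((s ^ k) d) := by
  have hn : ∀ (s : Equiv.Perm α) (s' : Equiv.Perm β), (∀ d, s' (e d) = e (s d)) →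
      ∀ (n : ℕ) (d : α), (s' ^ n) (e d) = e ((s ^ n) d) := by
    intro s s' h n
    induction n with
    | zero => intro d; rfl
    | succ n ih =>
      intro d
      rw [pow_succ, pow_succ, Equiv.Perm.mul_apply, Equiv.Perm.mul_apply, h, ih]
  have hi : ∀ d, s'⁻¹ (e d) = e (s⁻¹ d) := by
    intro d
    rw [Equiv.Perm.inv_eq_iff_eq, h]
    exact congrArg e (s.apply_symm_apply d).symm
  rcases Int.eq_nat_or_neg k with ⟨n, rfl | rfl⟩
  · rw [zpow_natCast, zpow_natCast]
    exact hn s s' h n d
  · rw [zpow_neg, zpow_neg, zpow_natCast, zpow_natCast, ← inv_pow, ← inv_pow]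
    exact hn _ _ hi n d

theorem map_a (T : Tri D) (e : D ≃ D') (d : D) : (T.map e).a (e d) = e (T.a d) := by
  show e (T.a (e.symm (e d))) = e (T.a d)
  rw [Equiv.symm_apply_apply]

theorem map_f (T : Tri D) (e : D ≃ D') (d : D) : (T.map e).f (e d) = e (T.f d) := by
  show e (T.f (e.symm (e d))) = e (T.f d)
  rw [Equiv.symm_apply_apply]

theorem map_s (T : Tri D) (e : D ≃ D') (d : D) : (T.map e).s (e d) = e (T.s d) := by
  rw [s_apply, map_a, map_f, s_apply]

theorem map_map {D'' : Type} (T : Tri D) (e : D ≃ D') (e' : D' ≃ D'') :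
    (T.map e).map e' = T.map (e.trans e') := by
  refine Tri.ext' ?_ ?_
  · ext d; rfl
  · ext d; rfl

private theorem map_refl (T : Tri D) : T.map (Equiv.refl D) = T := Tri.ext' rfl rfl

private theorem map_symm (T : Tri D) (e : D ≃ D') : (T.map e).map e.symm = T := by
  rw [map_map, Equiv.self_trans_symm, map_refl]

theorem map_inj (T T' : Tri D) (e : D ≃ D') (h : T.map e = T'.map e) : T = T' := by
  rw [← map_symm T e, h, map_symm]

private theorem map_same (T : Tri D) (e : D ≃ D') (d d' : D) :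
    (T.map e).s.SameCycle (e d) (e d') ↔ T.s.SameCycle d d' := by
  constructor
  · rintro ⟨k, hk⟩
    rw [zpow_comm T.s (T.map e).s e (T.map_s e)] at hk
    exact ⟨k, e.injective hk⟩
  · rintro ⟨k, hk⟩
    exact ⟨k, by rw [zpow_comm T.s (T.map e).s e (T.map_s e), hk]⟩

theorem map_tl (T : Tri D) (e : D ≃ D') (d d' : D) :
    (T.map e).tl (e d) = (T.map e).tl (e d') ↔ T.tl d = T.tl d' := by
  rw [tl_eq_iff, tl_eq_iff, map_same]

private def phi (T : Tri D) (e : D ≃ D') : T.V ≃ (T.map e).V :=
  Quotient.congr e fun d d' => (T.map_same e d d').symm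

private theorem phi_tl (T : Tri D) (e : D ≃ D') (d : D) :
    T.phi e (T.tl d) = (T.map e).tl (e d) := rfl

theorem map_V (T : Tri D) (e : D ≃ D') : Nat.card (T.map e).V = Nat.card T.V :=
  (Nat.card_congr (T.phi e)).symm

private theorem map_conn_aux (T : Tri D) (e : D ≃ D') (h : T.Conn) : (T.map e).Conn := by
  intro S hS hcl
  have h1 : e ⁻¹' S = Set.univ := by
    refine h _ ?_ ?_
    · obtain ⟨d, hd⟩ := hS
      exact ⟨e.symm d, by rw [Set.mem_preimage, Equiv.apply_symm_apply]; exact hd⟩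
    · intro d hd
      have h2 := hcl (e d) hd
      rw [map_a, map_f] at h2
      exact h2
  rw [Set.eq_univ_iff_forall]
  intro d
  have h3 : e.symm d ∈ e ⁻¹' S := by rw [h1]; exact Set.mem_univ _
  rw [Set.mem_preimage, Equiv.apply_symm_apply] at h3
  exact h3

theorem map_conn (T : Tri D) (e : D ≃ D') : (T.map e).Conn ↔ T.Conn := by
  constructor
  · intro h
    have h1 := map_conn_aux (T.map e) e.symm h
    rwa [map_symm] at h1
  · exact T.map_conn_aux e

theorem map_genus (T : Tri D) (e : D ≃ D') (n g : ℕ) : (T.map e).Genus n g ↔ T.Genus n g := by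
  unfold Genus
  rw [map_V]

theorem map_deg (T : Tri D) (e : D ≃ D') (d : D) : (T.map e).deg (e d) = T.deg d := by
  unfold deg
  rw [← Set.ncard_image_of_injective {e' : D | T.tl e' = T.tl d} e.injective]
  congr 1
  ext x
  rw [Set.mem_ofPred_eq, Set.mem_image]
  constructor
  · intro h
    refine ⟨e.symm x, ?_, Equiv.apply_symm_apply _ _⟩
    rw [Set.mem_ofPred_eq, ← T.map_tl e, Equiv.apply_symm_apply]
    exact h
  · rintro ⟨y, hy, rfl⟩
    rw [map_tl]
    exact hy

private theorem map_isWalk (T : Tri D) (e : D ≃ D') (l : List D) :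
    ∀ u v, (T.map e).IsWalk (T.phi e u) (l.map e) (T.phi e v) ↔ T.IsWalk u l v := by
  induction l with
  | nil => intro u v; exact (T.phi e).injective.eq_iff
  | cons d l ih =>
    intro u v
    have h1 : (T.map e).hd (e d) = T.phi e (T.hd d) := by
      show (T.map e).tl ((T.map e).a (e d)) = (T.map e).tl (e (T.a d))
      rw [map_a]
    show ((T.map e).tl (e d) = T.phi e u ∧
      (T.map e).IsWalk ((T.map e).hd (e d)) (l.map e) (T.phi e v)) ↔
      (T.tl d = u ∧ T.IsWalk (T.hd d) l v)
    rw [h1, ih, ← phi_tl, (T.phi e).injective.eq_iff]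

theorem map_walk (T : Tri D) (e : D ≃ D') (l : List D) :
    (T.map e).Closed (l.map e) ↔ T.Closed l := by
  constructor
  · rintro ⟨v, hv⟩
    refine ⟨(T.phi e).symm v, ?_⟩
    rw [← map_isWalk, Equiv.apply_symm_apply]
    exact hv
  · rintro ⟨v, hv⟩
    exact ⟨T.phi e v, (T.map_isWalk e l v v).2 hv⟩

private theorem ind_map (e : D ≃ D') (x y : D) : ind (e x) (e y) = ind x y := by
  by_cases h : x = y
  · rw [h, ind_self, ind_self]
  · rw [ind_ne h, ind_ne (fun h' => h (e.injective h'))]

private theorem map_chain (T : Tri D) (e : D ≃ D') (l : List D) (d : D) :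
    (T.map e).chain (l.map e) (e d) = T.chain l d := by
  unfold chain
  rw [List.map_map]
  congr 1
  refine List.map_congr_left fun x _ => ?_
  show ind (e x) (e d) - ind (e x) ((T.map e).a (e d)) = ind x d - ind x (T.a d)
  rw [map_a, ind_map, ind_map]

private theorem map_nullHom_aux (T : Tri D) (e : D ≃ D') (l : List D) (h : T.NullHom l) :
    (T.map e).NullHom (l.map e) := by
  obtain ⟨k, h1, h2⟩ := h
  refine ⟨fun x => k (e.symm x), ?_, ?_⟩
  · intro x
    obtain ⟨d, rfl⟩ := e.surjective x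
    show k (e.symm ((T.map e).f (e d))) = k (e.symm (e d))
    rw [map_f, Equiv.symm_apply_apply, Equiv.symm_apply_apply]
    exact h1 d
  · intro x
    obtain ⟨d, rfl⟩ := e.surjective x
    rw [map_chain, map_a]
    show T.chain l d = k (e.symm (e d)) - k (e.symm (e (T.a d)))
    rw [Equiv.symm_apply_apply, Equiv.symm_apply_apply]
    exact h2 d

theorem map_nullHom (T : Tri D) (e : D ≃ D') (l : List D) :
    (T.map e).NullHom (l.map e) ↔ T.NullHom l := by
  constructor
  · intro h
    have h1 := map_nullHom_aux (T.map e) e.symm _ h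
    rw [map_symm, List.map_map, Equiv.symm_comp_self, List.map_id] at h1
    exact h1
  · exact T.map_nullHom_aux e l

theorem map_simple (T : Tri D) (e : D ≃ D') (l : List D) :
    (T.map e).Simple (l.map e) ↔ T.Simple l := by
  unfold Simple
  have h1 : (l.map e).map (T.map e).tl = (l.map T.tl).map (T.phi e) := by
    rw [List.map_map, List.map_map]
    rfl
  rw [h1, List.nodup_map_iff (T.phi e).injective]

theorem sum_a_inl (T : Tri D) (T' : Tri D') (d : D) : (T.sum T').a (Sum.inl d) = Sum.inl (T.a d) := by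
  rfl

theorem sum_s_inl (T : Tri D) (T' : Tri D') (d : D) : (T.sum T').s (Sum.inl d) = Sum.inl (T.s d) := by
  rfl

theorem sum_s_inr (T : Tri D) (T' : Tri D') (d : D') : (T.sum T').s (Sum.inr d) = Sum.inr (T'.s d) := by
  rfl

theorem sum_same_inl (T : Tri D) (T' : Tri D') (d d' : D) :
    (T.sum T').s.SameCycle (Sum.inl d) (Sum.inl d') ↔ T.s.SameCycle d d' := by
  constructor
  · rintro ⟨k, hk⟩
    rw [zpow_comm T.s (T.sum T').s Sum.inl (T.sum_s_inl T')] at hk
    exact ⟨k, Sum.inl_injective hk⟩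
  · rintro ⟨k, hk⟩
    exact ⟨k, by rw [zpow_comm T.s (T.sum T').s Sum.inl (T.sum_s_inl T'), hk]⟩

theorem sum_same_inr (T : Tri D) (T' : Tri D') (d d' : D') :
    (T.sum T').s.SameCycle (Sum.inr d) (Sum.inr d') ↔ T'.s.SameCycle d d' := by
  constructor
  · rintro ⟨k, hk⟩
    rw [zpow_comm T'.s (T.sum T').s Sum.inr (T.sum_s_inr T')] at hk
    exact ⟨k, Sum.inr_injective hk⟩
  · rintro ⟨k, hk⟩
    exact ⟨k, by rw [zpow_comm T'.s (T.sum T').s Sum.inr (T.sum_s_inr T'), hk]⟩

theorem sum_not_same (T : Tri D) (T' : Tri D') (d : D) (d' : D') :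
    ¬ (T.sum T').s.SameCycle (Sum.inl d) (Sum.inr d') := by
  rintro ⟨k, hk⟩
  rw [zpow_comm T.s (T.sum T').s Sum.inl (T.sum_s_inl T')] at hk
  exact Sum.inl_ne_inr hk

private def sumV (T : Tri D) (T' : Tri D') : T.V ⊕ T'.V → (T.sum T').V :=
  Sum.elim
    (Quotient.lift (fun d => (T.sum T').tl (Sum.inl d))
      fun d d' h => ((T.sum T').tl_eq_iff _ _).2 ((T.sum_same_inl T' d d').2 h))
    (Quotient.lift (fun d => (T.sum T').tl (Sum.inr d))
      fun d d' h => ((T.sum T').tl_eq_iff _ _).2 ((T.sum_same_inr T' d d').2 h))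

private theorem sumV_bij (T : Tri D) (T' : Tri D') : Function.Bijective (T.sumV T') := by
  constructor
  · rintro (u | u) (v | v) h
    · obtain ⟨d, rfl⟩ := Quotient.exists_rep u
      obtain ⟨d', rfl⟩ := Quotient.exists_rep v
      have h1 := ((T.sum T').tl_eq_iff _ _).1 h
      rw [sum_same_inl] at h1
      exact congrArg Sum.inl ((T.tl_eq_iff _ _).2 h1)
    · obtain ⟨d, rfl⟩ := Quotient.exists_rep u
      obtain ⟨d', rfl⟩ := Quotient.exists_rep v
      exact absurd (((T.sum T').tl_eq_iff _ _).1 h) (T.sum_not_same T' d d')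
    · obtain ⟨d, rfl⟩ := Quotient.exists_rep u
      obtain ⟨d', rfl⟩ := Quotient.exists_rep v
      exact absurd (((T.sum T').tl_eq_iff _ _).1 h.symm) (T.sum_not_same T' d' d)
    · obtain ⟨d, rfl⟩ := Quotient.exists_rep u
      obtain ⟨d', rfl⟩ := Quotient.exists_rep v
      have h1 := ((T.sum T').tl_eq_iff _ _).1 h
      rw [sum_same_inr] at h1
      exact congrArg Sum.inr ((T'.tl_eq_iff _ _).2 h1)
  · intro w
    obtain ⟨x, rfl⟩ := Quotient.exists_rep w
    rcases x with d | d
    · exact ⟨Sum.inl (T.tl d), rfl⟩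
    · exact ⟨Sum.inr (T'.tl d), rfl⟩

theorem card_V_sum [Finite D] [Finite D'] (T : Tri D) (T' : Tri D') :
    Nat.card (T.sum T').V = Nat.card T.V + Nat.card T'.V := by
  have h1 : Finite T.V := Quotient.finite _
  have h2 : Finite T'.V := Quotient.finite _
  rw [← Nat.card_sum]
  exact (Nat.card_congr (Equiv.ofBijective _ (T.sumV_bij T'))).symm

theorem card_V_Theta : Nat.card Theta.V = 3 :=
  (@Nat.card_eq_fintype_card _ (@Quotient.fintype (Fin 6) _ (Equiv.Perm.SameCycle.setoid Theta.s)
    (fun x y => inferInstanceAs (Decidable (Theta.s.SameCycle x y))))).trans (by decide +kernel)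

theorem card_V_Theta2 : Nat.card Theta2.V = 3 :=
  (@Nat.card_eq_fintype_card _ (@Quotient.fintype (Fin 6) _ (Equiv.Perm.SameCycle.setoid Theta2.s)
    (fun x y => inferInstanceAs (Decidable (Theta2.s.SameCycle x y))))).trans (by decide +kernel)

/-- Vertices of `Theta`: `{0}, {3}, {1, 2, 4, 5}`. -/
theorem Theta_same (i j : Fin 6) : Theta.s.SameCycle i j ↔
    (i = j ∨ (i ≠ 0 ∧ i ≠ 3 ∧ j ≠ 0 ∧ j ≠ 3)) := by
  revert i j
  decide +kernel

/-- Vertices of `Theta2`: `{0, 3}, {1, 5}, {2, 4}`. -/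
theorem Theta2_same (i j : Fin 6) : Theta2.s.SameCycle i j ↔
    (i = j ∨ (i.val + j.val = 3 ∧ i.val * j.val = 0) ∨ (i.val + j.val = 6 ∧ i.val ≠ 0 ∧ j.val ≠ 0 ∧
      i.val ≠ 3)) := by
  revert i j
  decide +kernel

end Tri
end SST
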