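import Pool.Agent.SST.Defs

/-!
# SST-S-Transfer: the weighted transfer lemma  (paper proof, section 8, TRANSFER)
`X`: old darts, `E`: new darts, `Y`: darts of the new object.  `Φ e x`: result of a surgery on the
object `x`, with darts `X ⊕ E` renamed by `e`.  `ι y`: the new darts of the object `y` (they can be
recognised).  Then `(∑ w) * |Y|! ≤ (∑ w') * |X|!`.
Proof: there are `|Y|!` equivalences `e : X ⊕ E ≃ Y` (`Fintype.card_equiv`, `card Y = card X + card E`).
`∑_e ∑_x w x ≤ ∑_e ∑_x w' (Φ e x) = ∑_y w' y * #{(e, x) : Φ e x = y}` and for fixed `y` the pair is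
determined by `e` (`h2`), and `e ∘ inr = ι y` (`h1`): two such `e` differ by a permutation of `X`
(`e ↦ (e₀⁻¹ e restricted to X)` is injective into `Equiv.Perm X`): at most `|X|!`.
-/

namespace SST

private theorem transfer_perm {X E Y : Type} [Finite X] (e0 e : X ⊕ E ≃ Y)
    (h : ∀ i, e (Sum.inr i) = e0 (Sum.inr i)) :
    ∃ τ : Equiv.Perm X, ∀ x, e (Sum.inl x) = e0 (Sum.inl (τ x)) := by
  have h1 : ∀ x, ∃ x', e (Sum.inl x) = e0 (Sum.inl x') := by
    intro x
    obtain ⟨z, hz⟩ := e0.surjective (e (Sum.inl x))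
    rcases z with x' | i
    · exact ⟨x', hz.symm⟩
    · exfalso
      rw [← h i] at hz
      have := e.injective hz
      simp at this
  choose t ht using h1
  have hinj : Function.Injective t := by
    intro x y hxy
    have : e (Sum.inl x) = e (Sum.inl y) := by rw [ht x, ht y, hxy]
    have := e.injective this
    simpa using this
  exact ⟨Equiv.ofBijective t (Finite.injective_iff_bijective.mp hinj), fun x => by simpa using ht x⟩

theorem transfer {X E Y A B : Type} [Fintype X] [Fintype E] [Fintype Y] [Fintype A] [Fintype B]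
    (hcard : Fintype.card Y = Fintype.card X + Fintype.card E)
    (Φ : (X ⊕ E ≃ Y) → A → B) (ι : B → E → Y)
    (h1 : ∀ e x i, e (Sum.inr i) = ι (Φ e x) i) (h2 : ∀ e, Function.Injective (Φ e))
    (w : A → ℝ) (w' : B → ℝ) (hw' : ∀ y, 0 ≤ w' y) (hle : ∀ e x, w x ≤ w' (Φ e x)) :
    (∑ x, w x) * (Fintype.card Y).factorial ≤ (∑ y, w' y) * (Fintype.card X).factorial := by
  classical
  have hc : Fintype.card (X ⊕ E ≃ Y) = (Fintype.card Y).factorial := by
    have e0 : X ⊕ E ≃ Y := Fintype.equivOfCardEq (by rw [Fintype.card_sum, hcard])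
    rw [Fintype.card_equiv e0, Fintype.card_sum, hcard]
  have hfib : ∀ y : B, (((Finset.univ : Finset ((X ⊕ E ≃ Y) × A)).filter
      (fun p => Φ p.1 p.2 = y)).card) ≤ (Fintype.card X).factorial := by
    intro y
    rcases ((Finset.univ : Finset ((X ⊕ E ≃ Y) × A)).filter
      (fun p => Φ p.1 p.2 = y)).eq_empty_or_nonempty with he | ⟨p0, hp0⟩
    · rw [he]; simp
    · rw [Finset.mem_filter] at hp0
      have hp0 := hp0.2
      have key : ∀ p : (X ⊕ E ≃ Y) × A, Φ p.1 p.2 = y →
          ∃ τ : Equiv.Perm X, ∀ x, p.1 (Sum.inl x) = p0.1 (Sum.inl (τ x)) := by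
        intro p hp
        apply transfer_perm
        intro i
        rw [h1 p.1 p.2 i, h1 p0.1 p0.2 i, hp, hp0]
      let F : (X ⊕ E ≃ Y) × A → Equiv.Perm X := fun p =>
        if h : Φ p.1 p.2 = y then Classical.choose (key p h) else 1
      have hF : ∀ p, Φ p.1 p.2 = y → ∀ x, p.1 (Sum.inl x) = p0.1 (Sum.inl (F p x)) := by
        intro p hp x
        have := Classical.choose_spec (key p hp) x
        simp only [F, dif_pos hp]
        exact this
      have := Finset.card_le_card_of_injOn (s := (Finset.univ : Finset ((X ⊕ E ≃ Y) × A)).filter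
        (fun p => Φ p.1 p.2 = y)) (t := (Finset.univ : Finset (Equiv.Perm X))) F
        (fun _ _ => Finset.mem_univ _) (by
          intro p hp q hq hpq
          simp only [Finset.coe_filter, Finset.mem_univ, true_and, Set.mem_ofPred_eq] at hp hq
          have he : p.1 = q.1 := by
            ext z
            rcases z with x | i
            · rw [hF p hp x, hF q hq x, hpq]
            · rw [h1 p.1 p.2 i, h1 q.1 q.2 i, hp, hq]
          have hx : p.2 = q.2 := by
            apply h2 p.1
            rw [hp]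
            rw [he]
            exact hq.symm
          exact Prod.ext he hx)
      rw [Finset.card_univ, Fintype.card_perm] at this
      exact this
  have e1 : (∑ x, w x) * ((Fintype.card Y).factorial : ℝ) =
      ∑ p : (X ⊕ E ≃ Y) × A, w p.2 := by
    rw [Fintype.sum_prod_type]
    simp only [Finset.sum_const, Finset.card_univ, hc, nsmul_eq_mul]
    ring
  have e2 : ∑ p : (X ⊕ E ≃ Y) × A, w' (Φ p.1 p.2) =
      ∑ y, w' y * (((Finset.univ : Finset ((X ⊕ E ≃ Y) × A)).filter
      (fun p => Φ p.1 p.2 = y)).card : ℝ) := by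
    rw [← Finset.sum_fiberwise (Finset.univ : Finset ((X ⊕ E ≃ Y) × A)) (fun p => Φ p.1 p.2)
      (fun p => w' (Φ p.1 p.2))]
    apply Finset.sum_congr rfl
    intro y _
    rw [Finset.sum_congr rfl (g := fun _ => w' y)]
    · rw [Finset.sum_const, nsmul_eq_mul]; ring
    · intro p hp
      rw [Finset.mem_filter] at hp
      rw [hp.2]
  rw [e1]
  calc ∑ p : (X ⊕ E ≃ Y) × A, w p.2 ≤ ∑ p : (X ⊕ E ≃ Y) × A, w' (Φ p.1 p.2) :=
        Finset.sum_le_sum fun p _ => hle p.1 p.2
    _ = _ := e2
    _ ≤ ∑ y, w' y * ((Fintype.card X).factorial : ℝ) := by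
        apply Finset.sum_le_sum
        intro y _
        exact mul_le_mul_of_nonneg_left (by exact_mod_cast hfib y) (hw' y)
    _ = _ := by rw [Finset.sum_mul]

/-- Version with cardinalities of sets. -/
theorem transfer_ncard {X E Y A B : Type} [Fintype X] [Fintype E] [Fintype Y] [Finite A] [Finite B]
    (hcard : Fintype.card Y = Fintype.card X + Fintype.card E) (P : Set A) (Q : Set B)
    (Φ : (X ⊕ E ≃ Y) → A → B) (ι : B → E → Y)
    (h1 : ∀ e, ∀ x ∈ P, ∀ i, e (Sum.inr i) = ι (Φ e x) i)
    (h2 : ∀ e, ∀ x ∈ P, ∀ x' ∈ P, Φ e x = Φ e x' → x = x') (h3 : ∀ e, ∀ x ∈ P, Φ e x ∈ Q) :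
    P.ncard * (Fintype.card Y).factorial ≤ Q.ncard * (Fintype.card X).factorial := by
  classical
  have : Fintype P := Fintype.ofFinite _
  have : Fintype Q := Fintype.ofFinite _
  have := transfer (X := X) (E := E) (Y := Y) (A := P) (B := Q) hcard
    (fun e x => ⟨Φ e x.1, h3 e x.1 x.2⟩) (fun y => ι y.1)
    (fun e x i => h1 e x.1 x.2 i)
    (fun e x x' hxx => Subtype.ext (h2 e x.1 x.2 x'.1 x'.2 (congrArg Subtype.val hxx)))
    (fun _ => 1) (fun _ => 1) (fun _ => zero_le_one) (fun _ _ => le_refl _)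
  simp only [Finset.sum_const, Finset.card_univ, nsmul_eq_mul, mul_one] at this
  have hP : Fintype.card P = P.ncard := by
    rw [← Nat.card_eq_fintype_card]; rfl
  have hQ : Fintype.card Q = Q.ncard := by
    rw [← Nat.card_eq_fintype_card]; rfl
  rw [hP, hQ] at this
  exact_mod_cast this

end SST
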