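import Pool.Agent.SST.S.Split

/-!
# SST-S-SplitCard: a split has one more vertex
`T₀ = T.sum Theta`, `T₁ = T.split1 p = T₀.rew (inl p) (inr 0)`, `T.split p c = T₁.rew (inl c) (inr 3)`
(`split_eq`).
1. `Nat.card T₀.V = Nat.card T.V + 3` (`card_V_sum`, `card_V_Theta`), `Nat.card T₁.V + 2 = Nat.card T₀.V`:
   `card_V_merge` with `p := inl p`, `q := inr 0`: `T₀.hd (inr 0) = T₀.tl (inr 2)` is different from
   `T₀.tl (inr 0)` (`sum_same_inr`, `Theta_same`), the others by `sum_not_same`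
   (see `subdiv_card_V` in `S/Subdiv.lean`, which does exactly this for `Theta2`).
2. `split1_tl`: in `T₁` (tables `split1_a_*`, `s = f a`): `inl p → inr 1 → inr 5 → inr 4 → inr 2 → inl (T.s p)`,
   `inl (T.a p) → inr 0 → inl (T.s (T.a p))`, `inl d → inl (T.s d)` for the other `d`; so
   `T₁.tl (inl (T.s d)) = T₁.tl (inl d)` for all `d` (`tl_s`), hence `T.tl d = T.tl d'` implies
   `T₁.tl (inl d) = T₁.tl (inl d')` (constant on `s`-cycles: see `const_zpow` in `S/Subdiv.lean`, private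
   there, copy it), and `T₁.tl (inr 5) = T₁.tl (inl p)`.
3. `Nat.card (T.split p c).V = Nat.card T₁.V`: `card_V_slit'` with `p := inl c`, `q := inr 3`:
   `T₁.hd (inr 3) = T₁.tl (inr 5) = T₁.tl (inl p) = T₁.tl (inl c)`; and `T₁.hd (inl c) ≠ T₁.tl (inr 3)`:
   `T₁.s (inr 3) = T₁.f (inr 5) = inr 3` is a fixed point, so a dart with the same tail is `inr 3`
   (`Equiv.Perm.SameCycle`, `zpow` of a fixed point, `Equiv.Perm.zpow_apply_eq_self_of_apply_eq_self`),
   and `T₁.a (inl c) ≠ inr 3` (`split_h2`).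
-/

namespace SST
namespace Tri

open Classical

variable {D : Type}

private theorem spc_const {α β : Type} (s : Equiv.Perm α) (g : α → β)
    (h : ∀ x, g (s x) = g x) {x y : α} (hxy : s.SameCycle x y) : g x = g y := by
  have hn : ∀ (s : Equiv.Perm α), (∀ x, g (s x) = g x) → ∀ (n : ℕ) (x : α),
      g ((s ^ n) x) = g x := by
    intro s h n
    induction n with
    | zero => intro x; rfl
    | succ n ih =>
      intro x
      rw [pow_succ, Equiv.Perm.mul_apply, ih, h]
  have hi : ∀ x, g (s⁻¹ x) = g x := by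
    intro x
    rw [← h (s⁻¹ x)]
    exact congrArg g (s.apply_symm_apply x)
  obtain ⟨k, hk⟩ := hxy
  rw [← hk]
  rcases Int.eq_nat_or_neg k with ⟨n, rfl | rfl⟩
  · rw [zpow_natCast]
    exact (hn s h n x).symm
  · rw [zpow_neg, zpow_natCast, ← inv_pow]
    exact (hn _ hi n x).symm

private theorem spc_s_p (T : Tri D) (p : D) : (T.split1 p).s (Sum.inl p) = Sum.inr 1 := by
  rw [s_apply, split1_a_p]
  rfl

private theorem spc_s_1 (T : Tri D) (p : D) : (T.split1 p).s (Sum.inr 1) = Sum.inr 5 := by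
  rw [s_apply, split1_a_1]
  rfl

private theorem spc_s_5 (T : Tri D) (p : D) : (T.split1 p).s (Sum.inr 5) = Sum.inr 4 := by
  rw [s_apply, split1_a_5]
  rfl

private theorem spc_s_4 (T : Tri D) (p : D) : (T.split1 p).s (Sum.inr 4) = Sum.inr 2 := by
  rw [s_apply, split1_a_4]
  rfl

private theorem spc_s_2 (T : Tri D) (p : D) : (T.split1 p).s (Sum.inr 2) = Sum.inl (T.s p) := by
  rw [s_apply, split1_a_2, s_apply]
  rfl

private theorem spc_s_ap (T : Tri D) (p : D) : (T.split1 p).s (Sum.inl (T.a p)) = Sum.inr 0 := by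
  rw [s_apply, split1_a_ap]
  rfl

private theorem spc_s_0 (T : Tri D) (p : D) :
    (T.split1 p).s (Sum.inr 0) = Sum.inl (T.s (T.a p)) := by
  rw [s_apply, split1_a_0, s_a]
  rfl

private theorem spc_s_3 (T : Tri D) (p : D) : (T.split1 p).s (Sum.inr 3) = Sum.inr 3 := by
  rw [s_apply, split1_a_3]
  rfl

private theorem spc_s_ne (T : Tri D) {p d : D} (h : d ≠ p) (h' : d ≠ T.a p) :
    (T.split1 p).s (Sum.inl d) = Sum.inl (T.s d) := by
  rw [s_apply, T.split1_a_ne h h', s_apply]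
  rfl

private theorem spc_step (T : Tri D) (p e : D) :
    (T.split1 p).tl (Sum.inl (T.s e)) = (T.split1 p).tl (Sum.inl e) := by
  by_cases h : e = p
  · rw [h, ← spc_s_2, tl_s, ← spc_s_4, tl_s, ← spc_s_5, tl_s, ← spc_s_1, tl_s, ← spc_s_p, tl_s]
  · by_cases h' : e = T.a p
    · rw [h', ← spc_s_0, tl_s, ← spc_s_ap, tl_s]
    · rw [← T.spc_s_ne h h', tl_s]

theorem split_card_V [Finite D] (T : Tri D) {p c : D} (h : c ≠ p) (h' : T.tl c = T.tl p) :
    Nat.card (T.split p c).V = Nat.card T.V + 1 := by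
  have h0 : ∀ (e : D) (i : Fin 6), (T.sum Theta).tl (Sum.inl e) ≠ (T.sum Theta).tl (Sum.inr i) := by
    intro e i h
    exact T.sum_not_same Theta e i (((T.sum Theta).tl_eq_iff _ _).1 h)
  have h1 : (T.sum Theta).tl (Sum.inr 0) ≠ (T.sum Theta).hd (Sum.inr 0) := by
    intro h
    have h2 := (T.sum_same_inr Theta 0 2).1 (((T.sum Theta).tl_eq_iff _ _).1 h)
    rw [Theta_same] at h2
    revert h2
    decide
  have h2 := (T.sum Theta).card_V_merge (p := Sum.inl p) (q := Sum.inr 0) h1 (h0 _ _) (h0 _ _)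
    (h0 _ _) (h0 _ _)
  have h3 : Nat.card (T.split1 p).V + 2 = Nat.card (T.sum Theta).V := h2
  rw [card_V_sum, card_V_Theta] at h3
  have h4 : (T.split1 p).tl (Sum.inl c) = (T.split1 p).tl (Sum.inl p) :=
    spc_const T.s (fun e => (T.split1 p).tl (Sum.inl e)) (T.spc_step p) ((T.tl_eq_iff c p).1 h')
  have h5 : (T.split1 p).tl (Sum.inr 5) = (T.split1 p).tl (Sum.inl p) := by
    rw [← T.spc_s_1 p, tl_s, ← spc_s_p, tl_s]
  have h6 : (T.split1 p).hd (Sum.inr 3) = (T.split1 p).tl (Sum.inr 5) := by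
    show (T.split1 p).tl ((T.split1 p).a (Sum.inr 3)) = _
    rw [split1_a_3]
  have h7 : (T.split1 p).hd (Sum.inl c) ≠ (T.split1 p).tl (Sum.inr 3) := by
    intro h8
    have h9 := ((T.split1 p).tl_eq_iff _ _).1 h8
    have h10 : (T.split1 p).a (Sum.inl c) = Sum.inr 3 := h9.eq_of_right (T.spc_s_3 p)
    exact T.split_h2 h h10.symm
  have h11 := (T.split1 p).card_V_slit' (p := Sum.inl c) (q := Sum.inr 3)
    (by rw [h6, h5, h4]) h7
  rw [split_eq, h11]
  omega

theorem split_genus [Finite D] (T : Tri D) {p c : D} (h : c ≠ p) (h' : T.tl c = T.tl p) {n g : ℕ}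
    (hg : T.Genus n g) : (T.split p c).Genus (n + 1) g := by
  have h1 : Nat.card T.V + 2 * g = n + 2 := hg
  show Nat.card (T.split p c).V + 2 * g = n + 1 + 2
  rw [split_card_V T h h']
  omega

end Tri
end SST
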