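import Pool.Agent.SST.S.Split

/-!
# SST-S-SplitConn: a split triangulation is connected
Model: `subdiv_conn` in `S/Subdiv.lean` (same structure).  Let `S` be non-empty and closed under `a'`,
`f'` (`a' = (T.split p c).a`, tables in `S/Split.lean`).
1. If `inr i ∈ S` for one `i` then for all `i`: `f' : 0 → 1 → 2 → 0`, `3 → 4 → 5 → 3`, `a' : 1 ↔ 4`.
2. `S₀ = {d | inl d ∈ S}` is closed under `f`.  If no `inr i` is in `S`, then `p, c ∉ S₀`
   (`a' (inl p) = inr 0`, `a' (inl c) = inr 3`) and `a p, a c ∉ S₀` (if `c ≠ a p`: `a' (inl (a p)) = inr 2`,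
   `a' (inl (a c)) = inr 5`; if `c = a p` then `a p = c`, `a c = p`), so `S₀` is closed under `a`
   (`split_a_ne`), non-empty, hence everything by `hT`, but `p ∉ S₀`: contradiction.
3. So all `inr i ∈ S`, `inl p = a' (inr 0) ∈ S`, `inl c = a' (inr 3) ∈ S`, and `inl (a p)`, `inl (a c) ∈ S`
   (`a' (inr 2)`, `a' (inr 5)`; if `c = a p`: `a p = c`, `a c = p`).  `S₀` is non-empty and closed under `a`,
   hence everything.
-/

namespace SST
namespace Tri

open Classical

variable {D : Type}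

private theorem fin6' (i : Fin 6) : i = 0 ∨ i = 1 ∨ i = 2 ∨ i = 3 ∨ i = 4 ∨ i = 5 := by
  revert i
  decide

theorem split_conn (T : Tri D) {p c : D} (h : c ≠ p) (hT : T.Conn) : (T.split p c).Conn := by
  intro S hS hcl
  have hf : ∀ i : Fin 6, Sum.inr i ∈ S → Sum.inr (Theta.f i) ∈ S := by
    intro i hi
    exact (hcl _ hi).2
  have h12 : Sum.inr 1 ∈ S → Sum.inr 4 ∈ S := fun hi => by
    have := (hcl _ hi).1
    rwa [T.split_a_1 h] at this
  have h21 : Sum.inr 4 ∈ S → Sum.inr 1 ∈ S := fun hi => by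
    have := (hcl _ hi).1
    rwa [T.split_a_4 h] at this
  have e0 : Sum.inr 0 ∈ S → Sum.inr 1 ∈ S := hf 0
  have e1 : Sum.inr 1 ∈ S → Sum.inr 2 ∈ S := hf 1
  have e2 : Sum.inr 2 ∈ S → Sum.inr 0 ∈ S := hf 2
  have e3 : Sum.inr 3 ∈ S → Sum.inr 4 ∈ S := hf 3
  have e4 : Sum.inr 4 ∈ S → Sum.inr 5 ∈ S := hf 4
  have e5 : Sum.inr 5 ∈ S → Sum.inr 3 ∈ S := hf 5
  -- if one new dart is in `S` then all new darts are
  have hall : ∀ i : Fin 6, Sum.inr i ∈ S → ∀ j : Fin 6, Sum.inr j ∈ S := by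
    intro i hi
    have h0 : Sum.inr 0 ∈ S := by
      rcases fin6' i with h | h | h | h | h | h
      · exact h ▸ hi
      · exact e2 (e1 (h ▸ hi))
      · exact e2 (h ▸ hi)
      · exact e2 (e1 (h21 (e3 (h ▸ hi))))
      · exact e2 (e1 (h21 (h ▸ hi)))
      · exact e2 (e1 (h21 (e3 (e5 (h ▸ hi)))))
    intro j
    rcases fin6' j with h | h | h | h | h | h
    · exact h ▸ h0
    · exact h ▸ e0 h0
    · exact h ▸ e1 (e0 h0)
    · exact h ▸ e5 (e4 (h12 (e0 h0)))
    · exact h ▸ h12 (e0 h0)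
    · exact h ▸ e4 (h12 (e0 h0))
  -- from new darts to old ones
  have np : ∀ i : Fin 6, Sum.inr i ∈ S → Sum.inl p ∈ S := by
    intro i hi
    have := (hcl _ (hall i hi 0)).1
    rwa [T.split_a_0 h] at this
  have nc : ∀ i : Fin 6, Sum.inr i ∈ S → Sum.inl c ∈ S := by
    intro i hi
    have := (hcl _ (hall i hi 3)).1
    rwa [T.split_a_3 h] at this
  have nap : ∀ i : Fin 6, Sum.inr i ∈ S → Sum.inl (T.a p) ∈ S := by
    intro i hi
    by_cases h' : c = T.a p
    · rw [← h']
      exact nc i hi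
    · have := (hcl _ (hall i hi 2)).1
      rwa [T.split_a_2 h, if_neg h'] at this
  have nac : ∀ i : Fin 6, Sum.inr i ∈ S → Sum.inl (T.a c) ∈ S := by
    intro i hi
    by_cases h' : c = T.a p
    · rw [h', T.aa]
      exact np i hi
    · have := (hcl _ (hall i hi 5)).1
      rwa [T.split_a_5 h, if_neg h'] at this
  -- from old darts to new ones
  have op : Sum.inl p ∈ S → ∀ j : Fin 6, Sum.inr j ∈ S := by
    intro hd
    have := (hcl _ hd).1
    rw [T.split_a_p h] at this
    exact hall 0 this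
  have oc : Sum.inl c ∈ S → ∀ j : Fin 6, Sum.inr j ∈ S := by
    intro hd
    have := (hcl _ hd).1
    rw [T.split_a_c h] at this
    exact hall 3 this
  have oap : Sum.inl (T.a p) ∈ S → ∀ j : Fin 6, Sum.inr j ∈ S := by
    intro hd
    by_cases h' : c = T.a p
    · rw [← h'] at hd
      exact oc hd
    · have := (hcl _ hd).1
      rw [T.split_a_ap h h'] at this
      exact hall 2 this
  have oac : Sum.inl (T.a c) ∈ S → ∀ j : Fin 6, Sum.inr j ∈ S := by
    intro hd
    by_cases h' : c = T.a p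
    · rw [h', T.aa] at hd
      exact op hd
    · have := (hcl _ hd).1
      rw [T.split_a_ac h h'] at this
      exact hall 5 this
  have hinl : ∃ e : D, Sum.inl e ∈ S := by
    obtain ⟨x, hx⟩ := hS
    rcases x with e | i
    · exact ⟨e, hx⟩
    · exact ⟨p, np i hx⟩
  have hu : {e : D | (Sum.inl e : D ⊕ Fin 6) ∈ S} = Set.univ := by
    refine hT _ hinl ?_
    intro e he
    refine ⟨?_, (hcl _ he).2⟩
    show Sum.inl (T.a e) ∈ S
    by_cases h1 : e = p
    · rw [h1]
      exact nap 0 (op (h1 ▸ he) 0)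
    · by_cases h2 : e = c
      · rw [h2]
        exact nac 0 (oc (h2 ▸ he) 0)
      · by_cases h3 : e = T.a p
        · rw [h3, T.aa]
          exact np 0 (oap (h3 ▸ he) 0)
        · by_cases h4 : e = T.a c
          · rw [h4, T.aa]
            exact nc 0 (oac (h4 ▸ he) 0)
          · have h5 := (hcl _ he).1
            rw [T.split_a_ne h1 h2 h3 h4] at h5
            exact h5
  have hinl' : ∀ e : D, Sum.inl e ∈ S := by
    intro e
    have : e ∈ {e : D | (Sum.inl e : D ⊕ Fin 6) ∈ S} := by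
      rw [hu]
      exact Set.mem_univ _
    exact this
  rw [Set.eq_univ_iff_forall]
  rintro (e | i)
  · exact hinl' e
  · exact op (hinl' p) i

end Tri
end SST
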