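import Pool.Agent.SST.S.Split

/-!
# SST-S-SplitInj: a split determines the triangulation
`T' = T.split p c`.  `c` is read off: `T'.a (inr 3) = inl c` (`split_a_3`).
`rew_undo` for `T₁ = T.split1 p`: `(T₁.rew (inl c) (inr 3)).rew (inl c) (T₁.a (inl c)) = T₁`
(hypotheses `Sum.inr_ne_inl`, `split_h2`), and `T₁.a (inl c) = T'.a (inr 5)` (`split_a_5'`): so `T₁` is
determined by `T'` and `c`.  `rew_undo` for `T₀ = T.sum Theta`: `T₁.rew (inl p) (T₀.a (inl p)) = T₀`, and
`T₀.a (inl p) = inl (T.a p) = T₁.a (inr 2)` (`split1_a_2`): so `T₀` is determined.  `T` is determined by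
`T.sum Theta` (end of `subdiv_inj` in `S/Subdiv.lean`).
-/

namespace SST
namespace Tri

open Classical

variable {D : Type}

theorem split_inj (T T' : Tri D) {p c c' : D} (h : c ≠ p) (h' : c' ≠ p)
    (he : T.split p c = T'.split p c') : T = T' ∧ c = c' := by
  have h1 : c = c' := by
    have h2 := T.split_a_3 h
    rw [he, T'.split_a_3 h'] at h2
    exact (Sum.inl_injective h2).symm
  subst h1
  have h3 : (T.split1 p).a (Sum.inl c) = (T'.split1 p).a (Sum.inl c) := by
    rw [← T.split_a_5' h, ← T'.split_a_5' h', he]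
  have h4 : (T.split p c).rew (Sum.inl c) ((T.split1 p).a (Sum.inl c)) = T.split1 p :=
    (T.split1 p).rew_undo Sum.inr_ne_inl (T.split_h2 h)
  have h5 : (T'.split p c).rew (Sum.inl c) ((T'.split1 p).a (Sum.inl c)) = T'.split1 p :=
    (T'.split1 p).rew_undo Sum.inr_ne_inl (T'.split_h2 h')
  have h6 : T.split1 p = T'.split1 p := by
    rw [← h4, ← h5, he, h3]
  have h7 : T.a p = T'.a p := by
    have h8 := T.split1_a_2 p
    rw [h6, split1_a_2] at h8
    exact (Sum.inl_injective h8).symm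
  have g1 : ∀ T : Tri D, (Sum.inr 0 : D ⊕ Fin 6) ≠ (T.sum Theta).a (Sum.inl p) := by
    intro T
    rw [sum_a_inl]
    exact Sum.inr_ne_inl
  have g2 : (T.split1 p).rew (Sum.inl p) (Sum.inl (T.a p)) = T.sum Theta :=
    (T.sum Theta).rew_undo Sum.inr_ne_inl (g1 T)
  have g3 : (T'.split1 p).rew (Sum.inl p) (Sum.inl (T'.a p)) = T'.sum Theta :=
    (T'.sum Theta).rew_undo Sum.inr_ne_inl (g1 T')
  have g4 : T.sum Theta = T'.sum Theta := by
    rw [← g2, ← g3, h6, h7]
  refine ⟨Tri.ext' ?_ ?_, rfl⟩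
  · ext e
    have h9 : (T.sum Theta).a (Sum.inl e) = (T'.sum Theta).a (Sum.inl e) := by rw [g4]
    exact Sum.inl_injective h9
  · ext e
    have h9 : (T.sum Theta).f (Sum.inl e) = (T'.sum Theta).f (Sum.inl e) := by rw [g4]
    exact Sum.inl_injective h9

end Tri
end SST
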