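import Pool.Agent.SST.S.SplitPath

/-!
# SST-S-SplitDeg: degree of the marked vertex after a split
* `pow_inj_of_ne`: w.l.o.g. `j < j'`; apply `(s ^ j)⁻¹` to `s^j p = s^(j' - j) (s^j p)`... i.e. `s^j p = s^j (s^(j'-j) p)`
  gives `s^(j' - j) p = p`, `0 < j' - j ≤ Q`.
* `pow_ne_of_lt_deg`: `T.deg p` = number of elements of the `s`-cycle of `p`.  If `(T.s ^ q) p = p`, `0 < q`,
  then the cycle is contained in `{s^k p : k < q}` (for `n : ℕ`, `s^n p = s^(n % q) p`, and a natural power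
  suffices: `Equiv.Perm.SameCycle.exists_pow_eq'`), so `deg ≤ q`.
  (The cycle is `{e | T.tl e = T.tl p}`, `tl_eq_iff`.)
* `split_deg`: `c = (T.s ^ j) p ≠ p`.  Let `δ = T.deg p`, `x_k = (T.s ^ k) p`; the `x_k`, `k < δ`, are distinct
  (`pow_inj_of_ne` and `pow_ne_of_lt_deg`).  In `T' = T.split p c`: `T'.tl (inl x_k) = T'.tl (inl p)` for
  `j < k < δ`: `split_jump` for `k = j + 1` (`T.s c = x_(j+1)`), and then `split_path` with `d = x_(j+1)`,
  steps `k - (j + 1)` (`x_q ≠ p = x_0`, `x_q ≠ c = x_j` for `j < q < k`) (`T'.tl ((T'.s ^ r) x) = T'.tl x` from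
  `tl_s`).  So `{e | T'.tl e = T'.tl (inl p)}` contains the `δ - 1 - j` different darts `inl x_k`, `j < k < δ`,
  and `inl p`: at least `δ - j` elements.
-/

namespace SST
namespace Tri

open Classical

variable {D : Type}

theorem pow_inj_of_ne {s : Equiv.Perm D} {p : D} {Q : ℕ} (h : ∀ q, 0 < q → q ≤ Q → (s ^ q) p ≠ p)
    {j j' : ℕ} (hj : j ≤ Q) (hj' : j' ≤ Q) (he : (s ^ j) p = (s ^ j') p) : j = j' := by
  have key : ∀ i i' : ℕ, i < i' → i' ≤ Q → (s ^ i) p ≠ (s ^ i') p := by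
    intro i i' hii hi' heq
    have h1 : i' = i + (i' - i) := by omega
    rw [h1, pow_add, Equiv.Perm.mul_apply] at heq
    have h2 := (s ^ i).injective heq
    exact h (i' - i) (by omega) (by omega) h2.symm
  rcases lt_trichotomy j j' with h1 | h1 | h1
  · exact absurd he (key j j' h1 hj')
  · exact h1
  · exact absurd he.symm (key j' j h1 hj)

theorem tl_pow (T : Tri D) (q : ℕ) (d : D) : T.tl ((T.s ^ q) d) = T.tl d := by
  induction q with
  | zero => rfl
  | succ q ih =>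
    rw [pow_succ', Equiv.Perm.mul_apply, tl_s, ih]

theorem pow_ne_of_lt_deg [Finite D] (T : Tri D) (p : D) {q : ℕ} (h0 : 0 < q) (h1 : q < T.deg p) :
    (T.s ^ q) p ≠ p := by
  intro hq
  have hsub : {e : D | T.tl e = T.tl p} ⊆
      (((Finset.range q).image fun k => (T.s ^ k) p : Finset D) : Set D) := by
    intro e he
    have he' : T.tl p = T.tl e := Eq.symm he
    rw [tl_eq_iff] at he'
    obtain ⟨i, -, hi⟩ := he'.exists_pow_eq'
    rw [Finset.mem_coe, Finset.mem_image]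
    refine ⟨i % q, Finset.mem_range.2 (Nat.mod_lt _ h0), ?_⟩
    have h2 : ((T.s ^ q) ^ (i / q)) p = p := Equiv.Perm.pow_apply_eq_self_of_apply_eq_self hq _
    have h3 : (T.s ^ i) p = (T.s ^ (i % q)) (((T.s ^ q) ^ (i / q)) p) := by
      rw [← pow_mul, ← Equiv.Perm.mul_apply, ← pow_add, Nat.mod_add_div]
    rw [← hi, h3, h2]
  have h2 : T.deg p ≤ q := by
    unfold Tri.deg
    refine (Set.ncard_le_ncard hsub (Finset.finite_toSet _)).trans ?_
    rw [Set.ncard_coe_finset]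
    refine Finset.card_image_le.trans ?_
    rw [Finset.card_range]
  omega

theorem split_deg [Finite D] (T : Tri D) (p : D) {j : ℕ} (h0 : 0 < j) (h1 : j < T.deg p) :
    T.deg p ≤ (T.split p ((T.s ^ j) p)).deg (Sum.inl p) + j := by
  have hcp : (T.s ^ j) p ≠ p := T.pow_ne_of_lt_deg p h0 h1
  have hne : ∀ q, 0 < q → q ≤ T.deg p - 1 → (T.s ^ q) p ≠ p := fun q hq hq' =>
    T.pow_ne_of_lt_deg p hq (by omega)
  have hx : ∀ k, j + 1 ≤ k → k < T.deg p → (T.split p ((T.s ^ j) p)).tl (Sum.inl ((T.s ^ k) p)) =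
      (T.split p ((T.s ^ j) p)).tl (Sum.inl p) := by
    intro k hk hk'
    obtain ⟨k1, -, hk1, -⟩ := T.split_jump hcp
    have e1 : T.s ((T.s ^ j) p) = (T.s ^ (j + 1)) p := by
      rw [pow_succ', Equiv.Perm.mul_apply]
    rw [e1] at hk1
    have e2 : (T.split p ((T.s ^ j) p)).tl (Sum.inl ((T.s ^ (j + 1)) p)) =
        (T.split p ((T.s ^ j) p)).tl (Sum.inl p) := by
      rw [← hk1, tl_pow]
    obtain ⟨k2, -, hk2, -⟩ := T.split_path hcp ((T.s ^ (j + 1)) p) (k - (j + 1)) (by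
      intro q hq
      have e3 : (T.s ^ q) ((T.s ^ (j + 1)) p) = (T.s ^ (q + (j + 1))) p := by
        rw [pow_add T.s q (j + 1), Equiv.Perm.mul_apply]
      rw [e3]
      refine ⟨T.pow_ne_of_lt_deg p (by omega) (by omega), ?_⟩
      intro h
      have h2 := pow_inj_of_ne hne (by omega) (by omega) h
      omega)
    have e4 : (T.s ^ (k - (j + 1))) ((T.s ^ (j + 1)) p) = (T.s ^ k) p := by
      rw [← Equiv.Perm.mul_apply, ← pow_add, Nat.sub_add_cancel hk]
    rw [e4] at hk2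
    rw [← hk2, tl_pow, e2]
  have hsub : ((((Finset.Ico (j + 1) (T.deg p)).image fun k =>
      (Sum.inl ((T.s ^ k) p) : D ⊕ Fin 6)) ∪ {Sum.inl p} : Finset (D ⊕ Fin 6)) : Set (D ⊕ Fin 6)) ⊆
      {e | (T.split p ((T.s ^ j) p)).tl e = (T.split p ((T.s ^ j) p)).tl (Sum.inl p)} := by
    intro e he
    rw [Finset.mem_coe, Finset.mem_union, Finset.mem_singleton, Finset.mem_image] at he
    rcases he with ⟨k, hk, rfl⟩ | rfl
    · rw [Finset.mem_Ico] at hk
      exact hx k hk.1 hk.2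
    · rfl
  have hcard : (((Finset.Ico (j + 1) (T.deg p)).image fun k =>
      (Sum.inl ((T.s ^ k) p) : D ⊕ Fin 6)) ∪ {Sum.inl p} : Finset (D ⊕ Fin 6)).card =
      T.deg p - (j + 1) + 1 := by
    rw [Finset.card_union_of_disjoint, Finset.card_singleton, Finset.card_image_of_injOn,
      Nat.card_Ico]
    · intro k hk k' hk' hkk
      rw [Finset.mem_coe, Finset.mem_Ico] at hk hk'
      exact pow_inj_of_ne hne (by omega) (by omega) (Sum.inl_injective hkk)
    · rw [Finset.disjoint_singleton_right, Finset.mem_image]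
      rintro ⟨k, hk, hkp⟩
      rw [Finset.mem_Ico] at hk
      exact T.pow_ne_of_lt_deg p (by omega) hk.2 (Sum.inl_injective hkp)
  have hle := Set.ncard_le_ncard hsub (Set.toFinite _)
  rw [Set.ncard_coe_finset, hcard] at hle
  have h5 : T.deg p - (j + 1) + 1 ≤ (T.split p ((T.s ^ j) p)).deg (Sum.inl p) := hle
  omega

end Tri
end SST
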