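import Pool.Agent.SST.S.SplitConn
import Pool.Agent.SST.S.SplitCard
import Pool.Agent.SST.S.SplitDeg
import Pool.Agent.SST.S.SplitInj

/-!
# SST-S-TailStep: vertices of large degree can be split  (paper proof, (8.1))
`transfer_ncard` with `X = Fin (6 n)`, `E = Fin 6`, `Y = Fin (6 (n + 1))`,
`A = (Tri X × X) × Fin m`, `P = {x | x.1 ∈ TailSet n g D}`, `B = Tri Y × Y`, `Q = TailSet (n + 1) g (D - 2 m)`,
`Φ e ((T, p), i) = ((T.split p ((T.s ^ (m + i)) p)).map e, e (inl p))`, `ι (T', p') = newD T' p'`.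
Let `j = m + i`, `1 ≤ j ≤ 2 m - 1 < D ≤ T.deg p`, `c = (T.s ^ j) p ≠ p` (`pow_ne_of_lt_deg`),
`T.tl c = T.tl p` (`tl_pow`).
* `h1`: `newD_map`, `newD_split`.
* `h2`: equality of the second components gives `p = p'` (`e` and `inl` are injective); `map_inj`,
  `split_inj` give `T = T'` and `(T.s ^ j) p = (T.s ^ j') p`, `pow_inj_of_ne` (with `Q = 2 m - 1` and
  `pow_ne_of_lt_deg`) gives `j = j'`.
* `h3`: `map_conn`, `split_conn`, `map_genus`, `split_genus`; `map_deg`, `split_deg`: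
  `D ≤ deg' + j ≤ deg' + 2 m - 1`.
`P.ncard = m * (TailSet n g D).ncard`: `P = TailSet ×ˢ univ` (`Set.ncard_prod`), `Set.ncard_univ`,
`Nat.card_eq_fintype_card`.
-/

namespace SST

open Classical

def TailSet (n g D : ℕ) : Set (Tri (Fin (6 * n)) × Fin (6 * n)) :=
  {x | x.1 ∈ Trn n g ∧ D ≤ x.1.deg x.2}

theorem tail_step {m : ℕ} (hm : 1 ≤ m) (n g D : ℕ) (hD : 2 * m ≤ D) :
    m * (TailSet n g D).ncard * (6 * (n + 1)).factorial ≤
      (TailSet (n + 1) g (D - 2 * m)).ncard * (6 * n).factorial := by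
  have hne : ∀ (T : Tri (Fin (6 * n))) (p : Fin (6 * n)), D ≤ T.deg p →
      ∀ q, 0 < q → q ≤ 2 * m - 1 → (T.s ^ q) p ≠ p := fun T p hp q hq hq' =>
    T.pow_ne_of_lt_deg p hq (by omega)
  have key := transfer_ncard (X := Fin (6 * n)) (E := Fin 6) (Y := Fin (6 * (n + 1)))
    (A := (Tri (Fin (6 * n)) × Fin (6 * n)) × Fin m)
    (B := Tri (Fin (6 * (n + 1))) × Fin (6 * (n + 1)))
    (by simp only [Fintype.card_fin]; ring)
    ((TailSet n g D) ×ˢ (Set.univ : Set (Fin m))) (TailSet (n + 1) g (D - 2 * m))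
    (fun e x => ((x.1.1.split x.1.2 ((x.1.1.s ^ (m + (x.2 : ℕ))) x.1.2)).map e,
      e (Sum.inl x.1.2)))
    (fun y => Tri.newD y.1 y.2) ?_ ?_ ?_
  · rw [Set.ncard_prod, Set.ncard_univ, Nat.card_eq_fintype_card, Fintype.card_fin,
      Fintype.card_fin, Fintype.card_fin] at key
    rw [Nat.mul_comm m]
    exact key
  · rintro e ⟨⟨T, p⟩, i⟩ hx k
    obtain ⟨⟨-, hD'⟩, -⟩ := hx
    have hi := i.2
    have h1 : (T.s ^ (m + (i : ℕ))) p ≠ p := hne T p hD' _ (by omega) (by omega)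
    show e (Sum.inr k) = Tri.newD ((T.split p ((T.s ^ (m + (i : ℕ))) p)).map e) (e (Sum.inl p)) k
    rw [Tri.newD_map, Tri.newD_split T h1]
  · rintro e ⟨⟨T, p⟩, i⟩ hx ⟨⟨T', p'⟩, i'⟩ hx' he
    obtain ⟨⟨-, hD1⟩, -⟩ := hx
    obtain ⟨⟨-, hD2⟩, -⟩ := hx'
    have hi := i.2
    have hi' := i'.2
    have he1 := (Prod.mk.inj he).1
    have he2 := (Prod.mk.inj he).2
    have hp : p = p' := Sum.inl_injective (e.injective he2)
    subst hp
    have h1 : (T.s ^ (m + (i : ℕ))) p ≠ p := hne T p hD1 _ (by omega) (by omega)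
    have h2 : (T'.s ^ (m + (i' : ℕ))) p ≠ p := hne T' p hD2 _ (by omega) (by omega)
    obtain ⟨h3, h4⟩ := Tri.split_inj T T' h1 h2 (Tri.map_inj _ _ e he1)
    subst h3
    have h5 := Tri.pow_inj_of_ne (hne T p hD1) (by omega) (by omega) h4
    have h6 : i = i' := Fin.ext (by omega)
    rw [h6]
  · rintro e ⟨⟨T, p⟩, i⟩ hx
    obtain ⟨⟨⟨hc, hg⟩, hD'⟩, -⟩ := hx
    have hi := i.2
    have hD'' : D ≤ T.deg p := hD'
    have h1 : (T.s ^ (m + (i : ℕ))) p ≠ p := hne T p hD' _ (by omega) (by omega)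
    refine ⟨⟨(Tri.map_conn _ e).2 (T.split_conn h1 hc),
      (Tri.map_genus _ e _ _).2 (T.split_genus h1 (T.tl_pow _ p) hg)⟩, ?_⟩
    show D - 2 * m ≤ ((T.split p ((T.s ^ (m + (i : ℕ))) p)).map e).deg (e (Sum.inl p))
    rw [Tri.map_deg]
    have h2 := T.split_deg p (j := m + (i : ℕ)) (by omega) (by omega)
    omega

end SST
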