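import Pool.Agent.SST.S.SC

/-!
# SST-S-SubLoop: the inequalities from SUBDIV  (paper proof, (8.3))
`6 * (n + 1) = 6 * n + 6` by `rfl`/`ring`; the transfer lemma is used with `X = Fin (6 * n)`,
`E = Fin 6`, `Y = Fin (6 * (n + 1))`, `Φ e (T, d) := ((T.subdiv d).map e, e (inr 1))` and
`ι (T', y) := ![f (f y), y, f y, f (f (a y)), a y, f (a y)]` (in `T.subdiv d` with `y = inr 1`:
`f 1 = 2`, `f 2 = 0`, `a 1 = 4`, `f 4 = 5`, `f 5 = 3`).
* `subdiv_nu`: `A = {(T, d)}`, `B = {(T', y)}`: `6n nu(n,g) ≤ 6(n+1) nu(n+1,g)`, so `nu n g ≤ 2 nu (n+1) g`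
  for `n ≥ 1`.  Injectivity: `map_inj`, `subdiv_inj` (only the first component is needed).
* `loop_two`: let `d` be a loop (`tl d = hd d`) with `[d]` not null-homologous.  In `T' = T.subdiv d` the
  list `[inr 1, inr 2]` is closed (`subdiv_tl_*`, `hd (inr 1) = tl (inr 4) = tl (inr 2)`,
  `hd (inr 2) = tl (inr 3) = tl (inl (a d)) = tl (inl d)` as `tl (a d) = tl d`), simple, and not
  null-homologous: if `k'` are multiplicities put `k e := k' (inl e)`; for `e ≠ d, a d` the chain of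
  `[inr 1, inr 2]` vanishes at `inl e`, so `k e = k (a e)`; `k' (inl d) = k' (inr 0) = k' (inr 1)`,
  `k' (inr 1) - k' (inr 4) = 1`, `k' (inr 4) = k' (inr 5) = k' (inl (a d))`: `k d - k (a d) = 1`, so
  `k` shows that `[d]` is null-homologous.
* `sc_one`: transfer with `A`-set `SC n g 1 Δ`, `Φ e (T, [d]) = ((T.subdiv d).map e, [e (inr 1), e (inr 2)])`.
-/

namespace SST

open Classical

private theorem subloop_iota {D D' : Type} (T : Tri D) (d : D) (e : D ⊕ Fin 6 ≃ D') (i : Fin 6) :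
    e (Sum.inr i) =
      (![((T.subdiv d).map e).f (((T.subdiv d).map e).f (e (Sum.inr 1))), e (Sum.inr 1),
        ((T.subdiv d).map e).f (e (Sum.inr 1)),
        ((T.subdiv d).map e).f (((T.subdiv d).map e).f (((T.subdiv d).map e).a (e (Sum.inr 1)))),
        ((T.subdiv d).map e).a (e (Sum.inr 1)),
        ((T.subdiv d).map e).f (((T.subdiv d).map e).a (e (Sum.inr 1)))] : Fin 6 → D') i := by
  have h1 : ((T.subdiv d).map e).f (e (Sum.inr 1)) = e (Sum.inr 2) := by
    rw [Tri.map_f, Tri.subdiv_f_inr]; rfl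
  have h2 : ((T.subdiv d).map e).f (e (Sum.inr 2)) = e (Sum.inr 0) := by
    rw [Tri.map_f, Tri.subdiv_f_inr]; rfl
  have h3 : ((T.subdiv d).map e).a (e (Sum.inr 1)) = e (Sum.inr 4) := by
    rw [Tri.map_a, Tri.subdiv_a_1]
  have h4 : ((T.subdiv d).map e).f (e (Sum.inr 4)) = e (Sum.inr 5) := by
    rw [Tri.map_f, Tri.subdiv_f_inr]; rfl
  have h5 : ((T.subdiv d).map e).f (e (Sum.inr 5)) = e (Sum.inr 3) := by
    rw [Tri.map_f, Tri.subdiv_f_inr]; rfl
  rw [h1, h2, h3, h4, h5]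
  fin_cases i <;> rfl

theorem subdiv_nu {n g : ℕ} (hn : 1 ≤ n) : nu n g ≤ 2 * nu (n + 1) g := by
  have hcard : Fintype.card (Fin (6 * (n + 1))) = Fintype.card (Fin (6 * n)) + Fintype.card (Fin 6) := by
    rw [Fintype.card_fin, Fintype.card_fin, Fintype.card_fin]; ring
  have key := transfer_ncard (X := Fin (6 * n)) (E := Fin 6) (Y := Fin (6 * (n + 1)))
    (A := Tri (Fin (6 * n)) × Fin (6 * n)) (B := Tri (Fin (6 * (n + 1))) × Fin (6 * (n + 1)))
    hcard ((Trn n g) ×ˢ (Set.univ : Set (Fin (6 * n))))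
    ((Trn (n + 1) g) ×ˢ (Set.univ : Set (Fin (6 * (n + 1)))))
    (fun e x => ((x.1.subdiv x.2).map e, e (Sum.inr 1)))
    (fun z => ![z.1.f (z.1.f z.2), z.2, z.1.f z.2, z.1.f (z.1.f (z.1.a z.2)), z.1.a z.2,
      z.1.f (z.1.a z.2)])
    (fun e x _ i => subloop_iota x.1 x.2 e i)
    (by
      rintro e ⟨T, d⟩ _ ⟨T', d'⟩ _ h
      have h1 := Tri.map_inj _ _ e (Prod.mk.inj h).1
      obtain ⟨h2, h3⟩ := Tri.subdiv_inj _ _ _ _ h1
      exact Prod.ext h2 h3)
    (by
      rintro e ⟨T, d⟩ hx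
      rw [Set.mem_prod] at hx
      obtain ⟨⟨hc, hg⟩, -⟩ := hx
      rw [Set.mem_prod]
      exact ⟨⟨(Tri.map_conn _ e).2 (Tri.subdiv_conn T d hc),
        (Tri.map_genus _ e _ _).2 (Tri.subdiv_genus T d hg)⟩, Set.mem_univ _⟩)
  rw [Set.ncard_prod, Set.ncard_prod, Set.ncard_univ, Set.ncard_univ, Nat.card_eq_fintype_card,
    Nat.card_eq_fintype_card, Fintype.card_fin, Fintype.card_fin] at key
  have hkey : ((Trn n g).ncard : ℝ) * (6 * n) * ((6 * (n + 1)).factorial : ℝ) ≤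
      ((Trn (n + 1) g).ncard : ℝ) * (6 * (n + 1)) * ((6 * n).factorial : ℝ) := by
    exact_mod_cast key
  have hf1 : (0 : ℝ) < ((6 * n).factorial : ℝ) := by exact_mod_cast Nat.factorial_pos _
  have hf2 : (0 : ℝ) < ((6 * (n + 1)).factorial : ℝ) := by exact_mod_cast Nat.factorial_pos _
  have hn' : (1 : ℝ) ≤ n := by exact_mod_cast hn
  unfold nu
  rw [← mul_div_assoc, div_le_div_iff₀ hf1 hf2]
  have hA : (0 : ℝ) ≤ ((Trn (n + 1) g).ncard : ℝ) * ((6 * n).factorial : ℝ) := by positivity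
  have h6 : (0 : ℝ) < 6 * (n : ℝ) := by linarith
  have hle : ((Trn (n + 1) g).ncard : ℝ) * (6 * (n + 1)) * ((6 * n).factorial : ℝ) ≤
      (6 * (n : ℝ)) * (2 * ((Trn (n + 1) g).ncard : ℝ) * ((6 * n).factorial : ℝ)) := by
    nlinarith
  have := hkey.trans hle
  have h7 : (6 * (n : ℝ)) * (((Trn n g).ncard : ℝ) * ((6 * (n + 1)).factorial : ℝ)) ≤
      (6 * (n : ℝ)) * (2 * ((Trn (n + 1) g).ncard : ℝ) * ((6 * n).factorial : ℝ)) := by
    linarith
  exact le_of_mul_le_mul_left h7 h6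

theorem Tri.loop_two {D : Type} (T : Tri D) {d : D} (hd : T.tl d = T.hd d)
    (h : ¬ T.NullHom [d]) :
    (T.subdiv d).Closed [Sum.inr 1, Sum.inr 2] ∧ (T.subdiv d).Simple [Sum.inr 1, Sum.inr 2] ∧
      ¬ (T.subdiv d).NullHom [Sum.inr 1, Sum.inr 2] := by
  have t1 := T.subdiv_tl_1 d
  have t2 := T.subdiv_tl_2 d d
  have hh1 : (T.subdiv d).hd (Sum.inr 1) = (T.subdiv d).tl (Sum.inr 2) := by
    show (T.subdiv d).tl ((T.subdiv d).a (Sum.inr 1)) = _
    rw [T.subdiv_a_1]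
    exact T.subdiv_tl_24 d
  have hh2 : (T.subdiv d).hd (Sum.inr 2) = (T.subdiv d).tl (Sum.inr 1) := by
    show (T.subdiv d).tl ((T.subdiv d).a (Sum.inr 2)) = _
    rw [T.subdiv_a_2, T.subdiv_tl_3, t1]
    exact (T.subdiv_tl_inl d (T.a d) d).2 hd.symm
  refine ⟨⟨(T.subdiv d).tl (Sum.inr 1), ?_⟩, ?_, ?_⟩
  · exact ⟨rfl, hh1.symm, hh2⟩
  · show ([(T.subdiv d).tl (Sum.inr 1), (T.subdiv d).tl (Sum.inr 2)] : List _).Nodup
    rw [t1]
    simp only [List.nodup_cons, List.mem_cons, List.not_mem_nil, or_false, not_false_eq_true,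
      List.nodup_nil, and_true]
    exact fun hc => t2 hc.symm
  · rintro ⟨k', hf, hk⟩
    apply h
    have hch : ∀ x, (T.subdiv d).chain [Sum.inr 1, Sum.inr 2] x =
        (ind (Sum.inr 1) x - ind (Sum.inr 1) ((T.subdiv d).a x)) +
        (ind (Sum.inr 2) x - ind (Sum.inr 2) ((T.subdiv d).a x)) := by
      intro x
      simp [Tri.chain]
    have e0 : k' (Sum.inl d) = k' (Sum.inr 0) := by
      have := hk (Sum.inl d)
      rw [hch, T.subdiv_a_d, ind_ne (by simp), ind_ne (by simp), ind_ne (by simp),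
        ind_ne (by simp)] at this
      linarith
    have e1 : k' (Sum.inr 1) = k' (Sum.inr 0) := by
      have := hf (Sum.inr 0)
      rw [T.subdiv_f_inr] at this
      exact this
    have e2 : k' (Sum.inr 1) - k' (Sum.inr 4) = 1 := by
      have := hk (Sum.inr 1)
      rw [hch, T.subdiv_a_1, ind_self, ind_ne (by simp), ind_ne (by simp),
        ind_ne (by simp)] at this
      linarith
    have e3 : k' (Sum.inr 5) = k' (Sum.inr 4) := by
      have := hf (Sum.inr 4)
      rw [T.subdiv_f_inr] at this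
      exact this
    have e4 : k' (Sum.inr 5) = k' (Sum.inl (T.a d)) := by
      have := hk (Sum.inr 5)
      rw [hch, T.subdiv_a_5, ind_ne (by simp), ind_ne (by simp), ind_ne (by simp),
        ind_ne (by simp)] at this
      linarith
    refine ⟨fun e => k' (Sum.inl e), ?_, ?_⟩
    · intro x
      have := hf (Sum.inl x)
      rw [T.subdiv_f_inl] at this
      exact this
    · intro x
      have hcx : T.chain [d] x = ind d x - ind d (T.a x) := by
        simp [Tri.chain]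
      rw [hcx]
      by_cases h1 : x = d
      · subst h1
        rw [ind_self, ind_ne (T.ane x).symm]
        linarith
      · by_cases h2 : x = T.a d
        · subst h2
          rw [T.aa, ind_self, ind_ne (T.ane d).symm]
          linarith
        · rw [ind_ne (fun hc => h1 hc.symm), ind_ne (fun hc => h2 (by rw [hc, T.aa]))]
          have := hk (Sum.inl x)
          rw [hch, T.subdiv_a_ne h1 h2, ind_ne (by simp), ind_ne (by simp), ind_ne (by simp),
            ind_ne (by simp)] at this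
          linarith

private theorem subloop_head {D : Type} {l : List D} {k : ℕ} (h : l.length = k + 1) : l ≠ [] := by
  rintro rfl
  simp at h

private theorem subloop_eq {D : Type} {l : List D} (h : l.length = 1) :
    l = [l.head (subloop_head (k := 0) h)] := by
  obtain ⟨x, rfl⟩ := List.length_eq_one_iff.1 h
  rfl

theorem sc_one (n g Δ : ℕ) :
    (SC n g 1 Δ).ncard * (6 * (n + 1)).factorial ≤
      (SC (n + 1) g 2 (Δ + 4)).ncard * (6 * n).factorial := by
  have hcard : Fintype.card (Fin (6 * (n + 1))) = Fintype.card (Fin (6 * n)) + Fintype.card (Fin 6) := by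
    rw [Fintype.card_fin, Fintype.card_fin, Fintype.card_fin]; ring
  have hA : Finite (SC n g 1 Δ) := (SC_finite n g 1 Δ).to_subtype
  have hB : Finite (SC (n + 1) g 2 (Δ + 4)) := (SC_finite (n + 1) g 2 (Δ + 4)).to_subtype
  let dd : SC n g 1 Δ → Fin (6 * n) := fun x => x.1.2.head (subloop_head (k := 0) x.2.2.2.1)
  have hdd : ∀ x, x.1.2 = [dd x] := fun x => subloop_eq x.2.2.2.1
  have hmem : ∀ (e : Fin (6 * n) ⊕ Fin 6 ≃ Fin (6 * (n + 1))) (x : SC n g 1 Δ),
      ((x.1.1.subdiv (dd x)).map e, [e (Sum.inr 1), e (Sum.inr 2)]) ∈ SC (n + 1) g 2 (Δ + 4) := by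
    intro e x
    obtain ⟨⟨hc, hg⟩, hdeg, hlen, hcl, hs, hnh⟩ := x.2
    rw [hdd x] at hcl hnh
    have hloop : x.1.1.tl (dd x) = x.1.1.hd (dd x) := by
      obtain ⟨v, hv⟩ := hcl
      have h1 : x.1.1.tl (dd x) = v := hv.1
      have h2 : x.1.1.hd (dd x) = v := hv.2
      rw [h1, h2]
    obtain ⟨l1, l2, l3⟩ := Tri.loop_two x.1.1 hloop hnh
    have hl : ([e (Sum.inr 1), e (Sum.inr 2)] : List (Fin (6 * (n + 1)))) =
      ([Sum.inr 1, Sum.inr 2] : List (Fin (6 * n) ⊕ Fin 6)).map e := rfl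
    refine ⟨⟨(Tri.map_conn _ e).2 (Tri.subdiv_conn _ _ hc),
        (Tri.map_genus _ e _ _).2 (Tri.subdiv_genus _ _ hg)⟩, ?_, rfl, ?_, ?_, ?_⟩
    · intro y
      obtain ⟨z, rfl⟩ := e.surjective y
      show ((x.1.1.subdiv (dd x)).map e).deg (e z) ≤ _
      rw [Tri.map_deg]
      exact Tri.subdiv_deg _ _ hdeg z
    · show ((x.1.1.subdiv (dd x)).map e).Closed [e (Sum.inr 1), e (Sum.inr 2)]
      rw [hl, Tri.map_walk]
      exact l1
    · show ((x.1.1.subdiv (dd x)).map e).Simple [e (Sum.inr 1), e (Sum.inr 2)]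
      rw [hl, Tri.map_simple]
      exact l2
    · show ¬ ((x.1.1.subdiv (dd x)).map e).NullHom [e (Sum.inr 1), e (Sum.inr 2)]
      rw [hl, Tri.map_nullHom]
      exact l3
  have key := transfer_ncard (X := Fin (6 * n)) (E := Fin 6) (Y := Fin (6 * (n + 1)))
    (A := SC n g 1 Δ) (B := SC (n + 1) g 2 (Δ + 4))
    hcard Set.univ Set.univ
    (fun e x => ⟨((x.1.1.subdiv (dd x)).map e, [e (Sum.inr 1), e (Sum.inr 2)]), hmem e x⟩)
    (fun z =>
      let y := z.1.2.head (subloop_head (k := 1) z.2.2.2.1)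
      ![z.1.1.f (z.1.1.f y), y, z.1.1.f y, z.1.1.f (z.1.1.f (z.1.1.a y)), z.1.1.a y,
      z.1.1.f (z.1.1.a y)])
    (fun e x _ i => subloop_iota x.1.1 (dd x) e i)
    (by
      intro e x _ x' _ h
      have h0 := congrArg (fun z : SC (n + 1) g 2 (Δ + 4) => z.1.1) h
      have h1 := Tri.map_inj _ _ e h0
      obtain ⟨h2, h3⟩ := Tri.subdiv_inj _ _ _ _ h1
      apply Subtype.ext
      apply Prod.ext h2
      rw [hdd x, hdd x', h3])
    (fun _ _ _ => Set.mem_univ _)
  rw [Set.ncard_univ, Set.ncard_univ, Nat.card_coe_set_eq, Nat.card_coe_set_eq,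
    Fintype.card_fin, Fintype.card_fin] at key
  exact key

end SST
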