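import Pool.Agent.SST.S.SNum

/-!
# SST-S-CoBound: solution of the recursive inequality (abstract, numbers only)
Induction on `i`, the claim for all `n ≥ n0`.  `i = 0`: `h0`.  Step: let `J = (x - 1) / (2 m)` (natural
division), `y = x - 1`, so `2 m J ≤ y < 2 m (J + 1)`.
1. `m ^ J * F n i y ≤ F (n + J) i (y - 2 m J)` (induction on the number of steps with `h3`, for all `n`), and this
   is `≤ W (n + J) i ≤ (12 m)^i * (6 (n + J) nu (n + J))` by `h2` and the induction hypothesis.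
2. `nu (n + J) ≤ C^J nu n` (`growth_iter`; the hypothesis for `n' ≥ n` follows from `hnu`), and
   `(n + J) C^J ≤ n m^J (1/2)^J` (`growth_num`); so `F n i y ≤ (12 m)^i * 6 n nu n * (1/2)^J` (cancel `m^J`).
3. `(1/2)^J * z^x ≤ 2 * (1/z)^x`: `z^(4 m J) = 2^J` (`hz2`, `pow_mul`), and `2 x ≤ 4 m J + 4 m` as
   `x ≤ 2 m (J + 1)`, so `z^(2 x) ≤ z^(4 m J + 4 m) = 2^J * 2` (`pow_le_pow_right₀`).
4. `∑ x ∈ Icc 1 N, (1/z)^x ≤ 1 / (z - 1) ≤ 6 m`: the finite geometric sum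
   (`(z - 1) ∑_{x=1}^N z^(-x) = 1 - z^(-N) ≤ 1`, induction on `N`), and `z - 1 ≥ 1 / (6 m)`: otherwise
   `2 = z^(4 m) < (1 + 1/(6 m))^(4 m) ≤ exp (4 m / (6 m)) = exp (2/3) < 2` (`Real.add_one_le_exp`,
   `Real.exp_one_lt_d9`: `exp (2/3)^3 = exp 1 ^ 2 < 2.7182818286^2 < 8`).  In particular `z > 1`.
5. So `W n (i + 1) ≤ (12 m)^i * 6 n nu n * (2 * 6 m) = (12 m)^(i + 1) * 6 n nu n`.
-/

namespace SST

private theorem exp_aux : Real.exp (2 / 3) < 2 := by
  have h1 := Real.exp_one_lt_d9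
  have h0 := Real.exp_pos 1
  have h2 : Real.exp (2 / 3) ^ 3 = Real.exp 1 ^ 2 := by
    rw [← Real.exp_nat_mul, ← Real.exp_nat_mul]; norm_num
  by_contra hcon
  push Not at hcon
  have h3 : (2 : ℝ) ^ 3 ≤ Real.exp (2 / 3) ^ 3 := pow_le_pow_left₀ (by norm_num) hcon 3
  rw [h2] at h3
  nlinarith

private theorem z_aux {z : ℝ} {m : ℕ} (hm : 0 < m) (hz : 1 ≤ z) (hz2 : z ^ (4 * m) = 2) :
    1 / (6 * (m : ℝ)) ≤ z - 1 := by
  by_contra hcon
  push Not at hcon
  have hmp : (0 : ℝ) < m := by exact_mod_cast hm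
  have h1 : z ≤ Real.exp (1 / (6 * (m : ℝ))) := by
    have h := Real.add_one_le_exp (1 / (6 * (m : ℝ)))
    linarith
  have h2 : z ^ (4 * m) ≤ Real.exp (1 / (6 * (m : ℝ))) ^ (4 * m) :=
    pow_le_pow_left₀ (by linarith) h1 _
  rw [hz2, ← Real.exp_nat_mul] at h2
  have h3 : ((4 * m : ℕ) : ℝ) * (1 / (6 * (m : ℝ))) = 2 / 3 := by
    push_cast
    field_simp
    norm_num
  rw [h3] at h2
  have h4 := exp_aux
  linarith

private theorem geo_aux {z : ℝ} (hz : 1 ≤ z) (N : ℕ) :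
    (z - 1) * ∑ x ∈ Finset.Icc 1 N, (1 / z) ^ x = 1 - (1 / z) ^ N := by
  have hz0 : z ≠ 0 := by linarith
  induction N with
  | zero => simp
  | succ N ih =>
    rw [Finset.sum_Icc_succ_top (by omega), mul_add, ih, pow_succ]
    field_simp
    ring

private theorem step_aux {m : ℕ} (F : ℕ → ℕ → ℕ → ℝ)
    (h3 : ∀ n i y, 2 * m ≤ y → m * F n i y ≤ F (n + 1) i (y - 2 * m)) (i n y : ℕ) :
    ∀ J : ℕ, 2 * m * J ≤ y → (m : ℝ) ^ J * F n i y ≤ F (n + J) i (y - 2 * m * J) := by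
  intro J
  induction J with
  | zero => intro _; simp
  | succ J ih =>
    intro hJ
    have hJ' : 2 * m * J + 2 * m ≤ y := by
      have : 2 * m * (J + 1) = 2 * m * J + 2 * m := by ring
      omega
    have h4 := ih (by omega)
    have h5 := h3 (n + J) i (y - 2 * m * J) (by omega)
    have h6 : y - 2 * m * J - 2 * m = y - 2 * m * (J + 1) := by
      have : 2 * m * (J + 1) = 2 * m * J + 2 * m := by ring
      omega
    rw [h6] at h5
    have h7 : (m : ℝ) * ((m : ℝ) ^ J * F n i y) ≤ m * F (n + J) i (y - 2 * m * J) :=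
      mul_le_mul_of_nonneg_left h4 (Nat.cast_nonneg m)
    calc (m : ℝ) ^ (J + 1) * F n i y = m * ((m : ℝ) ^ J * F n i y) := by ring
      _ ≤ _ := h7
      _ ≤ _ := h5

theorem co_bound {C z : ℝ} (hC : 1 ≤ C) {m : ℕ} (hm : 4 * C ≤ m) (hz : 1 ≤ z) (hz2 : z ^ (4 * m) = 2)
    {n0 : ℕ} (hn0 : 1 ≤ n0) (nu : ℕ → ℝ) (hnu0 : ∀ n, 0 ≤ nu n) (hnu : ∀ n ≥ n0, nu (n + 1) ≤ C * nu n)
    (W : ℕ → ℕ → ℝ) (F : ℕ → ℕ → ℕ → ℝ) (h0 : ∀ n, W n 0 ≤ 6 * n * nu n)
    (h1 : ∀ n i, W n (i + 1) ≤ ∑ x ∈ Finset.Icc 1 (6 * n), z ^ x * F n i (x - 1))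
    (h2 : ∀ n i y, F n i y ≤ W n i)
    (h3 : ∀ n i y, 2 * m ≤ y → m * F n i y ≤ F (n + 1) i (y - 2 * m)) (i : ℕ) :
    ∀ n ≥ n0, W n i ≤ (12 * m) ^ i * (6 * n * nu n) := by
  have hmR : (0 : ℝ) < m := by linarith
  have hmN : 0 < m := by exact_mod_cast hmR
  have hz0 : (0 : ℝ) < z := by linarith
  induction i with
  | zero => intro n _; simpa using h0 n
  | succ i ih =>
    intro n hn
    set A : ℝ := (12 * m) ^ i * (6 * n * nu n) with hA
    have hA0 : 0 ≤ A := by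
      have := hnu0 n
      positivity
    have key : ∀ y : ℕ, F n i y ≤ A * (1 / 2) ^ (y / (2 * m)) := by
      intro y
      set J := y / (2 * m) with hJ
      have hJy : 2 * m * J ≤ y := Nat.mul_div_le y (2 * m)
      have e1 := step_aux F h3 i n y J hJy
      have e2 := h2 (n + J) i (y - 2 * m * J)
      have e3 := ih (n + J) (le_trans hn (Nat.le_add_right n J))
      have e4 : nu (n + J) ≤ C ^ J * nu n :=
        growth_iter hC nu (fun n' hn' => hnu n' (by omega)) J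
      have e5 := growth_num hC hm (n := n) (by omega) J
      have e6 : (12 * (m : ℝ)) ^ i * (6 * ((n + J : ℕ) : ℝ) * nu (n + J))
          ≤ A * ((m : ℝ) ^ J * (1 / 2) ^ J) := by
        have f1 : (6 * ((n + J : ℕ) : ℝ)) * nu (n + J) ≤ (6 * ((n + J : ℕ) : ℝ)) * (C ^ J * nu n) :=
          mul_le_mul_of_nonneg_left e4 (by positivity)
        have f2 : (6 * nu n) * (((n + J : ℕ) : ℝ) * C ^ J)
            ≤ (6 * nu n) * (n * ((m : ℝ) ^ J * (1 / 2) ^ J)) :=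
          mul_le_mul_of_nonneg_left e5 (by have := hnu0 n; positivity)
        have f3 : (6 * ((n + J : ℕ) : ℝ)) * nu (n + J)
            ≤ (6 * nu n) * (n * ((m : ℝ) ^ J * (1 / 2) ^ J)) := by
          calc (6 * ((n + J : ℕ) : ℝ)) * nu (n + J) ≤ _ := f1
            _ = (6 * nu n) * (((n + J : ℕ) : ℝ) * C ^ J) := by ring
            _ ≤ _ := f2
        calc (12 * (m : ℝ)) ^ i * (6 * ((n + J : ℕ) : ℝ) * nu (n + J))
            ≤ (12 * (m : ℝ)) ^ i * ((6 * nu n) * (n * ((m : ℝ) ^ J * (1 / 2) ^ J))) :=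
              mul_le_mul_of_nonneg_left f3 (by positivity)
          _ = A * ((m : ℝ) ^ J * (1 / 2) ^ J) := by rw [hA]; ring
      have e7 : (m : ℝ) ^ J * F n i y ≤ (m : ℝ) ^ J * (A * (1 / 2) ^ J) := by
        calc (m : ℝ) ^ J * F n i y ≤ _ := e1
          _ ≤ _ := e2
          _ ≤ _ := e3
          _ ≤ _ := e6
          _ = _ := by ring
      exact le_of_mul_le_mul_left e7 (by positivity)
    have key2 : ∀ x ∈ Finset.Icc 1 (6 * n), z ^ x * F n i (x - 1) ≤ (2 * A) * (1 / z) ^ x := by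
      intro x hx
      rw [Finset.mem_Icc] at hx
      set J := (x - 1) / (2 * m) with hJ
      have e1 := key (x - 1)
      rw [← hJ] at e1
      have e2 : 2 * x ≤ 4 * m * J + 4 * m := by
        have g1 : x - 1 < 2 * m * (J + 1) := by
          rw [hJ]
          exact Nat.lt_mul_div_succ (x - 1) (by omega)
        have g2 : 2 * m * (J + 1) = 2 * m * J + 2 * m := by ring
        have g3 : 4 * m * J = 2 * (2 * m * J) := by ring
        omega
      have e3 : z ^ (2 * x) ≤ 2 ^ J * 2 := by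
        calc z ^ (2 * x) ≤ z ^ (4 * m * J + 4 * m) := pow_le_pow_right₀ hz e2
          _ = 2 ^ J * 2 := by rw [pow_add, pow_mul, hz2]
      have hzx : 0 < z ^ x := by positivity
      have e4 : z ^ x * (1 / 2) ^ J ≤ 2 * (1 / z) ^ x := by
        rw [one_div_pow, one_div_pow, mul_one_div, mul_one_div, div_le_div_iff₀ (by positivity) hzx]
        calc z ^ x * z ^ x = z ^ (2 * x) := by rw [← pow_add]; ring_nf
          _ ≤ 2 ^ J * 2 := e3
          _ = 2 * 2 ^ J := by ring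
      calc z ^ x * F n i (x - 1) ≤ z ^ x * (A * (1 / 2) ^ J) :=
            mul_le_mul_of_nonneg_left e1 hzx.le
        _ = A * (z ^ x * (1 / 2) ^ J) := by ring
        _ ≤ A * (2 * (1 / z) ^ x) := mul_le_mul_of_nonneg_left e4 hA0
        _ = (2 * A) * (1 / z) ^ x := by ring
    have hsum : ∑ x ∈ Finset.Icc 1 (6 * n), (1 / z) ^ x ≤ 6 * m := by
      have g1 := geo_aux hz (6 * n)
      have g2 := z_aux hmN hz hz2
      have g3 : 0 ≤ (1 / z) ^ (6 * n) := by positivity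
      have g4 : 0 ≤ ∑ x ∈ Finset.Icc 1 (6 * n), (1 / z) ^ x :=
        Finset.sum_nonneg (fun x _ => by positivity)
      have g5 : 1 / (6 * (m : ℝ)) * ∑ x ∈ Finset.Icc 1 (6 * n), (1 / z) ^ x ≤ 1 := by
        calc 1 / (6 * (m : ℝ)) * ∑ x ∈ Finset.Icc 1 (6 * n), (1 / z) ^ x
            ≤ (z - 1) * ∑ x ∈ Finset.Icc 1 (6 * n), (1 / z) ^ x :=
              mul_le_mul_of_nonneg_right g2 g4
          _ ≤ 1 := by rw [g1]; linarith
      rw [one_div_mul_eq_div, div_le_one (by positivity)] at g5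
      exact g5
    calc W n (i + 1) ≤ ∑ x ∈ Finset.Icc 1 (6 * n), z ^ x * F n i (x - 1) := h1 n i
      _ ≤ ∑ x ∈ Finset.Icc 1 (6 * n), (2 * A) * (1 / z) ^ x := Finset.sum_le_sum key2
      _ = (2 * A) * ∑ x ∈ Finset.Icc 1 (6 * n), (1 / z) ^ x := by rw [Finset.mul_sum]
      _ ≤ (2 * A) * (6 * m) := mul_le_mul_of_nonneg_left hsum (by linarith)
      _ = (12 * m) ^ (i + 1) * (6 * n * nu n) := by rw [hA]; ring

end SST
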