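import Pool.Agent.SST.S.CoDrop

/-!
# SST-S-CoDropW: the recursive inequality for the weights
-/

namespace SST

theorem FF_nonneg (n g i y : ℕ) {z : ℝ} (hz : 1 ≤ z) : 0 ≤ FF n g i y z := by
  have h0 : (0 : ℝ) ≤ z := zero_le_one.trans hz
  unfold FF
  exact div_nonneg (wsum_nonneg fun x _ => pow_nonneg h0 _) (Nat.cast_nonneg _)

private theorem coSet_zero (n g : ℕ) : CoSet n g 0 = Trn n g ×ˢ Set.univ := by
  ext ⟨T, E⟩
  unfold CoSet
  simp only [Set.mem_ofPred_eq, Set.mem_prod, Set.mem_univ, and_true]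
  constructor
  · exact fun h => h.1
  · intro h
    exact ⟨h, fun r => r.elim0, fun r => r.elim0⟩

theorem WW_zero (n g : ℕ) (z : ℝ) : WW n g 0 z = 6 * n * nu n g := by
  unfold WW nu
  have h1 : wsum (CoSet n g 0) (fun x => z ^ x.1.clen x.2) = wsum (CoSet n g 0) (fun _ => 1) := by
    apply wsum_congr
    intro x _
    have : x.1.clen x.2 = 0 := by
      unfold Tri.clen
      simp
    rw [this, pow_zero]
  rw [h1, wsum_one, coSet_zero, Set.ncard_prod]
  have h2 : (Set.univ : Set (Fin (0 + 1) → Fin (6 * n))).ncard = 6 * n := by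
    rw [Set.ncard_univ, Nat.card_eq_fintype_card]
    simp
  rw [h2]
  push_cast
  ring

theorem FF_le_WW (n g i y : ℕ) {z : ℝ} (hz : 1 ≤ z) : FF n g i y z ≤ WW n g i z := by
  have h0 : (0 : ℝ) ≤ z := zero_le_one.trans hz
  unfold FF WW
  apply div_le_div_of_nonneg_right _ (Nat.cast_nonneg _)
  apply wsum_mono
  · rintro x ⟨hx1, hx2⟩
    exact ⟨hx1, hx2.1⟩
  · exact fun _ _ => le_rfl
  · exact fun x _ => pow_nonneg h0 _

theorem WW_succ (n g i : ℕ) {z : ℝ} (hz : 1 ≤ z) :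
    WW n g (i + 1) z ≤ ∑ x ∈ Finset.Icc 1 (6 * n), z ^ x * FF n g i (x - 1) z := by
  have h0 : (0 : ℝ) ≤ z := zero_le_one.trans hz
  unfold WW
  rw [wsum_fiber (CoSet n g (i + 1)) (fun x => z ^ x.1.clen x.2) (Finset.Icc 1 (6 * n))
    (fun x => x.1.sec x.2 (Fin.last i).castSucc) (by
      intro x _
      rw [Finset.mem_Icc]
      refine ⟨x.1.sec_pos x.2 _, ?_⟩
      have := x.1.sec_le_card x.2 (Fin.last i).castSucc
      rwa [Fintype.card_fin] at this)]
  rw [Finset.sum_div]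
  apply Finset.sum_le_sum
  intro l _
  unfold FF
  rw [← mul_div_assoc]
  apply div_le_div_of_nonneg_right _ (Nat.cast_nonneg _)
  rw [← wsum_mul]
  apply wsum_le_of_inj (fun x : Tri (Fin (6 * n)) × (Fin (i + 1 + 1) → Fin (6 * n)) =>
    ((x.1, fun r : Fin (i + 1) => x.2 r.castSucc) :
      Tri (Fin (6 * n)) × (Fin (i + 1) → Fin (6 * n))))
  · rintro ⟨T, E⟩ ⟨⟨h1, h2⟩, h3⟩
    have h4 := T.co_drop E h2
    simp only at h3
    rw [h3] at h4
    exact ⟨h1, h4.1⟩
  · rintro ⟨T, E⟩ ⟨⟨h1, h2⟩, h3⟩ ⟨T', E'⟩ ⟨⟨h1', h2'⟩, h3'⟩ he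
    simp only [Prod.mk.injEq] at he
    obtain ⟨rfl, he⟩ := he
    have hE : ∀ r : Fin (i + 1), E r.castSucc = E' r.castSucc := fun r => congrFun he r
    simp only at h3 h3'
    have h4 := (T.co_drop E h2).2.2
    have h4' := (T.co_drop E' h2').2.2
    rw [h3] at h4
    rw [h3', ← hE] at h4'
    have : E = E' := by
      funext r
      refine Fin.lastCases ?_ (fun r => hE r) r
      rw [h4, h4']
    rw [this]
  · rintro ⟨T, E⟩ ⟨⟨h1, h2⟩, h3⟩
    simp only at h3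
    have h4 := (T.co_drop E h2).2.1
    rw [h3] at h4
    simp only
    rw [h4, pow_add, mul_comm]
  · intro y _
    exact mul_nonneg (pow_nonneg h0 _) (pow_nonneg h0 _)

end SST
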