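import Pool.Agent.SST.S.CoSplit
import Pool.Agent.SST.S.SplitConn
import Pool.Agent.SST.S.SplitCard
import Pool.Agent.SST.S.SplitDeg
import Pool.Agent.SST.S.SplitInj

/-!
# SST-S-CoStep: injection for contour sequences with a long free sector
`m * FF n g i y z ≤ FF (n + 1) g i (y - 2 m) z`.  `wsum_transfer` with `X = Fin (6 n)`, `E = Fin 6`,
`Y = Fin (6 (n + 1))`, `A = (Tri X × (Fin (i + 1) → X)) × Fin m`, `P = {x | x.1 ∈ FrSet n g i y}`,
`Q = FrSet (n + 1) g i (y - 2 m)`, `w x = z ^ x.1.1.clen x.1.2`, `w' y = z ^ y.1.clen y.2`.  For `((T, E), k)` let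
`p = T.f (E (last i))`, `j = m + k` (`1 ≤ j`, `j + 1 ≤ 2 m ≤ y`), `c = (T.s ^ j) p`:
`Φ e ((T, E), k) = ((T.split p c).map e, fun r => e (inl (E r)))`, `ι (T', E') = newD T' (T'.f (E' (last i)))`.
* `h1`: `(T.split p c).f (inl (E last)) = inl p` (`split_f_inl`), `map_f`, `newD_map`, `newD_split` (`c ≠ p`:
  `fr_ne`).
* `h2`: the second components give `E = E'`; `map_inj`; `f` applied to `inl (E last)` gives the same `p`;
  `split_inj`: `T = T'`, `(T.s ^ j) p = (T.s ^ j') p`, and `pow_inj_of_ne` (`Q = 2 m - 1`, `fr_ne`) gives `j = j'`.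
* `h3`: `map_conn`, `split_conn`, `map_genus`, `split_genus` (`T.tl c = T.tl p`: `tl_pow`), `co_split`, `map_isFr`,
  `isFr_mono` (`y - 2 m ≤ y - j`).
* `hle`: `map_clen`, `co_split`, `pow_le_pow_right₀ hz`.
`wsum P w = m * wsum (FrSet n g i y) _` (`wsum_copies`).  Then divide by the factorials.
-/

namespace SST

open Classical

private theorem costep_transfer (n g i y m : ℕ) (hm : 1 ≤ m) (hy : 2 * m ≤ y) {z : ℝ} (hz : 1 ≤ z) :
    m * wsum (FrSet n g i y) (fun x => z ^ x.1.clen x.2) * (6 * (n + 1)).factorial ≤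
      wsum (FrSet (n + 1) g i (y - 2 * m)) (fun x => z ^ x.1.clen x.2) * (6 * n).factorial := by
  have key := wsum_transfer (X := Fin (6 * n)) (E := Fin 6) (Y := Fin (6 * (n + 1)))
    (A := (Tri (Fin (6 * n)) × (Fin (i + 1) → Fin (6 * n))) × Fin m)
    (B := Tri (Fin (6 * (n + 1))) × (Fin (i + 1) → Fin (6 * (n + 1))))
    (by simp only [Fintype.card_fin]; ring)
    {x | x.1 ∈ FrSet n g i y} (FrSet (n + 1) g i (y - 2 * m))
    (fun e x => ((x.1.1.split (x.1.1.f (x.1.2 (Fin.last i)))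
        ((x.1.1.s ^ (m + (x.2 : ℕ))) (x.1.1.f (x.1.2 (Fin.last i))))).map e,
      fun r => e (Sum.inl (x.1.2 r))))
    (fun y => Tri.newD y.1 (y.1.f (y.2 (Fin.last i)))) ?_ ?_ ?_
    (fun x => z ^ x.1.1.clen x.1.2) (fun x => z ^ x.1.clen x.2)
    (fun y _ => by positivity) ?_
  · rw [Fintype.card_fin, Fintype.card_fin] at key
    have h1 := wsum_copies m (FrSet n g i y) (fun x => z ^ x.1.clen x.2)
    rw [← h1]
    exact key
  · rintro e ⟨⟨T, E⟩, k⟩ hx k'
    have hx' : T.IsFr E y := hx.2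
    have hk := k.2
    have h1 : (T.s ^ (m + (k : ℕ))) (T.f (E (Fin.last i))) ≠ T.f (E (Fin.last i)) :=
      Tri.fr_ne hx' (by omega) (by omega)
    show e (Sum.inr k') = Tri.newD ((T.split (T.f (E (Fin.last i)))
      ((T.s ^ (m + (k : ℕ))) (T.f (E (Fin.last i))))).map e)
      (((T.split (T.f (E (Fin.last i)))
      ((T.s ^ (m + (k : ℕ))) (T.f (E (Fin.last i))))).map e).f (e (Sum.inl (E (Fin.last i))))) k'
    rw [Tri.map_f, Tri.split_f_inl, Tri.newD_map, Tri.newD_split T h1]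
  · rintro e ⟨⟨T, E⟩, k⟩ hx ⟨⟨T', E'⟩, k'⟩ hx' he
    have hf : T.IsFr E y := hx.2
    have hf' : T'.IsFr E' y := hx'.2
    have hk := k.2
    have hk' := k'.2
    have he1 := (Prod.mk.inj he).1
    have he2 := (Prod.mk.inj he).2
    have hE : E = E' := by
      funext r
      exact Sum.inl_injective (e.injective (congrFun he2 r))
    subst hE
    have he3 := Tri.map_inj _ _ e he1
    have hp : T.f (E (Fin.last i)) = T'.f (E (Fin.last i)) := by
      have h1 := congrArg (fun S : Tri (Fin (6 * n) ⊕ Fin 6) => S.f (Sum.inl (E (Fin.last i)))) he3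
      exact Sum.inl_injective h1
    have h1 : (T.s ^ (m + (k : ℕ))) (T.f (E (Fin.last i))) ≠ T.f (E (Fin.last i)) :=
      Tri.fr_ne hf (by omega) (by omega)
    have h2 : (T'.s ^ (m + (k' : ℕ))) (T'.f (E (Fin.last i))) ≠ T'.f (E (Fin.last i)) :=
      Tri.fr_ne hf' (by omega) (by omega)
    have he4 : T.split (T.f (E (Fin.last i))) ((T.s ^ (m + (k : ℕ))) (T.f (E (Fin.last i)))) =
        T'.split (T'.f (E (Fin.last i))) ((T'.s ^ (m + (k' : ℕ))) (T'.f (E (Fin.last i)))) := he3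
    rw [← hp] at he4 h2
    obtain ⟨h3, h4⟩ := Tri.split_inj T T' h1 h2 he4
    subst h3
    have h5 := Tri.pow_inj_of_ne (Q := 2 * m - 1)
      (fun q hq hq' => Tri.fr_ne hf hq (by omega)) (by omega) (by omega) h4
    have h6 : k = k' := Fin.ext (by omega)
    rw [h6]
  · rintro e ⟨⟨T, E⟩, k⟩ hx
    have hf : T.IsFr E y := hx.2
    have hcg : T.Conn ∧ T.Genus n g := hx.1
    have hk := k.2
    have h1 : (T.s ^ (m + (k : ℕ))) (T.f (E (Fin.last i))) ≠ T.f (E (Fin.last i)) :=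
      Tri.fr_ne hf (by omega) (by omega)
    have h2 := Tri.co_split hf (j := m + (k : ℕ)) (by omega) (by omega)
    refine ⟨⟨(Tri.map_conn _ e).2 (T.split_conn h1 hcg.1),
      (Tri.map_genus _ e _ _).2 (T.split_genus h1 (T.tl_pow _ _) hcg.2)⟩, ?_⟩
    exact Tri.isFr_mono (Tri.map_isFr _ e _ h2.1) (by omega)
  · rintro e ⟨⟨T, E⟩, k⟩ hx
    have hf : T.IsFr E y := hx.2
    have hk := k.2
    have h2 := Tri.co_split hf (j := m + (k : ℕ)) (by omega) (by omega)
    show z ^ T.clen E ≤ z ^ ((T.split (T.f (E (Fin.last i)))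
      ((T.s ^ (m + (k : ℕ))) (T.f (E (Fin.last i))))).map e).clen (fun r => e (Sum.inl (E r)))
    rw [Tri.map_clen]
    exact pow_le_pow_right₀ hz h2.2

theorem FF_step (n g i y m : ℕ) (hm : 1 ≤ m) (hy : 2 * m ≤ y) {z : ℝ} (hz : 1 ≤ z) :
    m * FF n g i y z ≤ FF (n + 1) g i (y - 2 * m) z := by
  have h := costep_transfer n g i y m hm hy hz
  have h1 : (0 : ℝ) < (6 * n).factorial := by exact_mod_cast Nat.factorial_pos _
  have h2 : (0 : ℝ) < (6 * (n + 1)).factorial := by exact_mod_cast Nat.factorial_pos _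
  unfold FF
  rw [← mul_div_assoc, div_le_div_iff₀ h1 h2]
  exact h

end SST
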