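import Pool.Agent.SST.S.CoUni
import Pool.Agent.SST.S.CoDropW
import Pool.Agent.SST.S.CoStep
import Pool.Agent.SST.S.CoBound

/-!
# SST-S-Contour: the contour bound  (paper proof, (8.2))
`m = ⌈4 C⌉₊`, `z = 2 ^ (1 / (4 m))` (`Real.rpow`), so `z ≥ 1`, `z ^ (4 m) = 2`
(`Real.rpow_natCast`, `Real.rpow_mul`); `C1 = 12 m`, `m1 = 4 m`.
1. `co_bound` with `n0 = n`, `nu := fun n => nu n g`, `W n i = WW n g i z`, `F n i y = FF n g i y z` (`WW_zero`,
   `WW_succ`, `FF_le_WW`, `FF_step`, `nu_nonneg'`): `WW n g k z ≤ (12 m)^k * (6 n nu n g)`.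
2. `count_le`: let `R` be the set in the statement.  For `T ∈ R` there are `k = K.card ≤ N` and a contour
   sequence `E : Fin (k + 1) → _` with `B ≤ T.clen E` (`unicell_co`).  So
   `R ⊆ ⋃_{k ≤ N} R_k`, `R_k = {T ∈ Trn n g | ∃ E : Fin (k + 1) → _, T.IsCo E ∧ B ≤ T.clen E}`;
   `z^B * (R_k).ncard = wsum R_k (fun _ => z^B) ≤ wsum (CoSet n g k) (z ^ clen) = (6 n)! * WW n g k z` by the
   injection `T ↦ (T, chosen E)` (`wsum_le_of_inj`, `wsum_mul`, `wsum_one`).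
   `R.ncard ≤ ∑_{k ∈ range (N + 1)} (R_k).ncard` (`Set.ncard_le_ncard`, `Finset.set_ncard_biUnion_le` or by
   induction on `N`).
3. `∑_{k ≤ N} (12 m)^k ≤ (12 m)^(N + 1)` (`12 m ≥ 2`, induction), `z^B ≥ z^(4 m (B / (4 m))) = 2^(B / (4 m))`.
-/

namespace SST

open Classical

private theorem count_one (n g k B : ℕ) {z : ℝ} (hz : 1 ≤ z) :
    ({T : Tri (Fin (6 * n)) | T ∈ Trn n g ∧ ∃ E : Fin (k + 1) → Fin (6 * n), T.IsCo E ∧
      B ≤ T.clen E}.ncard : ℝ) * z ^ B ≤ (6 * n).factorial * WW n g k z := by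
  have hz0 : (0 : ℝ) ≤ z := by linarith
  have hf : ((6 * n).factorial : ℝ) ≠ 0 := Nat.cast_ne_zero.2 (Nat.factorial_ne_zero _)
  have e1 : ((6 * n).factorial : ℝ) * WW n g k z =
      wsum (CoSet n g k) (fun x => z ^ x.1.clen x.2) := by
    unfold WW
    field_simp
  have hnn : ∀ y ∈ CoSet n g k, 0 ≤ (fun x : Tri (Fin (6 * n)) × (Fin (k + 1) → Fin (6 * n)) =>
      z ^ x.1.clen x.2) y := fun y _ => by positivity
  rw [e1]
  rcases Set.eq_empty_or_nonempty {T : Tri (Fin (6 * n)) | T ∈ Trn n g ∧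
    ∃ E : Fin (k + 1) → Fin (6 * n), T.IsCo E ∧ B ≤ T.clen E} with he | ⟨T0, -, E0, -⟩
  · rw [he, Set.ncard_empty, Nat.cast_zero, zero_mul]
    exact wsum_nonneg hnn
  · have hne : Nonempty (Fin (k + 1) → Fin (6 * n)) := ⟨E0⟩
    have hch : ∀ T : Tri (Fin (6 * n)), (T ∈ Trn n g ∧ ∃ E : Fin (k + 1) → Fin (6 * n),
        T.IsCo E ∧ B ≤ T.clen E) → ∃ E : Fin (k + 1) → Fin (6 * n), T.IsCo E ∧ B ≤ T.clen E :=
      fun T h => h.2
    choose! E hE using hch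
    have h1 := wsum_mul {T : Tri (Fin (6 * n)) | T ∈ Trn n g ∧
      ∃ E : Fin (k + 1) → Fin (6 * n), T.IsCo E ∧ B ≤ T.clen E} (z ^ B) (fun _ => 1)
    rw [wsum_one] at h1
    rw [mul_comm, ← h1]
    refine wsum_le_of_inj (fun T => (T, E T)) ?_ ?_ ?_ hnn
    · intro T hT
      exact ⟨hT.1, (hE T hT).1⟩
    · intro T _ T' _ h
      exact (Prod.ext_iff.1 h).1
    · intro T hT
      show z ^ B * 1 ≤ z ^ T.clen (E T)
      rw [mul_one]
      exact pow_le_pow_right₀ hz (hE T hT).2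

private theorem geom_le {q : ℝ} (hq : 2 ≤ q) (M : ℕ) : ∑ k ∈ Finset.range M, q ^ k ≤ q ^ M := by
  induction M with
  | zero => simp
  | succ M ih =>
    rw [Finset.sum_range_succ, pow_succ]
    have h1 : (0 : ℝ) ≤ q ^ M := by positivity
    nlinarith

theorem count_le (n g N B : ℕ) {z : ℝ} (hz : 1 ≤ z) :
    ({T : Tri (Fin (6 * n)) | T ∈ Trn n g ∧ ∃ K : Finset (Fin (6 * n)), T.AC K ∧ K.Nonempty ∧
      T.Unicell K ∧ K.card ≤ N ∧ B < (T.DU (T.VK K)).card}.ncard : ℝ) * z ^ B ≤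
      (6 * n).factorial * ∑ k ∈ Finset.range (N + 1), WW n g k z := by
  have hzB : (0 : ℝ) ≤ z ^ B := by positivity
  have hsub : {T : Tri (Fin (6 * n)) | T ∈ Trn n g ∧ ∃ K : Finset (Fin (6 * n)), T.AC K ∧
      K.Nonempty ∧ T.Unicell K ∧ K.card ≤ N ∧ B < (T.DU (T.VK K)).card} ⊆
      ⋃ k ∈ Finset.range (N + 1), {T : Tri (Fin (6 * n)) | T ∈ Trn n g ∧
        ∃ E : Fin (k + 1) → Fin (6 * n), T.IsCo E ∧ B ≤ T.clen E} := by
    rintro T ⟨hT, K, hK, hne, hU, hN, hB⟩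
    obtain ⟨E, hE, hl⟩ := Tri.unicell_co T K hK hne hU
    rw [Set.mem_iUnion₂]
    refine ⟨K.card, Finset.mem_range.2 (by omega), hT, E, hE, ?_⟩
    rw [hl]
    exact hB.le
  have h1 : ({T : Tri (Fin (6 * n)) | T ∈ Trn n g ∧ ∃ K : Finset (Fin (6 * n)), T.AC K ∧
      K.Nonempty ∧ T.Unicell K ∧ K.card ≤ N ∧ B < (T.DU (T.VK K)).card}.ncard : ℝ) ≤
      ∑ k ∈ Finset.range (N + 1), ({T : Tri (Fin (6 * n)) | T ∈ Trn n g ∧
        ∃ E : Fin (k + 1) → Fin (6 * n), T.IsCo E ∧ B ≤ T.clen E}.ncard : ℝ) := by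
    have h2 := (Set.ncard_le_ncard hsub (Set.toFinite _)).trans
      (Finset.set_ncard_biUnion_le (Finset.range (N + 1)) _)
    exact_mod_cast h2
  refine (mul_le_mul_of_nonneg_right h1 hzB).trans ?_
  rw [Finset.sum_mul, Finset.mul_sum]
  exact Finset.sum_le_sum fun k _ => count_one n g k B hz

theorem contour_bound (C : ℝ) (hC : 1 ≤ C) : ∃ (C1 : ℝ) (m1 : ℕ), 1 ≤ C1 ∧ 1 ≤ m1 ∧
    ∀ n g N B : ℕ, 1 ≤ n → (∀ n' ≥ n, nu (n' + 1) g ≤ C * nu n' g) →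
    ({T : Tri (Fin (6 * n)) | T ∈ Trn n g ∧ ∃ K : Finset (Fin (6 * n)), T.AC K ∧ K.Nonempty ∧
      T.Unicell K ∧ K.card ≤ N ∧ B < (T.DU (T.VK K)).card}.ncard : ℝ) / (6 * n).factorial ≤
      6 * n * nu n g * C1 ^ (N + 1) * (1 / 2 : ℝ) ^ (B / m1) := by
  obtain ⟨m, hm⟩ := exists_nat_ge (4 * C)
  have hm4 : (4 : ℝ) ≤ m := by linarith
  have hm1 : 1 ≤ m := by
    have : (1 : ℝ) ≤ m := by linarith
    exact_mod_cast this
  have hm0 : (m : ℝ) ≠ 0 := by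
    have : (0 : ℝ) < m := by linarith
    exact this.ne'
  set z : ℝ := (2 : ℝ) ^ (1 / (4 * (m : ℝ))) with hzdef
  have hz : 1 ≤ z := Real.one_le_rpow (by norm_num) (by positivity)
  have hz2 : z ^ (4 * m) = 2 := by
    rw [hzdef, ← Real.rpow_natCast, ← Real.rpow_mul (by norm_num)]
    push_cast
    rw [one_div, inv_mul_cancel₀ (by positivity), Real.rpow_one]
  refine ⟨12 * m, 4 * m, by linarith, by omega, ?_⟩
  intro n g N B hn hnu
  have hW : ∀ i, WW n g i z ≤ (12 * m) ^ i * (6 * n * nu n g) := by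
    intro i
    exact co_bound hC hm hz hz2 hn (fun n => nu n g) (fun n => nu_nonneg' n g) hnu
      (fun n i => WW n g i z) (fun n i y => FF n g i y z) (fun n => (WW_zero n g z).le)
      (fun n i => WW_succ n g i hz) (fun n i y => FF_le_WW n g i y hz)
      (fun n i y hy => FF_step n g i y m hm1 hy hz) i n le_rfl
  have hnn : (0 : ℝ) ≤ 6 * n * nu n g := by
    have := nu_nonneg' n g
    positivity
  have hsum : ∑ k ∈ Finset.range (N + 1), WW n g k z ≤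
      (12 * m) ^ (N + 1) * (6 * n * nu n g) := by
    refine (Finset.sum_le_sum fun k _ => hW k).trans ?_
    rw [← Finset.sum_mul]
    exact mul_le_mul_of_nonneg_right (geom_le (by linarith) _) hnn
  have hcount := count_le n g N B hz
  have hf : (0 : ℝ) < (6 * n).factorial := by exact_mod_cast Nat.factorial_pos _
  have hzq : (2 : ℝ) ^ (B / (4 * m)) ≤ z ^ B := by
    rw [← hz2, ← pow_mul]
    exact pow_le_pow_right₀ hz (Nat.mul_div_le _ _)
  set R : ℝ := ({T : Tri (Fin (6 * n)) | T ∈ Trn n g ∧ ∃ K : Finset (Fin (6 * n)), T.AC K ∧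
    K.Nonempty ∧ T.Unicell K ∧ K.card ≤ N ∧ B < (T.DU (T.VK K)).card}.ncard : ℝ) with hR
  have hR0 : 0 ≤ R := by
    rw [hR]
    positivity
  rw [div_le_iff₀ hf]
  have h1 : R * 2 ^ (B / (4 * m)) ≤
      (6 * n).factorial * ((12 * m) ^ (N + 1) * (6 * n * nu n g)) :=
    (mul_le_mul_of_nonneg_left hzq hR0).trans
      (hcount.trans (mul_le_mul_of_nonneg_left hsum hf.le))
  have h2 : R = R * 2 ^ (B / (4 * m)) * (1 / 2 : ℝ) ^ (B / (4 * m)) := by
    rw [mul_assoc, ← mul_pow]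
    norm_num
  rw [h2]
  refine (mul_le_mul_of_nonneg_right h1 (by positivity)).trans (le_of_eq ?_)
  ring

end SST
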