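import Pool.Agent.SST.Defs

/-!
# SST-S-SNum: small numerical facts
-/

namespace SST

theorem nu_nonneg' (n g : ℕ) : 0 ≤ nu n g := by
  unfold nu
  positivity

theorem one_add_le_two_pow' (t : ℕ) : (1 + t : ℝ) ≤ 2 ^ t := by
  have h := one_add_mul_le_pow (show (-2 : ℝ) ≤ 1 by norm_num) t
  have h2 : (1 + 1 : ℝ) = 2 := by norm_num
  rw [h2] at h
  linarith

/-- Growth of `nu` along a chain. -/
theorem growth_iter {C : ℝ} (hC : 1 ≤ C) {n : ℕ} (nu : ℕ → ℝ) (h : ∀ n' ≥ n, nu (n' + 1) ≤ C * nu n')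
    (t : ℕ) : nu (n + t) ≤ C ^ t * nu n := by
  induction t with
  | zero => simp
  | succ t ih =>
    have h1 := h (n + t) (by omega)
    have h2 : C * nu (n + t) ≤ C * (C ^ t * nu n) :=
      mul_le_mul_of_nonneg_left ih (by linarith)
    have h3 : C ^ (t + 1) * nu n = C * (C ^ t * nu n) := by ring
    rw [← add_assoc, h3]
    exact h1.trans h2

/-- `(n + t) C^t ≤ n m^t 2^(-t)` for `m ≥ 4 C`, `n ≥ 1`. -/
theorem growth_num {C : ℝ} (hC : 1 ≤ C) {m : ℕ} (hm : 4 * C ≤ m) {n : ℕ} (hn : 1 ≤ n) (t : ℕ) :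
    ((n + t : ℕ) : ℝ) * C ^ t ≤ n * ((m : ℝ) ^ t * (1 / 2) ^ t) := by
  have h1 : ((n + t : ℕ) : ℝ) ≤ n * 2 ^ t := by
    have h2 := one_add_le_two_pow' t
    have h3 : (1 : ℝ) ≤ n := by exact_mod_cast hn
    have h4 : (n : ℝ) * (1 + t) ≤ n * 2 ^ t := mul_le_mul_of_nonneg_left h2 (by linarith)
    have h5 : (0 : ℝ) ≤ t := Nat.cast_nonneg t
    push_cast
    nlinarith
  have h6 : (2 : ℝ) ^ t * C ^ t ≤ (m : ℝ) ^ t * (1 / 2) ^ t := by
    rw [← mul_pow, ← mul_pow]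
    apply pow_le_pow_left₀ (by positivity)
    linarith
  have h7 : (0 : ℝ) ≤ C ^ t := by positivity
  calc ((n + t : ℕ) : ℝ) * C ^ t ≤ (n * 2 ^ t) * C ^ t := mul_le_mul_of_nonneg_right h1 h7
    _ = n * (2 ^ t * C ^ t) := by ring
    _ ≤ _ := mul_le_mul_of_nonneg_left h6 (Nat.cast_nonneg n)

end SST
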