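import Pool.Agent.SST.S.TailStep
import Pool.Agent.SST.S.SNum

/-!
# SST-S-Tail: the number of darts at vertices of large degree  (paper proof, (8.1))
Let `m = ⌈4 C⌉₊` (so `4 C ≤ m`, `m ≥ 1`), `m0 = 2 m`, `a n D = (TailSet n g D).ncard / (6 n)!`,
`t = (D - 1) / (2 m)` (natural division), so `2 m t ≤ D`.
1. `m * a n D ≤ a (n + 1) (D - 2 m)` if `2 m ≤ D` (`tail_step`, divide by the factorials).
2. By induction on `t`: `m ^ t * a n D ≤ a (n + t) (D - 2 m t)` for `2 m t ≤ D` (all `n`).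
3. `a n' D' ≤ a n' 0 ≤ 6 n' * nu n' g`: `TailSet n' g D' ⊆ Trn n' g ×ˢ univ` (`Set.ncard_prod`).
4. `nu (n + t) g ≤ C ^ t * nu n g` (`growth_iter` with `nu := fun n => nu n g`), and
   `(n + t) C^t ≤ n m^t (1/2)^t` (`growth_num`): `m^t a n D ≤ 6 (n + t) C^t nu n g ≤ m^t 6 n nu n g (1/2)^t`.
   Cancel `m^t > 0`.
-/

namespace SST

open Classical

private noncomputable def aT (n g D : ℕ) : ℝ := ((TailSet n g D).ncard : ℝ) / (6 * n).factorial

private theorem aT_step {m : ℕ} (hm : 1 ≤ m) (n g D : ℕ) (hD : 2 * m ≤ D) :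
    (m : ℝ) * aT n g D ≤ aT (n + 1) g (D - 2 * m) := by
  unfold aT
  have h1 : (0 : ℝ) < ((6 * n).factorial : ℝ) := by exact_mod_cast Nat.factorial_pos _
  have h2 : (0 : ℝ) < ((6 * (n + 1)).factorial : ℝ) := by exact_mod_cast Nat.factorial_pos _
  have h3 : (m : ℝ) * ((TailSet n g D).ncard : ℝ) * ((6 * (n + 1)).factorial : ℝ) ≤
      ((TailSet (n + 1) g (D - 2 * m)).ncard : ℝ) * ((6 * n).factorial : ℝ) := by
    exact_mod_cast tail_step hm n g D hD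
  rw [← mul_div_assoc, div_le_div_iff₀ h1 h2]
  exact h3

private theorem aT_iter {m : ℕ} (hm : 1 ≤ m) (g t : ℕ) : ∀ n D : ℕ, 2 * m * t ≤ D →
    (m : ℝ) ^ t * aT n g D ≤ aT (n + t) g (D - 2 * m * t) := by
  induction t with
  | zero => intro n D _; simp
  | succ t ih =>
    intro n D hD
    have e1 : 2 * m * (t + 1) = 2 * m * t + 2 * m := by ring
    have h1 : 2 * m ≤ D := by
      rw [e1] at hD
      omega
    have h2 := aT_step hm n g D h1
    have h3 := ih (n + 1) (D - 2 * m) (by rw [e1] at hD; omega)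
    have e2 : n + 1 + t = n + (t + 1) := by omega
    have e3 : D - 2 * m - 2 * m * t = D - 2 * m * (t + 1) := by
      rw [e1]
      omega
    rw [e2, e3] at h3
    have h4 : (m : ℝ) ^ t * ((m : ℝ) * aT n g D) ≤ (m : ℝ) ^ t * aT (n + 1) g (D - 2 * m) :=
      mul_le_mul_of_nonneg_left h2 (by positivity)
    calc (m : ℝ) ^ (t + 1) * aT n g D = (m : ℝ) ^ t * ((m : ℝ) * aT n g D) := by ring
      _ ≤ (m : ℝ) ^ t * aT (n + 1) g (D - 2 * m) := h4
      _ ≤ _ := h3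

private theorem tailSet_card (n g D : ℕ) :
    (TailSet n g D).ncard ≤ (Trn n g).ncard * (6 * n) := by
  have h1 : TailSet n g D ⊆ Trn n g ×ˢ (Set.univ : Set (Fin (6 * n))) := by
    intro x hx
    exact ⟨hx.1, Set.mem_univ _⟩
  have h2 := Set.ncard_le_ncard h1 (Set.toFinite _)
  rw [Set.ncard_prod, Set.ncard_univ, Nat.card_eq_fintype_card, Fintype.card_fin] at h2
  exact h2

private theorem aT_le (n g D : ℕ) : aT n g D ≤ 6 * n * nu n g := by
  unfold aT nu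
  have h1 : (0 : ℝ) < ((6 * n).factorial : ℝ) := by exact_mod_cast Nat.factorial_pos _
  have h2 : ((TailSet n g D).ncard : ℝ) ≤ ((Trn n g).ncard : ℝ) * (6 * n) := by
    exact_mod_cast tailSet_card n g D
  calc ((TailSet n g D).ncard : ℝ) / ((6 * n).factorial : ℝ)
      ≤ (((Trn n g).ncard : ℝ) * (6 * n)) / ((6 * n).factorial : ℝ) :=
        div_le_div_of_nonneg_right h2 h1.le
    _ = _ := by ring

theorem tail_bound (C : ℝ) (hC : 1 ≤ C) : ∃ m0 : ℕ, 1 ≤ m0 ∧ ∀ n g D : ℕ, 1 ≤ n →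
    (∀ n' ≥ n, nu (n' + 1) g ≤ C * nu n' g) →
    ({x : Tri (Fin (6 * n)) × Fin (6 * n) | x.1 ∈ Trn n g ∧ D ≤ x.1.deg x.2}.ncard : ℝ) /
      (6 * n).factorial ≤ 6 * n * nu n g * (1 / 2 : ℝ) ^ ((D - 1) / m0) := by
  obtain ⟨m, hm⟩ : ∃ m : ℕ, 4 * C ≤ (m : ℝ) := ⟨⌈4 * C⌉₊, Nat.le_ceil _⟩
  have hm1 : 1 ≤ m := by
    have h1 : (1 : ℝ) ≤ (m : ℝ) := by linarith
    exact_mod_cast h1
  refine ⟨2 * m, by omega, ?_⟩
  intro n g D hn hnu
  obtain ⟨t, ht⟩ : ∃ t : ℕ, t = (D - 1) / (2 * m) := ⟨_, rfl⟩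
  rw [← ht]
  have hD : 2 * m * t ≤ D := by
    rw [ht]
    have h1 := Nat.mul_div_le (D - 1) (2 * m)
    omega
  have h1 := aT_iter hm1 g t n D hD
  have h2 := aT_le (n + t) g (D - 2 * m * t)
  have h3 := growth_iter hC (fun k => nu k g) hnu t
  have h4 := growth_num hC hm hn t
  have h5 := nu_nonneg' n g
  have hmt : (0 : ℝ) < (m : ℝ) ^ t := by
    have h6 : (0 : ℝ) < (m : ℝ) := by exact_mod_cast hm1
    positivity
  have h7 : (m : ℝ) ^ t * aT n g D ≤ (m : ℝ) ^ t * (6 * n * nu n g * (1 / 2 : ℝ) ^ t) := by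
    calc (m : ℝ) ^ t * aT n g D ≤ 6 * ((n + t : ℕ) : ℝ) * nu (n + t) g := h1.trans h2
      _ ≤ 6 * ((n + t : ℕ) : ℝ) * (C ^ t * nu n g) :=
        mul_le_mul_of_nonneg_left h3 (by positivity)
      _ = 6 * nu n g * (((n + t : ℕ) : ℝ) * C ^ t) := by ring
      _ ≤ 6 * nu n g * (n * ((m : ℝ) ^ t * (1 / 2) ^ t)) :=
        mul_le_mul_of_nonneg_left h4 (by positivity)
      _ = _ := by ring
  exact le_of_mul_le_mul_left h7 hmt

end SST
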