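import Pool.Agent.SST.S.SC

/-!
# SST-S-Cut: cutting along a 2-cycle  (paper proof, (8.3), CUT)
For `(T, [p, q]) ∈ SC n (g+1) 2 Δ`: `hd p = tl q`, `hd q = tl p` (closed), `tl p ≠ tl q` (simple),
`q ≠ a p` (otherwise null-homologous, `nullHom_spur`), `q ≠ p`.  `T' := T.rew p q ∈ Trn n g`:
`rew_conn`, `card_V_cut`: `card V' + 2 g = card V + 2 + 2 g = n + 2`.  The map
`(T, [p, q]) ↦ (T', p, T.a p)` into `Trn n g × Fin (6n) × Fin (6n)` is injective: `rew_undo` gives
`T = T'.rew p (T.a p)`, and `q = T'.a p`.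
-/

namespace SST

open Classical

theorem sc_two (n g Δ : ℕ) :
    (SC n (g + 1) 2 Δ).ncard ≤ (6 * n) ^ 2 * (Trn n g).ncard := by
  have hsub : SC n (g + 1) 2 Δ ⊆
      (fun x : Tri (Fin (6 * n)) × (Fin (6 * n) × Fin (6 * n)) =>
        ((x.1.rew x.2.1 x.2.2, [x.2.1, x.1.a x.2.1]) : Tri (Fin (6 * n)) × List (Fin (6 * n)))) ''
        (Trn n g ×ˢ (Set.univ : Set (Fin (6 * n) × Fin (6 * n)))) := by
    rintro ⟨T, c⟩ ⟨hT, _, hl, hc, hs, hn⟩
    obtain ⟨p, q, rfl⟩ := List.length_eq_two.mp hl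
    have hw : T.IsWalk (T.tl p) [p, q] (T.tl p) := (T.closed_iff p [q]).mp hc
    have hw1 : T.tl q = T.hd p := hw.2.1
    have hw2 : T.hd q = T.tl p := hw.2.2
    have hs' : T.tl p ≠ T.tl q := by
      have h1 : ([p, q].map T.tl).Nodup := hs
      simp only [List.map_cons, List.map_nil, List.nodup_cons, List.mem_singleton] at h1
      exact h1.1
    have h1 : q ≠ p := fun h => hs' (by rw [h])
    have h2 : q ≠ T.a p := by
      intro h
      apply hn
      show T.NullHom [p, q]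
      rw [h]
      exact T.nullHom_spur p
    have hg : Nat.card T.V + 2 * (g + 1) = n + 2 := hT.2
    refine ⟨(T.rew p q, (p, T.a p)), ⟨⟨T.rew_conn hT.1 h1 h2 hn, ?_⟩, Set.mem_univ _⟩, ?_⟩
    · show Nat.card (T.rew p q).V + 2 * g = n + 2
      rw [T.card_V_cut h2 hw2.symm hw1.symm (by rw [← hw1]; exact hs')]
      omega
    · show ((T.rew p q).rew p (T.a p), [p, (T.rew p q).a p]) = (T, [p, q])
      rw [T.rew_undo h1 h2]
      have h3 : (T.rew p q).a p = q := rwP_p T.aa T.ane h1 h2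
      rw [h3]
  have hfin : (Trn n g ×ˢ (Set.univ : Set (Fin (6 * n) × Fin (6 * n)))).Finite := Set.toFinite _
  calc (SC n (g + 1) 2 Δ).ncard ≤ _ := Set.ncard_le_ncard hsub (hfin.image _)
    _ ≤ (Trn n g ×ˢ (Set.univ : Set (Fin (6 * n) × Fin (6 * n)))).ncard :=
      Set.ncard_image_le hfin
    _ = (6 * n) ^ 2 * (Trn n g).ncard := by
      rw [Set.ncard_prod, Set.ncard_univ, Nat.card_prod, Nat.card_fin, mul_comm, pow_two]

end SST
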