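import Pool.Agent.SST.S.SC

/-!
# SST-S-Decomp: bad vertices are near simple non-null-homologous cycles  (paper proof, (8.3))
* `exists_simple`: a closed walk `c` which is not null-homologous has a closed simple sub-walk `c'`
  (non-empty, length at most that of `c`) which is not null-homologous and all whose darts are darts
  of `c`.  Strong induction on the length: `c ≠ []`.  If `c` is simple take `c' = c`.  Otherwise
  `c = l₁ ++ l₂ ++ l₃` with `l₂ ≠ []`, `l₁ ++ l₃ ≠ []`, where the first darts of `l₂` and of `l₃`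
  (cyclically: of `l₃ ++ l₁`) have the same tail: `l₂` and `l₁ ++ l₃` are closed walks, shorter than
  `c`, `chain c = chain l₂ + chain (l₁ ++ l₃)`, so one of them is not null-homologous
  (`nullHom_add`).  (From `¬ Nodup (c.map tl)`: `List.duplicate`/positions `i < j` with equal tails:
  `l₁ = take i`, `l₂ =` darts `i … j-1`, `l₃ = drop j`.)
* `ball_card`: the number of vertices joined to a vertex `u` by a walk of length at most `k` is at most
  `(Δ + 1) ^ k` (induction: such a vertex is `u` or the head of a dart leaving a vertex at distance at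
  most `k - 1`: `N_k ≤ N_{k-1} + Δ N_{k-1}`).
* `badV_card`: for `v ∈ BadV`: `c` closed of length at most 8, `d ∈ c`, `tl d = v`; `c'` from
  `exists_simple`, its first dart `e ∈ c`; there is a walk from `tl e` to `v` of length at most 8
  (part of `c` after rotation).  So `v` is in the ball of radius 8 around `tl e`.
-/

namespace SST
namespace Tri

open Classical

private lemma dup_split {α β : Type} (f : α → β) : ∀ l : List α, ¬ (l.map f).Nodup →
    ∃ (l₁ : List α) (d : α) (l₂ : List α) (e : α) (l₃ : List α),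
      l = l₁ ++ ((d :: l₂) ++ (e :: l₃)) ∧ f d = f e := by
  intro l
  induction l with
  | nil =>
    intro h
    exact absurd (by simp) h
  | cons a l ih =>
    intro h
    by_cases ha : f a ∈ l.map f
    · obtain ⟨e, he, hfe⟩ := List.mem_map.1 ha
      obtain ⟨s, t, hst⟩ := List.append_of_mem he
      exact ⟨[], a, s, e, t, by rw [hst]; simp, hfe.symm⟩
    · have h2 : ¬ (l.map f).Nodup := by
        intro h3
        apply h
        rw [List.map_cons, List.nodup_cons]
        exact ⟨ha, h3⟩
      obtain ⟨l₁, d, l₂, e, l₃, hl, hf⟩ := ih h2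
      exact ⟨a :: l₁, d, l₂, e, l₃, by rw [hl]; simp, hf⟩

theorem exists_simple {D : Type} (T : Tri D) {c : List D} (hc : T.Closed c) (h : ¬ T.NullHom c) :
    ∃ c' : List D, c' ≠ [] ∧ T.Closed c' ∧ T.Simple c' ∧ ¬ T.NullHom c' ∧ c'.length ≤ c.length ∧
      ∀ d ∈ c', d ∈ c := by
  have key : ∀ (m : ℕ) (c : List D), c.length ≤ m → T.Closed c → ¬ T.NullHom c →
      ∃ c' : List D, c' ≠ [] ∧ T.Closed c' ∧ T.Simple c' ∧ ¬ T.NullHom c' ∧
        c'.length ≤ c.length ∧ ∀ d ∈ c', d ∈ c := by
    intro m
    induction m with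
    | zero =>
      intro c hm _ hn
      exfalso
      apply hn
      have : c = [] := List.length_eq_zero_iff.1 (Nat.le_zero.1 hm)
      rw [this]
      exact nullHom_nil T
    | succ m ih =>
      intro c hm hcl hn
      by_cases hs : T.Simple c
      · refine ⟨c, ?_, hcl, hs, hn, le_rfl, fun d hd => hd⟩
        rintro rfl
        exact hn (nullHom_nil T)
      · obtain ⟨l₁, d, l₂, e, l₃, hl, hde⟩ := dup_split T.tl c hs
        obtain ⟨v, hv⟩ := hcl
        rw [hl] at hv
        obtain ⟨u1, h1, h2⟩ := walk_split T hv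
        obtain ⟨u2, h3, h4⟩ := walk_split T h2
        have e1 : T.tl d = u1 := h3.1
        have e2 : T.tl e = u2 := h4.1
        have e3 : u2 = u1 := by rw [← e1, ← e2, hde]
        rw [e3] at h3 h4
        have hc1 : T.Closed (d :: l₂) := ⟨u1, h3⟩
        have hc2 : T.Closed (l₁ ++ (e :: l₃)) := ⟨v, walk_append T h1 h4⟩
        have hlen : c.length = l₁.length + ((l₂.length + 1) + (l₃.length + 1)) := by
          rw [hl]; simp; omega
        have hch : ∀ x, T.chain c x = T.chain (d :: l₂) x + T.chain (l₁ ++ (e :: l₃)) x := by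
          intro x
          rw [hl, chain_append, chain_append, chain_append]
          ring
        by_cases hn1 : T.NullHom (d :: l₂)
        · by_cases hn2 : T.NullHom (l₁ ++ (e :: l₃))
          · exact absurd (nullHom_add T hch hn1 hn2) hn
          · have hlen2 : (l₁ ++ (e :: l₃)).length = l₁.length + (l₃.length + 1) := by simp
            obtain ⟨c', a1, a2, a3, a4, a5, a6⟩ := ih (l₁ ++ (e :: l₃)) (by omega) hc2 hn2
            refine ⟨c', a1, a2, a3, a4, by omega, fun x hx => ?_⟩
            have := a6 x hx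
            rw [hl]
            simp only [List.mem_append, List.mem_cons] at this ⊢
            tauto
        · have hlen2 : (d :: l₂).length = l₂.length + 1 := by simp
          obtain ⟨c', a1, a2, a3, a4, a5, a6⟩ := ih (d :: l₂) (by omega) hc1 hn1
          refine ⟨c', a1, a2, a3, a4, by omega, fun x hx => ?_⟩
          have := a6 x hx
          rw [hl]
          simp only [List.mem_append, List.mem_cons] at this ⊢
          tauto
  exact key c.length c le_rfl hc h

private lemma finV {D : Type} [Finite D] (T : Tri D) : Finite T.V :=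
  Quotient.finite _

theorem ball_card {D : Type} [Finite D] (T : Tri D) {Δ : ℕ} (hΔ : ∀ d, T.deg d ≤ Δ) (u : T.V) (k : ℕ) :
    {v : T.V | ∃ l : List D, T.IsWalk u l v ∧ l.length ≤ k}.ncard ≤ (Δ + 1) ^ k := by
  have hfV := finV T
  induction k generalizing u with
  | zero =>
    have hs : {v : T.V | ∃ l : List D, T.IsWalk u l v ∧ l.length ≤ 0} ⊆ {u} := by
      rintro v ⟨l, hl, hl0⟩
      have : l = [] := List.length_eq_zero_iff.1 (Nat.le_zero.1 hl0)
      rw [this] at hl
      have e : u = v := hl
      exact e.symm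
    have := Set.ncard_le_ncard hs (Set.finite_singleton u)
    rw [Set.ncard_singleton] at this
    simpa using this
  | succ k ih =>
    obtain ⟨d0, hd0⟩ : ∃ d0 : D, T.tl d0 = u := Quotient.exists_rep u
    set E : Finset D := (Set.toFinite {e : D | T.tl e = T.tl d0}).toFinset with hE
    have hEc : E.card ≤ Δ := by
      have h1 : {e : D | T.tl e = T.tl d0}.ncard = E.card :=
        Set.ncard_eq_toFinset_card _ (Set.toFinite _)
      rw [← h1]
      exact hΔ d0
    set F : Finset T.V := insert u (E.biUnion (fun d =>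
      (Set.toFinite {v : T.V | ∃ l : List D, T.IsWalk (T.hd d) l v ∧ l.length ≤ k}).toFinset))
      with hF
    have hs : {v : T.V | ∃ l : List D, T.IsWalk u l v ∧ l.length ≤ k + 1} ⊆ (F : Set T.V) := by
      rintro v ⟨l, hl, hl0⟩
      rw [Finset.mem_coe, hF, Finset.mem_insert]
      cases l with
      | nil =>
        left
        have e : u = v := hl
        exact e.symm
      | cons d l =>
        right
        rw [Finset.mem_biUnion]
        refine ⟨d, ?_, ?_⟩
        · rw [hE, Set.Finite.mem_toFinset]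
          show T.tl d = T.tl d0
          rw [hd0]
          exact hl.1
        · rw [Set.Finite.mem_toFinset]
          refine ⟨l, hl.2, ?_⟩
          rw [List.length_cons] at hl0
          omega
    have h2 := Set.ncard_le_ncard hs (Finset.finite_toSet F)
    rw [Set.ncard_coe_finset] at h2
    refine h2.trans ?_
    have h3 : (E.biUnion (fun d =>
      (Set.toFinite {v : T.V | ∃ l : List D, T.IsWalk (T.hd d) l v ∧
        l.length ≤ k}).toFinset)).card ≤ E.card * (Δ + 1) ^ k := by
      refine Finset.card_biUnion_le_card_mul _ _ _ (fun d _ => ?_)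
      rw [← Set.ncard_eq_toFinset_card]
      exact ih (T.hd d)
    have h4 : F.card ≤ (E.biUnion (fun d =>
      (Set.toFinite {v : T.V | ∃ l : List D, T.IsWalk (T.hd d) l v ∧
        l.length ≤ k}).toFinset)).card + 1 := Finset.card_insert_le _ _
    have h5 : E.card * (Δ + 1) ^ k ≤ Δ * (Δ + 1) ^ k := Nat.mul_le_mul_right _ hEc
    have h6 : 1 ≤ (Δ + 1) ^ k := Nat.one_le_pow _ _ (Nat.succ_pos _)
    calc F.card ≤ Δ * (Δ + 1) ^ k + 1 := by omega
      _ ≤ Δ * (Δ + 1) ^ k + (Δ + 1) ^ k := by omega
      _ = (Δ + 1) ^ (k + 1) := by ring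

private lemma bad_near {D : Type} (T : Tri D) {v : T.V} (hv : v ∈ T.BadV) :
    ∃ (e : D) (c : List D), T.Closed (e :: c) ∧ T.Simple (e :: c) ∧ ¬ T.NullHom (e :: c) ∧
      (e :: c).length ≤ 8 ∧ ∃ l : List D, T.IsWalk (T.tl e) l v ∧ l.length ≤ 8 := by
  obtain ⟨c, hc, hlen, hn, d, hd, rfl⟩ := hv
  obtain ⟨c', h1, h2, h3, h4, h5, h6⟩ := exists_simple T hc hn
  cases c' with
  | nil => exact absurd rfl h1
  | cons e c' =>
    refine ⟨e, c', h2, h3, h4, by omega, ?_⟩
    have he : e ∈ c := h6 e (by simp)
    obtain ⟨s, t, hst⟩ := List.append_of_mem he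
    rw [hst] at hc
    have hr := closed_rotate T hc
    rw [List.cons_append] at hr
    have hw := (closed_iff T e (t ++ s)).1 hr
    have hd2 : d ∈ e :: (t ++ s) := by
      rw [hst] at hd
      simp only [List.mem_append, List.mem_cons] at hd ⊢
      tauto
    obtain ⟨p, q, hpq⟩ := List.append_of_mem hd2
    have hl2 : (e :: (t ++ s)).length = c.length := by
      rw [hst]; simp; omega
    rw [hpq] at hw hl2
    obtain ⟨w, w1, w2⟩ := walk_split T hw
    have hw' : T.tl d = w := w2.1
    rw [← hw'] at w1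
    refine ⟨p, w1, ?_⟩
    rw [List.length_append] at hl2
    omega

theorem badV_card {D : Type} [Finite D] (T : Tri D) {Δ : ℕ} (hΔ : ∀ d, T.deg d ≤ Δ) :
    T.BadV.ncard ≤ (Δ + 1) ^ 8 * ∑ ℓ ∈ Finset.Icc 1 8,
      {c : List D | c.length = ℓ ∧ T.Closed c ∧ T.Simple c ∧ ¬ T.NullHom c}.ncard := by
  have hfV := finV T
  have hCfin : ∀ ℓ : ℕ, {c : List D | c.length = ℓ ∧ T.Closed c ∧ T.Simple c ∧
      ¬ T.NullHom c}.Finite := fun ℓ => (List.finite_length_eq D ℓ).subset (fun c hc => hc.1)
  have hB : ∀ c : List D, {v : T.V | ∃ e l, c = e :: l ∧ ∃ l' : List D,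
      T.IsWalk (T.tl e) l' v ∧ l'.length ≤ 8}.ncard ≤ (Δ + 1) ^ 8 := by
    intro c
    cases c with
    | nil =>
      have : {v : T.V | ∃ e l, ([] : List D) = e :: l ∧ ∃ l' : List D,
        T.IsWalk (T.tl e) l' v ∧ l'.length ≤ 8} = ∅ := by
        ext v
        simp
      rw [this, Set.ncard_empty]
      exact Nat.zero_le _
    | cons e l =>
      refine le_trans (Set.ncard_le_ncard ?_ (Set.toFinite _)) (ball_card T hΔ (T.tl e) 8)
      rintro v ⟨e', l', hel, l'', h1, h2⟩
      obtain ⟨rfl, rfl⟩ := List.cons.inj hel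
      exact ⟨l'', h1, h2⟩
  set G : Finset T.V := (Finset.Icc 1 8).biUnion (fun ℓ => (hCfin ℓ).toFinset.biUnion (fun c =>
    (Set.toFinite {v : T.V | ∃ e l, c = e :: l ∧ ∃ l' : List D,
      T.IsWalk (T.tl e) l' v ∧ l'.length ≤ 8}).toFinset)) with hG
  have hs : T.BadV ⊆ (G : Set T.V) := by
    intro v hv
    obtain ⟨e, c, h1, h2, h3, h4, l, h5, h6⟩ := bad_near T hv
    rw [Finset.mem_coe, hG, Finset.mem_biUnion]
    refine ⟨(e :: c).length, ?_, ?_⟩
    · rw [Finset.mem_Icc]
      refine ⟨?_, h4⟩
      rw [List.length_cons]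
      omega
    · rw [Finset.mem_biUnion]
      refine ⟨e :: c, ?_, ?_⟩
      · rw [Set.Finite.mem_toFinset]
        exact ⟨rfl, h1, h2, h3⟩
      · rw [Set.Finite.mem_toFinset]
        exact ⟨e, c, rfl, l, h5, h6⟩
  have h2 := Set.ncard_le_ncard hs (Finset.finite_toSet G)
  rw [Set.ncard_coe_finset] at h2
  refine h2.trans ?_
  rw [hG, Finset.mul_sum]
  refine Finset.card_biUnion_le.trans (Finset.sum_le_sum (fun ℓ _ => ?_))
  rw [mul_comm, Set.ncard_eq_toFinset_card _ (hCfin ℓ)]
  refine Finset.card_biUnion_le_card_mul _ _ _ (fun c _ => ?_)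
  rw [← Set.ncard_eq_toFinset_card]
  exact hB c

end Tri
end SST
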