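import Pool.Agent.SST.S.SC

/-!
# SST-S-Slit: shortening a cycle by a slit  (paper proof, (8.3), SLIT)
Let `(T, p :: q :: l) ∈ SC n g (ℓ + 2) Δ`, `ℓ ≥ 1`, `l = d₃ :: …`.  Vertices: `v₀ = tl p`,
`v₁ = hd p = tl q`, `v₂ = hd q = tl d₃`; `v₀, v₁, v₂` and the tails of `l` are pairwise distinct
(`Simple`; `v₂ = tl d₃`), and the last dart of `l` has head `v₀`.
`q ≠ p`, `q ≠ a p` (else `v₂ = v₀`).  The darts of `l` are none of `p, q, a p, a q`: tails;
`a p ∈ l` has tail `v₁ = tl q`, contradiction; `a q ∈ l` has tail `v₂`, so it is `d₃`, and then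
`hd d₃ = tl q = v₁` is `v₀` (if `ℓ = 1`) or the tail of the next dart: contradiction.
`T' := T.rew p q`: in `Trn n g` (`card_V_slit`; `rew_conn`: `[p, q]` is not null-homologous by
`nullHom_closed`, `v₀ ≠ v₂`); degrees at most `2Δ` (`deg_slit_le`); `l` is closed in `T'`
(`T'.a e = T.a e` for `e ∈ l`; equal vertices of `T` other than `v₁` are equal in `T'`, and `v₀`, `v₂`
are merged: `rew_tl_eq`, `rew_slit_merged`), simple, not null-homologous (`slit_hom`).
Reconstruction: `d₃` = first element of `l`; in `T'` `p` and `T.a q` have the same tail as `d₃`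
(`rew_slit_merged`), so `p = s'^i d₃`, `T.a q = s'^j d₃` with `i, j < T'.deg d₃ ≤ 2Δ`
(`Equiv.Perm.SameCycle.exists_pow_eq'`-like lemma; `deg` = size of the cycle); then
`T.a p = T'.a (T.a q)`, `T = T'.rew p (T.a p)` (`rew_undo`), `q = T'.a p`.  So
`(T, p :: q :: l) ↦ (T', l, i, j)` is injective.
(`Δ = 0` is impossible for a non-empty set, degrees are at least 1.)
-/

namespace SST

open Classical

section aux

variable {D : Type}

private theorem exists_pow_lt [Finite D] (T : Tri D) {x y : D} (h : T.tl y = T.tl x) :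
    ∃ i < T.deg x, (T.s ^ i) x = y := by
  have hft : Fintype D := Fintype.ofFinite D
  have hS : T.s.IsCycleOn ((Finset.univ.filter (fun e => T.tl e = T.tl x) : Finset D) : Set D) := by
    refine ⟨⟨?_, T.s.injective.injOn, ?_⟩, ?_⟩
    · intro e he
      rw [Finset.mem_coe, Finset.mem_filter] at he ⊢
      exact ⟨Finset.mem_univ _, by rw [Tri.tl_s]; exact he.2⟩
    · intro e he
      rw [Finset.mem_coe, Finset.mem_filter] at he
      refine ⟨T.s.symm e, ?_, T.s.apply_symm_apply e⟩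
      rw [Finset.mem_coe, Finset.mem_filter]
      refine ⟨Finset.mem_univ _, ?_⟩
      rw [← Tri.tl_s, T.s.apply_symm_apply]
      exact he.2
    · intro a ha b hb
      rw [Finset.mem_coe, Finset.mem_filter] at ha hb
      rw [← Tri.tl_eq_iff, ha.2, hb.2]
  obtain ⟨i, hi, h1⟩ := hS.exists_pow_eq (a := x) (b := y)
    (Finset.mem_filter.2 ⟨Finset.mem_univ _, rfl⟩) (Finset.mem_filter.2 ⟨Finset.mem_univ _, h⟩)
  refine ⟨i, ?_, h1⟩
  have h2 : T.deg x = (Finset.univ.filter (fun e => T.tl e = T.tl x)).card := by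
    unfold Tri.deg
    rw [← Set.ncard_coe_finset]
    congr 1
    ext e
    simp
  rw [h2]
  exact hi

/-- transfer of equality of vertices -/
private theorem tl_transfer [Finite D] (T : Tri D) {p q x y : D} (h1 : T.hd p = T.tl q)
    (h2 : T.tl p ≠ T.hd q) (h3 : T.hd p ≠ T.tl p) (h4 : T.hd p ≠ T.hd q)
    (hx : T.tl x ≠ T.hd p) (hxy : T.tl x = T.tl y) : (T.rew p q).tl x = (T.rew p q).tl y := by
  by_cases hx' : T.tl x = T.tl p ∨ T.tl x = T.hd q
  · rw [Tri.rew_slit_merged T h1 h2 h3 h4 hx', ← hxy]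
    exact hx'
  · rw [not_or] at hx'
    rw [Tri.rew_tl_eq T hx'.1 hx (by rw [← h1]; exact hx) hx'.2]
    exact hxy

private theorem a_transfer (T : Tri D) {p q e : D} (h1 : e ≠ p) (h2 : e ≠ q) (h3 : e ≠ T.a p)
    (h4 : e ≠ T.a q) : (T.rew p q).a e = T.a e := rwP_ne T.aa h1 h2 h3 h4

private theorem walk_transfer [Finite D] (T : Tri D) {p q y : D} (h1 : T.hd p = T.tl q)
    (h2 : T.tl p ≠ T.hd q) (h3 : T.hd p ≠ T.tl p) (h4 : T.hd p ≠ T.hd q) (hy : T.tl y ≠ T.hd p)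
    (m : List D) : ∀ x : D, (∀ e ∈ m, e ≠ p ∧ e ≠ q ∧ e ≠ T.a p ∧ e ≠ T.a q ∧ T.tl e ≠ T.hd p) →
      T.IsWalk (T.tl x) m (T.tl y) →
      (T.rew p q).IsWalk ((T.rew p q).tl x) m ((T.rew p q).tl y) := by
  induction m with
  | nil =>
    intro x _ hw
    have hw' : T.tl x = T.tl y := hw
    show (T.rew p q).tl x = (T.rew p q).tl y
    exact (tl_transfer T h1 h2 h3 h4 hy hw'.symm).symm
  | cons e m ih =>
    intro x hm hw
    obtain ⟨hw1, hw2⟩ := hw
    obtain ⟨e1, e2, e3, e4, e5⟩ := hm e List.mem_cons_self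
    refine ⟨tl_transfer T h1 h2 h3 h4 e5 hw1, ?_⟩
    have h5 := ih (T.a e) (fun e' he' => hm e' (List.mem_cons_of_mem _ he')) hw2
    have h6 : (T.rew p q).hd e = (T.rew p q).tl (T.a e) := by
      show (T.rew p q).tl ((T.rew p q).a e) = (T.rew p q).tl (T.a e)
      rw [a_transfer T e1 e2 e3 e4]
    rw [h6]
    exact h5

/-- reconstruction -/
private noncomputable def recon (x : (Tri D × List D) × (ℕ × ℕ)) : Tri D × List D :=
  match x.1.2 with
  | [] => (x.1.1, [])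
  | d :: m => (x.1.1.rew ((x.1.1.s ^ x.2.1) d) (x.1.1.a ((x.1.1.s ^ x.2.2) d)),
      ((x.1.1.s ^ x.2.1) d) :: (x.1.1.a ((x.1.1.s ^ x.2.1) d)) :: d :: m)

/-- the facts on the first two darts of a simple closed walk -/
private theorem slit_facts (T : Tri D) {p q d : D} {m : List D}
    (hc : T.Closed (p :: q :: d :: m)) (hs : T.Simple (p :: q :: d :: m)) :
    T.hd p = T.tl q ∧ T.tl p ≠ T.hd q ∧ T.hd p ≠ T.tl p ∧ T.hd p ≠ T.hd q ∧ q ≠ p ∧ q ≠ T.a p ∧
      T.tl d = T.hd q ∧ T.IsWalk (T.tl d) (d :: m) (T.tl p) ∧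
      (∀ e ∈ d :: m, e ≠ p ∧ e ≠ q ∧ e ≠ T.a p ∧ e ≠ T.a q ∧ T.tl e ≠ T.hd p ∧ T.tl e ≠ T.tl p) := by
  rw [Tri.closed_iff] at hc
  obtain ⟨-, hq, hd, hw⟩ := hc
  unfold Tri.Simple at hs
  rw [List.map_cons, List.map_cons, List.nodup_cons, List.nodup_cons] at hs
  obtain ⟨hp1, hq1, hnd⟩ := hs
  rw [List.mem_cons, not_or] at hp1
  have hpd : T.tl p ≠ T.tl d := fun h => hp1.2 (h ▸ List.mem_map_of_mem List.mem_cons_self)
  have hqd : T.tl q ≠ T.tl d := fun h => hq1 (h ▸ List.mem_map_of_mem List.mem_cons_self)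
  have htails : ∀ e ∈ d :: m, T.tl e ≠ T.hd p ∧ T.tl e ≠ T.tl p := by
    intro e he
    constructor
    · intro h
      apply hq1
      rw [hq, ← h]
      exact List.mem_map_of_mem he
    · intro h
      apply hp1.2
      rw [← h]
      exact List.mem_map_of_mem he
  have hqa : q ≠ T.a p := by
    intro h
    apply hpd
    rw [hd, h, Tri.hd_a]
  refine ⟨hq.symm, by rw [← hd]; exact hpd, by rw [← hq]; exact fun h => hp1.1 h.symm,
    by rw [← hq, ← hd]; exact hqd, fun h => hp1.1 (by rw [h]), hqa, hd, ⟨rfl, hw⟩, ?_⟩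
  intro e he
  obtain ⟨t1, t2⟩ := htails e he
  refine ⟨fun h => t2 (by rw [h]), fun h => t1 (by rw [h, hq]), fun h => t1 (by rw [h]; rfl),
    ?_, t1, t2⟩
  intro h
  -- `a q` is the first dart
  have h1 : T.tl e = T.tl d := by
    rw [h, hd]
    rfl
  have h2 : e = d := List.inj_on_of_nodup_map hnd he List.mem_cons_self h1
  have h3 : T.hd d = T.tl q := by
    rw [← h2, h, Tri.hd_a]
  cases m with
  | nil =>
    have h4 : T.hd d = T.tl p := hw
    apply hp1.1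
    rw [← h4, h3]
  | cons e' m =>
    have h4 : T.tl e' = T.hd d := hw.1
    exact (htails e' (List.mem_cons_of_mem _ List.mem_cons_self)).1 (by rw [h4, h3, hq])

end aux

private theorem slit_mem {n g ℓ Δ : ℕ} {T : Tri (Fin (6 * n))} {p q d : Fin (6 * n)}
    {m : List (Fin (6 * n))} (h : (T, p :: q :: d :: m) ∈ SC n g (ℓ + 2) Δ) :
    (T.rew p q, d :: m) ∈ SC n g ℓ (2 * Δ) := by
  obtain ⟨hT, hdeg, hlen, hcl, hsim, hnh⟩ := h
  simp only at hT hdeg hlen hcl hsim hnh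
  obtain ⟨f1, f2, f3, f4, f5, f6, f7, f8, f9⟩ := slit_facts T hcl hsim
  refine ⟨⟨?_, ?_⟩, ?_, ?_, ?_, ?_, ?_⟩
  · refine Tri.rew_conn T hT.1 f5 f6 ?_
    intro hN
    apply f2
    refine Tri.nullHom_closed T (c := [p, q]) ?_ hN
    exact ⟨rfl, f1.symm, rfl⟩
  · have h1 := hT.2
    unfold Tri.Genus at h1 ⊢
    rw [Tri.card_V_slit T f1 f2]
    exact h1
  · intro e
    exact Tri.deg_slit_le T f1 f2 hdeg e
  · have h1 : (p :: q :: d :: m).length = ℓ + 2 := hlen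
    rw [List.length_cons, List.length_cons] at h1
    show (d :: m).length = ℓ
    omega
  · have h1 := walk_transfer T f1 f2 f3 f4 (y := p) f3.symm (d :: m) d
      (fun e he => ⟨(f9 e he).1, (f9 e he).2.1, (f9 e he).2.2.1, (f9 e he).2.2.2.1,
        (f9 e he).2.2.2.2.1⟩) f8
    have h2 : (T.rew p q).tl p = (T.rew p q).tl d :=
      (Tri.rew_slit_merged T f1 f2 f3 f4 (Or.inl rfl)).2 (Or.inr f7)
    rw [h2] at h1
    exact ⟨_, h1⟩
  · have hnd : ((d :: m).map T.tl).Nodup := by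
      have h1 : ((p :: q :: d :: m).map T.tl).Nodup := hsim
      rw [List.map_cons, List.map_cons, List.nodup_cons, List.nodup_cons] at h1
      exact h1.2.2
    show ((d :: m).map (T.rew p q).tl).Nodup
    rw [List.nodup_map_iff_inj_on (List.Nodup.of_map _ hnd)]
    intro x hx y hy hxy
    apply List.inj_on_of_nodup_map hnd hx hy
    obtain ⟨-, -, -, -, x1, x2⟩ := f9 x hx
    obtain ⟨-, -, -, -, y1, y2⟩ := f9 y hy
    by_cases hx3 : T.tl x = T.hd q
    · rw [Tri.rew_slit_merged T f1 f2 f3 f4 (Or.inr hx3)] at hxy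
      rcases hxy with hxy | hxy
      · exact absurd hxy y2
      · rw [hx3, hxy]
    · rwa [Tri.rew_tl_eq T x2 x1 (by rw [← f1]; exact x1) hx3] at hxy
  · intro hN
    apply hnh
    exact Tri.slit_hom T (l := d :: m) hcl f2 (fun h => (f9 p h).1 rfl) (fun h => (f9 q h).2.1 rfl)
      (fun h => (f9 _ h).2.2.1 rfl) (fun h => (f9 _ h).2.2.2.1 rfl) f5 hN

private theorem slit_pre {n g ℓ Δ : ℕ} {T : Tri (Fin (6 * n))} {p q d : Fin (6 * n)}
    {m : List (Fin (6 * n))} (h : (T, p :: q :: d :: m) ∈ SC n g (ℓ + 2) Δ) :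
    ∃ i < 2 * Δ, ∃ j < 2 * Δ, recon ((T.rew p q, d :: m), (i, j)) = (T, p :: q :: d :: m) := by
  have hmem := slit_mem h
  obtain ⟨hT, hdeg, hlen, hcl, hsim, hnh⟩ := h
  simp only at hT hdeg hlen hcl hsim hnh
  obtain ⟨f1, f2, f3, f4, f5, f6, f7, f8, f9⟩ := slit_facts T hcl hsim
  have h1 : (T.rew p q).tl p = (T.rew p q).tl d :=
    (Tri.rew_slit_merged T f1 f2 f3 f4 (Or.inl rfl)).2 (Or.inr f7)
  have h2 : (T.rew p q).tl (T.a q) = (T.rew p q).tl d :=
    (Tri.rew_slit_merged T f1 f2 f3 f4 (d := T.a q) (Or.inr rfl)).2 (Or.inr f7)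
  obtain ⟨i, hi, hpi⟩ := exists_pow_lt (T.rew p q) h1
  obtain ⟨j, hj, hqj⟩ := exists_pow_lt (T.rew p q) h2
  have hd := hmem.2.1 d
  refine ⟨i, lt_of_lt_of_le hi hd, j, lt_of_lt_of_le hj hd, ?_⟩
  have e1 : (T.rew p q).a (T.a q) = T.a p := rwP_aq T.aa T.ane f5 f6
  have e2 : (T.rew p q).a p = q := rwP_p T.aa T.ane f5 f6
  show ((T.rew p q).rew (((T.rew p q).s ^ i) d) ((T.rew p q).a (((T.rew p q).s ^ j) d)),
      (((T.rew p q).s ^ i) d) :: ((T.rew p q).a (((T.rew p q).s ^ i) d)) :: d :: m) =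
      (T, p :: q :: d :: m)
  rw [hpi, hqj, e1, e2, Tri.rew_undo T f5 f6]

theorem sc_slit (n g ℓ Δ : ℕ) (hℓ : 1 ≤ ℓ) :
    (SC n g (ℓ + 2) Δ).ncard ≤ (2 * Δ) ^ 2 * (SC n g ℓ (2 * Δ)).ncard := by
  have hsub : SC n g (ℓ + 2) Δ ⊆ recon '' (SC n g ℓ (2 * Δ) ×ˢ
      ((Finset.range (2 * Δ) : Set ℕ) ×ˢ (Finset.range (2 * Δ) : Set ℕ))) := by
    rintro ⟨T, c⟩ hx
    have hlen : c.length = ℓ + 2 := hx.2.2.1
    match c, hlen, hx with
    | [], hlen, hx => simp at hlen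
    | [_], hlen, hx => simp at hlen
    | [_, _], hlen, hx =>
      simp at hlen
      omega
    | p :: q :: d :: m, hlen, hx =>
      obtain ⟨i, hi, j, hj, hij⟩ := slit_pre hx
      refine ⟨((T.rew p q, d :: m), (i, j)), ⟨slit_mem hx, ?_, ?_⟩, hij⟩
      · exact Finset.mem_coe.2 (Finset.mem_range.2 hi)
      · exact Finset.mem_coe.2 (Finset.mem_range.2 hj)
  have hfin : (SC n g ℓ (2 * Δ) ×ˢ
      ((Finset.range (2 * Δ) : Set ℕ) ×ˢ (Finset.range (2 * Δ) : Set ℕ))).Finite :=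
    (SC_finite n g ℓ (2 * Δ)).prod ((Finset.finite_toSet _).prod (Finset.finite_toSet _))
  refine (Set.ncard_le_ncard hsub (hfin.image _)).trans ((Set.ncard_image_le hfin).trans ?_)
  rw [Set.ncard_prod, Set.ncard_prod, Set.ncard_coe_finset, Finset.card_range]
  apply le_of_eq
  ring

end SST
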