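import Pool.Agent.SST.S.SubLoop
import Pool.Agent.SST.S.Cut
import Pool.Agent.SST.S.Slit
import Pool.Agent.SST.S.Decomp

/-!
# SST-S-BadCount: the expected number of bad vertices  (paper proof, (8.3))
Write `S ℓ n Δ := (SC n (g+1) ℓ Δ).ncard / (6n)!`.
`S 2 n Δ ≤ (6n)² nu n g` (`sc_two`); `S 1 n Δ ≤ S 2 (n+1) (Δ+4) ≤ (6(n+1))² nu (n+1) g` (`sc_one`, divide by
`(6n)! (6(n+1))!`); `S (ℓ+2) n Δ ≤ (2Δ)² S ℓ n (2Δ)` (`sc_slit`): so for `ℓ ∈ [1,8]`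
`S ℓ n Δ ≤ 4096 (Δ+1)^6 * (36 (n+1)² (nu n g + nu (n+1) g)) ≤ 4096 (Δ+1)^6 * 36 * 4 n² * 3 nu (n+1) g`
(`subdiv_nu`).  Sum over the 8 values of `ℓ`, and over `T`:
`∑_T ncard {c : …} = (SC n (g+1) ℓ Δ).ncard`.  Then `badV_card`.
`8 * 4096 * 36 * 4 * 3 = 14155776 ≤ 10^8`.
-/

namespace SST

open Classical

private theorem fib_card (n g ℓ Δ : ℕ) (T : Tri (Fin (6 * n)))
    (hT : T ∈ Trn n g ∧ ∀ d, T.deg d ≤ Δ) :
    {c : List (Fin (6 * n)) | c.length = ℓ ∧ T.Closed c ∧ T.Simple c ∧ ¬ T.NullHom c}.ncard =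
      ((SC_finite n g ℓ Δ).toFinset.filter (fun x => x.1 = T)).card := by
  rw [← Set.ncard_coe_finset, ← Set.ncard_image_of_injective _ (f := fun c => (T, c))
    (fun c c' h => (Prod.ext_iff.1 h).2)]
  congr 1
  ext ⟨T', c⟩
  rw [Finset.mem_coe, Finset.mem_filter, Set.Finite.mem_toFinset, Set.mem_image]
  constructor
  · rintro ⟨c', h1, h2⟩
    obtain ⟨rfl, rfl⟩ := Prod.ext_iff.1 h2
    exact ⟨⟨hT.1, hT.2, h1⟩, rfl⟩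
  · rintro ⟨⟨h1, h2, h3⟩, h4⟩
    simp only at h4
    subst h4
    exact ⟨c, h3, rfl⟩

private theorem sum_fib (n g ℓ Δ : ℕ) :
    (∑ T : Tri (Fin (6 * n)), if T ∈ Trn n g ∧ ∀ d, T.deg d ≤ Δ then
      ({c : List (Fin (6 * n)) | c.length = ℓ ∧ T.Closed c ∧ T.Simple c ∧
        ¬ T.NullHom c}.ncard : ℝ) else 0) ≤ ((SC n g ℓ Δ).ncard : ℝ) := by
  have h1 : (SC n g ℓ Δ).ncard = (SC_finite n g ℓ Δ).toFinset.card :=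
    Set.ncard_eq_toFinset_card _ _
  have h2 : (SC_finite n g ℓ Δ).toFinset.card = ∑ T : Tri (Fin (6 * n)),
      ((SC_finite n g ℓ Δ).toFinset.filter (fun x => x.1 = T)).card :=
    Finset.card_eq_sum_card_fiberwise (fun _ _ => Finset.mem_coe.2 (Finset.mem_univ _))
  rw [h1, h2, Nat.cast_sum]
  refine Finset.sum_le_sum fun T _ => ?_
  by_cases h : T ∈ Trn n g ∧ ∀ d, T.deg d ≤ Δ
  · rw [if_pos h, fib_card n g ℓ Δ T h]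
  · rw [if_neg h]
    exact Nat.cast_nonneg _

private noncomputable def SS (g ℓ n Δ : ℕ) : ℝ := (SC n (g + 1) ℓ Δ).ncard / (6 * n).factorial

private theorem SS_two (g n Δ : ℕ) : SS g 2 n Δ ≤ (6 * n : ℝ) ^ 2 * nu n g := by
  unfold SS nu
  rw [mul_div_assoc']
  have h := sc_two n g Δ
  have h' : ((SC n (g + 1) 2 Δ).ncard : ℝ) ≤ (6 * n : ℝ) ^ 2 * (Trn n g).ncard := by
    exact_mod_cast h
  gcongr

private theorem SS_one (g n Δ : ℕ) : SS g 1 n Δ ≤ (6 * (n + 1) : ℝ) ^ 2 * nu (n + 1) g := by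
  have h1 : SS g 1 n Δ ≤ SS g 2 (n + 1) (Δ + 4) := by
    unfold SS
    have k1 : (0 : ℝ) < (6 * n).factorial := by exact_mod_cast Nat.factorial_pos _
    have k2 : (0 : ℝ) < (6 * (n + 1)).factorial := by exact_mod_cast Nat.factorial_pos _
    rw [div_le_div_iff₀ k1 k2]
    exact_mod_cast sc_one n (g + 1) Δ
  refine h1.trans ((SS_two g (n + 1) (Δ + 4)).trans (le_of_eq ?_))
  push_cast
  ring

private theorem SS_slit (g ℓ n Δ : ℕ) (hℓ : 1 ≤ ℓ) :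
    SS g (ℓ + 2) n Δ ≤ (2 * Δ : ℝ) ^ 2 * SS g ℓ n (2 * Δ) := by
  unfold SS
  rw [mul_div_assoc']
  have h := sc_slit n (g + 1) ℓ Δ hℓ
  have h' : ((SC n (g + 1) (ℓ + 2) Δ).ncard : ℝ) ≤
      (2 * Δ : ℝ) ^ 2 * (SC n (g + 1) ℓ (2 * Δ)).ncard := by
    exact_mod_cast h
  gcongr

private theorem SS_chain (g ℓ n : ℕ) (hℓ : 1 ≤ ℓ) (M : ℝ) (hM : ∀ Δ, SS g ℓ n Δ ≤ M) (Δ : ℕ) :
    SS g (ℓ + 2) n Δ ≤ 4 * (Δ : ℝ) ^ 2 * M ∧ SS g (ℓ + 4) n Δ ≤ 64 * (Δ : ℝ) ^ 4 * M ∧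
      SS g (ℓ + 6) n Δ ≤ 4096 * (Δ : ℝ) ^ 6 * M := by
  have h1 : ∀ Δ : ℕ, SS g (ℓ + 2) n Δ ≤ 4 * (Δ : ℝ) ^ 2 * M := by
    intro Δ
    refine (SS_slit g ℓ n Δ hℓ).trans ?_
    calc (2 * Δ : ℝ) ^ 2 * SS g ℓ n (2 * Δ) ≤ (2 * Δ : ℝ) ^ 2 * M :=
          mul_le_mul_of_nonneg_left (hM _) (by positivity)
      _ = 4 * (Δ : ℝ) ^ 2 * M := by ring
  have h2 : ∀ Δ : ℕ, SS g (ℓ + 4) n Δ ≤ 64 * (Δ : ℝ) ^ 4 * M := by
    intro Δ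
    refine (SS_slit g (ℓ + 2) n Δ (by omega)).trans ?_
    calc (2 * Δ : ℝ) ^ 2 * SS g (ℓ + 2) n (2 * Δ) ≤
          (2 * Δ : ℝ) ^ 2 * (4 * ((2 * Δ : ℕ) : ℝ) ^ 2 * M) :=
          mul_le_mul_of_nonneg_left (h1 _) (by positivity)
      _ = 64 * (Δ : ℝ) ^ 4 * M := by push_cast; ring
  have h3 : ∀ Δ : ℕ, SS g (ℓ + 6) n Δ ≤ 4096 * (Δ : ℝ) ^ 6 * M := by
    intro Δ
    refine (SS_slit g (ℓ + 4) n Δ (by omega)).trans ?_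
    calc (2 * Δ : ℝ) ^ 2 * SS g (ℓ + 4) n (2 * Δ) ≤
          (2 * Δ : ℝ) ^ 2 * (64 * ((2 * Δ : ℕ) : ℝ) ^ 4 * M) :=
          mul_le_mul_of_nonneg_left (h2 _) (by positivity)
      _ = 4096 * (Δ : ℝ) ^ 6 * M := by push_cast; ring
  exact ⟨h1 Δ, h2 Δ, h3 Δ⟩

private theorem SS_all (g n : ℕ) (hn : 1 ≤ n) (Δ : ℕ) :
    ∀ ℓ ∈ Finset.Icc 1 8, SS g ℓ n Δ ≤
      4096 * ((Δ : ℝ) + 1) ^ 6 * (432 * (n : ℝ) ^ 2 * nu (n + 1) g) := by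
  have hn' : (1 : ℝ) ≤ n := by exact_mod_cast hn
  have hnu : 0 ≤ nu (n + 1) g := by
    unfold nu
    positivity
  have hsub := subdiv_nu (g := g) hn
  have hM1 : ∀ Δ, SS g 1 n Δ ≤ 432 * (n : ℝ) ^ 2 * nu (n + 1) g := by
    intro Δ
    refine (SS_one g n Δ).trans ?_
    have : (6 * ((n : ℝ) + 1)) ^ 2 ≤ 432 * (n : ℝ) ^ 2 := by nlinarith
    exact mul_le_mul_of_nonneg_right this hnu
  have hM2 : ∀ Δ, SS g 2 n Δ ≤ 432 * (n : ℝ) ^ 2 * nu (n + 1) g := by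
    intro Δ
    refine (SS_two g n Δ).trans ?_
    calc (6 * (n : ℝ)) ^ 2 * nu n g ≤ (6 * (n : ℝ)) ^ 2 * (2 * nu (n + 1) g) :=
          mul_le_mul_of_nonneg_left hsub (by positivity)
      _ = 72 * ((n : ℝ) ^ 2 * nu (n + 1) g) := by ring
      _ ≤ 432 * ((n : ℝ) ^ 2 * nu (n + 1) g) := by
          apply mul_le_mul_of_nonneg_right (by norm_num) (by positivity)
      _ = 432 * (n : ℝ) ^ 2 * nu (n + 1) g := by ring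
  obtain ⟨M, hM⟩ : ∃ M, M = 432 * (n : ℝ) ^ 2 * nu (n + 1) g := ⟨_, rfl⟩
  have hM0 : 0 ≤ M := by
    rw [hM]
    positivity
  rw [← hM] at hM1 hM2 ⊢
  have hΔ : (0 : ℝ) ≤ Δ := Nat.cast_nonneg _
  have e0 : (1 : ℝ) ≤ 4096 * ((Δ : ℝ) + 1) ^ 6 := by
    have : (1 : ℝ) ≤ ((Δ : ℝ) + 1) ^ 6 := one_le_pow₀ (by linarith)
    linarith
  have e2 : 4 * (Δ : ℝ) ^ 2 ≤ 4096 * ((Δ : ℝ) + 1) ^ 6 := by
    have h1 : (Δ : ℝ) ^ 2 ≤ ((Δ : ℝ) + 1) ^ 2 := pow_le_pow_left₀ hΔ (by linarith) 2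
    have h2 : ((Δ : ℝ) + 1) ^ 2 ≤ ((Δ : ℝ) + 1) ^ 6 :=
      pow_le_pow_right₀ (by linarith) (by norm_num)
    have h3 : 0 ≤ ((Δ : ℝ) + 1) ^ 6 := by positivity
    linarith
  have e4 : 64 * (Δ : ℝ) ^ 4 ≤ 4096 * ((Δ : ℝ) + 1) ^ 6 := by
    have h1 : (Δ : ℝ) ^ 4 ≤ ((Δ : ℝ) + 1) ^ 4 := pow_le_pow_left₀ hΔ (by linarith) 4
    have h2 : ((Δ : ℝ) + 1) ^ 4 ≤ ((Δ : ℝ) + 1) ^ 6 :=
      pow_le_pow_right₀ (by linarith) (by norm_num)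
    have h3 : 0 ≤ ((Δ : ℝ) + 1) ^ 6 := by positivity
    linarith
  have e6 : 4096 * (Δ : ℝ) ^ 6 ≤ 4096 * ((Δ : ℝ) + 1) ^ 6 := by
    have h1 : (Δ : ℝ) ^ 6 ≤ ((Δ : ℝ) + 1) ^ 6 := pow_le_pow_left₀ hΔ (by linarith) 6
    linarith
  obtain ⟨a1, a2, a3⟩ := SS_chain g 1 n le_rfl M hM1 Δ
  obtain ⟨b1, b2, b3⟩ := SS_chain g 2 n (by norm_num) M hM2 Δ
  intro ℓ hℓ
  rw [Finset.mem_Icc] at hℓ
  obtain ⟨h1, h8⟩ := hℓ
  interval_cases ℓ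
  · exact (hM1 Δ).trans (le_mul_of_one_le_left hM0 e0)
  · exact (hM2 Δ).trans (le_mul_of_one_le_left hM0 e0)
  · exact a1.trans (mul_le_mul_of_nonneg_right e2 hM0)
  · exact b1.trans (mul_le_mul_of_nonneg_right e2 hM0)
  · exact a2.trans (mul_le_mul_of_nonneg_right e4 hM0)
  · exact b2.trans (mul_le_mul_of_nonneg_right e4 hM0)
  · exact a3.trans (mul_le_mul_of_nonneg_right e6 hM0)
  · exact b3.trans (mul_le_mul_of_nonneg_right e6 hM0)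

theorem bad_count {n g Δ : ℕ} (hn : 1 ≤ n) :
    (∑ T : Tri (Fin (6 * n)), if T ∈ Trn n (g + 1) ∧ ∀ d, T.deg d ≤ Δ then
      (T.BadV.ncard : ℝ) else 0) / (6 * n).factorial ≤
      10 ^ 8 * (Δ + 1 : ℝ) ^ 14 * n ^ 2 * nu (n + 1) g := by
  have hfac : (0 : ℝ) < (6 * n).factorial := by exact_mod_cast Nat.factorial_pos _
  have hnu : 0 ≤ nu (n + 1) g := by
    unfold nu
    positivity
  have h1 : (∑ T : Tri (Fin (6 * n)), if T ∈ Trn n (g + 1) ∧ ∀ d, T.deg d ≤ Δ then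
      (T.BadV.ncard : ℝ) else 0) ≤
      ((Δ : ℝ) + 1) ^ 8 * ∑ ℓ ∈ Finset.Icc 1 8, ((SC n (g + 1) ℓ Δ).ncard : ℝ) := by
    calc (∑ T : Tri (Fin (6 * n)), if T ∈ Trn n (g + 1) ∧ ∀ d, T.deg d ≤ Δ then
          (T.BadV.ncard : ℝ) else 0) ≤
          ∑ T : Tri (Fin (6 * n)), ((Δ : ℝ) + 1) ^ 8 * ∑ ℓ ∈ Finset.Icc 1 8,
            (if T ∈ Trn n (g + 1) ∧ ∀ d, T.deg d ≤ Δ then
              ({c : List (Fin (6 * n)) | c.length = ℓ ∧ T.Closed c ∧ T.Simple c ∧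
                ¬ T.NullHom c}.ncard : ℝ) else 0) := by
          refine Finset.sum_le_sum fun T _ => ?_
          by_cases h : T ∈ Trn n (g + 1) ∧ ∀ d, T.deg d ≤ Δ
          · simp only [if_pos h]
            have := T.badV_card h.2
            exact_mod_cast this
          · simp only [if_neg h, Finset.sum_const_zero, mul_zero, le_refl]
      _ = ((Δ : ℝ) + 1) ^ 8 * ∑ ℓ ∈ Finset.Icc 1 8, ∑ T : Tri (Fin (6 * n)),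
            (if T ∈ Trn n (g + 1) ∧ ∀ d, T.deg d ≤ Δ then
              ({c : List (Fin (6 * n)) | c.length = ℓ ∧ T.Closed c ∧ T.Simple c ∧
                ¬ T.NullHom c}.ncard : ℝ) else 0) := by
          rw [← Finset.mul_sum, Finset.sum_comm]
      _ ≤ _ := by
          refine mul_le_mul_of_nonneg_left ?_ (by positivity)
          exact Finset.sum_le_sum fun ℓ _ => sum_fib n (g + 1) ℓ Δ
  have h2 : (∑ ℓ ∈ Finset.Icc 1 8, ((SC n (g + 1) ℓ Δ).ncard : ℝ)) / (6 * n).factorial ≤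
      8 * (4096 * ((Δ : ℝ) + 1) ^ 6 * (432 * (n : ℝ) ^ 2 * nu (n + 1) g)) := by
    rw [Finset.sum_div]
    have h3 := Finset.sum_le_sum (SS_all g n hn Δ)
    rw [Finset.sum_const, Nat.card_Icc, nsmul_eq_mul] at h3
    norm_num at h3
    exact h3
  calc (∑ T : Tri (Fin (6 * n)), if T ∈ Trn n (g + 1) ∧ ∀ d, T.deg d ≤ Δ then
        (T.BadV.ncard : ℝ) else 0) / (6 * n).factorial ≤
        (((Δ : ℝ) + 1) ^ 8 * ∑ ℓ ∈ Finset.Icc 1 8, ((SC n (g + 1) ℓ Δ).ncard : ℝ)) /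
          (6 * n).factorial := by gcongr
    _ = ((Δ : ℝ) + 1) ^ 8 * ((∑ ℓ ∈ Finset.Icc 1 8, ((SC n (g + 1) ℓ Δ).ncard : ℝ)) /
          (6 * n).factorial) := by rw [mul_div_assoc]
    _ ≤ ((Δ : ℝ) + 1) ^ 8 *
        (8 * (4096 * ((Δ : ℝ) + 1) ^ 6 * (432 * (n : ℝ) ^ 2 * nu (n + 1) g))) :=
        mul_le_mul_of_nonneg_left h2 (by positivity)
    _ = 14155776 * ((Δ + 1 : ℝ) ^ 14 * n ^ 2 * nu (n + 1) g) := by ring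
    _ ≤ 10 ^ 8 * ((Δ + 1 : ℝ) ^ 14 * n ^ 2 * nu (n + 1) g) := by
        apply mul_le_mul_of_nonneg_right (by norm_num) (by positivity)
    _ = 10 ^ 8 * (Δ + 1 : ℝ) ^ 14 * n ^ 2 * nu (n + 1) g := by ring

end SST
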