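import Mathlib

/-!
# SST-S-CoCyc: enumerating the elements of `K` along a cycle (Mathlib only)
`η` is a permutation of a finite type, `S` a set on which it is transitive and which it preserves, `K ⊆ S`
not empty, `k = K.card`.  Fix `e ∈ K`, `M = S.card`.
1. `η.IsCycleOn S` (`Equiv.Perm.IsCycleOn`); for every `d ∈ S` there is exactly one `j < M` with
   `(η ^ j) e = d` (`Equiv.Perm.IsCycleOn.exists_pow_eq`, `Equiv.Perm.IsCycleOn.pow_apply_eq_pow_apply`), and
   `(η ^ M) e = e` (`Equiv.Perm.IsCycleOn.pow_card_apply`).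
2. `P = {j < M | (η ^ j) e ∈ K}` has `k` elements, `0 ∈ P`.  `t : Fin k ↪o ℕ` its increasing enumeration
   (`Finset.orderEmbOfFin`), `t 0 = 0` (smallest element).  Let `u : Fin (k + 1) → ℕ`, `u r.castSucc = t r`,
   `u (last k) = M` (`Fin.snoc t M`), strictly increasing, and no `j` with `u r.castSucc < j < u r.succ` is in `P`.
3. `E r = (η ^ u r) e` (so `E (last k) = e`), `l r = u r.succ - u r.castSucc`.  `∑ r, l r = u (last k) - u 0 = M`
   (telescoping: `Fin.sum_univ_...` or `Finset.sum_range_sub`-like, by induction).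
-/

namespace SST

private theorem tel_aux : ∀ (k : ℕ) (u : Fin (k + 1) → ℕ),
    (∀ r : Fin k, u r.castSucc ≤ u r.succ) →
    ∑ r : Fin k, (u r.succ - u r.castSucc) + u 0 = u (Fin.last k) := by
  intro k
  induction k with
  | zero => intro u _; simp
  | succ k ih =>
    intro u h
    rw [Fin.sum_univ_castSucc]
    have h1 := ih (fun r => u r.castSucc) (fun r => by
      have h9 := h r.castSucc
      rw [Fin.succ_castSucc] at h9
      exact h9)
    have h2 := h (Fin.last k)
    simp only [Fin.castSucc_zero] at h1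
    have h3 : ∑ r : Fin k, (u r.castSucc.succ - u r.castSucc.castSucc)
        = ∑ r : Fin k, (u r.succ.castSucc - u r.castSucc.castSucc) := by
      apply Finset.sum_congr rfl
      intro r _
      rw [Fin.succ_castSucc]
    rw [h3]
    have h5 : u (Fin.last (k + 1)) = u (Fin.last k).succ := rfl
    rw [h5]
    omega

theorem cyc_enum {D : Type} [Fintype D] [DecidableEq D] (η : Equiv.Perm D) (S K : Finset D)
    (hS : ∀ d ∈ S, η d ∈ S) (htr : ∀ d ∈ S, ∀ d' ∈ S, η.SameCycle d d') (hKS : K ⊆ S)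
    (hne : K.Nonempty) :
    ∃ (E : Fin (K.card + 1) → D) (l : Fin K.card → ℕ),
      (∀ r, E r ∈ K) ∧ (∀ r r' : Fin K.card, E r.castSucc = E r'.castSucc → r = r') ∧
      (∀ d ∈ K, ∃ r : Fin K.card, E r.castSucc = d) ∧
      (∀ r : Fin K.card, 1 ≤ l r ∧ E r.succ = (η ^ l r) (E r.castSucc) ∧
        ∀ q, 1 ≤ q → q < l r → (η ^ q) (E r.castSucc) ∉ K) ∧
      ∑ r, l r = S.card := by
  have hmaps : Set.MapsTo η (S : Set D) (S : Set D) := fun d hd => hS d hd
  have hbij : Set.BijOn η (S : Set D) (S : Set D) :=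
    ⟨hmaps, η.injective.injOn,
      Finset.surjOn_of_injOn_of_card_le η hmaps η.injective.injOn le_rfl⟩
  have hcyc : η.IsCycleOn (S : Set D) := ⟨hbij, fun x hx y hy => htr x hx y hy⟩
  obtain ⟨e, he⟩ := hne
  have heS := hKS he
  have hper : (η ^ S.card) e = e := hcyc.pow_card_apply heS
  have hex : ∀ d ∈ S, ∃ j < S.card, (η ^ j) e = d := fun d hd =>
    hcyc.exists_pow_eq heS hd
  have hinj : ∀ i j, i < S.card → j < S.card → (η ^ i) e = (η ^ j) e → i = j := by
    intro i j hi hj h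
    have h2 := (hcyc.pow_apply_eq_pow_apply heS).1 h
    exact Nat.ModEq.eq_of_lt_of_lt h2 hi hj
  have hSpos : 0 < S.card := Finset.card_pos.mpr ⟨e, heS⟩
  have hKpos : 0 < K.card := Finset.card_pos.mpr ⟨e, he⟩
  let P : Finset ℕ := (Finset.range S.card).filter (fun j => (η ^ j) e ∈ K)
  have hPmem : ∀ j, j ∈ P ↔ j < S.card ∧ (η ^ j) e ∈ K := by
    intro j; simp [P]
  have hPcard : P.card = K.card := by
    refine Finset.card_bij (fun j _ => (η ^ j) e) ?_ ?_ ?_
    · intro j hj; exact ((hPmem j).1 hj).2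
    · intro i hi j hj h
      exact hinj i j ((hPmem i).1 hi).1 ((hPmem j).1 hj).1 h
    · intro d hd
      obtain ⟨j, hj, h⟩ := hex d (hKS hd)
      exact ⟨j, (hPmem j).2 ⟨hj, by rw [h]; exact hd⟩, h⟩
  let t : Fin K.card ↪o ℕ := P.orderEmbOfFin hPcard
  have htP : ∀ r, t r ∈ P := fun r => Finset.orderEmbOfFin_mem P hPcard r
  have htsurj : ∀ j ∈ P, ∃ r, t r = j := by
    intro j hj
    have h1 : j ∈ Set.range (P.orderEmbOfFin hPcard) := by
      rw [Finset.range_orderEmbOfFin]; exact hj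
    obtain ⟨r, hr⟩ := h1
    exact ⟨r, hr⟩
  let u : Fin (K.card + 1) → ℕ := Fin.snoc (α := fun _ => ℕ) (fun r => t r) S.card
  have hu1 : ∀ r : Fin K.card, u r.castSucc = t r := fun r => by simp [u]
  have hu2 : u (Fin.last K.card) = S.card := by simp [u]
  have h0P : 0 ∈ P := (hPmem 0).2 ⟨hSpos, by simpa using he⟩
  have hu0 : u 0 = 0 := by
    obtain ⟨r, hr⟩ := htsurj 0 h0P
    have h1 : t ⟨0, hKpos⟩ ≤ t r := t.monotone (Fin.mk_le_of_le_val (Nat.zero_le _))
    have h2 : (0 : Fin (K.card + 1)) = Fin.castSucc ⟨0, hKpos⟩ := rfl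
    rw [h2, hu1]
    omega
  have hgap : ∀ r : Fin K.card, u r.castSucc < u r.succ ∧ u r.succ ≤ S.card ∧
      ∀ j, u r.castSucc < j → j < u r.succ → j ∉ P := by
    intro r
    by_cases hr : r.val + 1 < K.card
    · have h1 : r.succ = Fin.castSucc ⟨r.val + 1, hr⟩ := rfl
      rw [h1, hu1, hu1]
      refine ⟨t.strictMono (by rw [Fin.lt_def]; exact Nat.lt_succ_self _),
        (((hPmem _).1 (htP _)).1).le, ?_⟩
      intro j hj1 hj2 hjP
      obtain ⟨i, hi⟩ := htsurj j hjP
      rw [← hi] at hj1 hj2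
      have h2 := t.lt_iff_lt.1 hj1
      have h3 := t.lt_iff_lt.1 hj2
      rw [Fin.lt_def] at h2 h3
      simp only at h3
      omega
    · have h1 : r.succ = Fin.last K.card := by
        apply Fin.ext
        simp only [Fin.val_succ, Fin.val_last]
        have := r.isLt
        omega
      rw [h1, hu1, hu2]
      refine ⟨((hPmem _).1 (htP _)).1, le_rfl, ?_⟩
      intro j hj1 _ hjP
      obtain ⟨i, hi⟩ := htsurj j hjP
      rw [← hi] at hj1
      have h2 := t.lt_iff_lt.1 hj1
      rw [Fin.lt_def] at h2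
      have := i.isLt
      omega
  refine ⟨fun r => (η ^ u r) e, fun r => u r.succ - u r.castSucc, ?_, ?_, ?_, ?_, ?_⟩
  · intro r
    refine Fin.lastCases ?_ ?_ r
    · show (η ^ u (Fin.last K.card)) e ∈ K
      rw [hu2, hper]; exact he
    · intro r
      show (η ^ u r.castSucc) e ∈ K
      rw [hu1]; exact ((hPmem _).1 (htP r)).2
  · intro r r' h
    change (η ^ u r.castSucc) e = (η ^ u r'.castSucc) e at h
    rw [hu1, hu1] at h
    exact t.injective (hinj _ _ ((hPmem _).1 (htP r)).1 ((hPmem _).1 (htP r')).1 h)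
  · intro d hd
    obtain ⟨j, hj, h⟩ := hex d (hKS hd)
    have hjP : j ∈ P := (hPmem j).2 ⟨hj, by rw [h]; exact hd⟩
    obtain ⟨r, hr⟩ := htsurj j hjP
    refine ⟨r, ?_⟩
    show (η ^ u r.castSucc) e = d
    rw [hu1, hr, h]
  · intro r
    obtain ⟨h1, h2, h3⟩ := hgap r
    refine ⟨?_, ?_, ?_⟩
    · show 1 ≤ u r.succ - u r.castSucc
      omega
    · show (η ^ u r.succ) e = (η ^ (u r.succ - u r.castSucc)) ((η ^ u r.castSucc) e)
      rw [← Equiv.Perm.mul_apply, ← pow_add]
      congr 2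
      omega
    · intro q hq1 hq2 hq3
      change q < u r.succ - u r.castSucc at hq2
      change (η ^ q) ((η ^ u r.castSucc) e) ∈ K at hq3
      rw [← Equiv.Perm.mul_apply, ← pow_add] at hq3
      exact h3 (q + u r.castSucc) (by omega) (by omega) ((hPmem _).2 ⟨by omega, hq3⟩)
  · have h1 := tel_aux K.card u (fun r => (hgap r).1.le)
    rw [hu0, hu2] at h1
    simpa using h1

end SST
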