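import Pool.Agent.SST.S.Transfer

/-!
# SST-S-CoSum: weighted sums over sets
`wsum P w = ∑ᶠ x : P, w x`, everything finite.  Convert with `finsum_eq_sum_of_fintype` after
`have : Fintype P := Fintype.ofFinite _`.
* `wsum_transfer`: apply `transfer` to the subtypes `P`, `Q` (as `transfer_ncard` does in
  `S/Transfer.lean`).
* `wsum_le_of_inj`: sum over the image of the injection (`Finset.sum_le_sum_of_injOn`-like: rewrite the left
  side as a sum over the image, `Finset.sum_image`, then `Finset.sum_le_sum_of_subset_of_nonneg`).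
* `wsum_fiber`: `Finset.sum_fiberwise_of_maps_to` or: `Finset.sum_comm` with indicator functions.
-/

namespace SST

/-- Weighted sum over a set. -/
noncomputable def wsum {A : Type} (P : Set A) (w : A → ℝ) : ℝ := ∑ᶠ x : P, w x

theorem wsum_eq {A : Type} [Fintype A] (P : Set A) [DecidablePred (· ∈ P)] (w : A → ℝ) :
    wsum P w = ∑ x with x ∈ P, w x := by
  classical
  unfold wsum
  have : Fintype P := Fintype.ofFinite _
  rw [finsum_eq_sum_of_fintype]
  exact (Finset.sum_subtype (Finset.univ.filter (· ∈ P)) (fun x => by simp) w).symm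

theorem wsum_nonneg {A : Type} [Finite A] {P : Set A} {w : A → ℝ} (h : ∀ x ∈ P, 0 ≤ w x) :
    0 ≤ wsum P w := by
  exact finsum_nonneg fun x => h x x.2

theorem wsum_one {A : Type} [Finite A] (P : Set A) : wsum P (fun _ => 1) = P.ncard := by
  classical
  unfold wsum
  have : Fintype P := Fintype.ofFinite _
  rw [finsum_eq_sum_of_fintype, Finset.sum_const, Finset.card_univ, nsmul_eq_mul, mul_one,
    ← Nat.card_eq_fintype_card]
  rfl

theorem wsum_mul {A : Type} [Finite A] (P : Set A) (c : ℝ) (w : A → ℝ) :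
    wsum P (fun x => c * w x) = c * wsum P w := by
  classical
  unfold wsum
  have : Fintype P := Fintype.ofFinite _
  rw [finsum_eq_sum_of_fintype, finsum_eq_sum_of_fintype, Finset.mul_sum]

theorem wsum_congr {A : Type} [Finite A] {P : Set A} {w w' : A → ℝ} (h : ∀ x ∈ P, w x = w' x) :
    wsum P w = wsum P w' := by
  exact finsum_congr fun x => h x x.2

theorem wsum_le_of_inj {A B : Type} [Finite A] [Finite B] {P : Set A} {Q : Set B} {w : A → ℝ}
    {w' : B → ℝ} (φ : A → B) (h1 : ∀ x ∈ P, φ x ∈ Q) (h2 : ∀ x ∈ P, ∀ x' ∈ P, φ x = φ x' → x = x')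
    (h3 : ∀ x ∈ P, w x ≤ w' (φ x)) (h4 : ∀ y ∈ Q, 0 ≤ w' y) : wsum P w ≤ wsum Q w' := by
  classical
  unfold wsum
  have : Fintype P := Fintype.ofFinite _
  have : Fintype Q := Fintype.ofFinite _
  rw [finsum_eq_sum_of_fintype, finsum_eq_sum_of_fintype]
  have hinj : Function.Injective (fun x : P => (⟨φ x.1, h1 x.1 x.2⟩ : Q)) := fun x x' hxx =>
    Subtype.ext (h2 x.1 x.2 x'.1 x'.2 (congrArg Subtype.val hxx))
  calc ∑ x : P, w x ≤ ∑ x : P, w' (φ x) := Finset.sum_le_sum fun x _ => h3 x.1 x.2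
    _ = ∑ y ∈ Finset.univ.image (fun x : P => (⟨φ x.1, h1 x.1 x.2⟩ : Q)), w' y := by
        rw [Finset.sum_image (fun x _ x' _ hxx => hinj hxx)]
    _ ≤ ∑ y : Q, w' y :=
        Finset.sum_le_sum_of_subset_of_nonneg (Finset.subset_univ _) fun y _ _ => h4 y.1 y.2

theorem wsum_mono {A : Type} [Finite A] {P Q : Set A} {w w' : A → ℝ} (h1 : P ⊆ Q)
    (h3 : ∀ x ∈ P, w x ≤ w' x) (h4 : ∀ y ∈ Q, 0 ≤ w' y) : wsum P w ≤ wsum Q w' :=
  wsum_le_of_inj id (fun _ hx => h1 hx) (fun _ _ _ _ h => h) h3 h4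

theorem wsum_fiber {A ι : Type} [Finite A] [DecidableEq ι] (P : Set A) (w : A → ℝ) (S : Finset ι)
    (h : A → ι) (hS : ∀ x ∈ P, h x ∈ S) : wsum P w = ∑ i ∈ S, wsum {x | x ∈ P ∧ h x = i} w := by
  classical
  have : Fintype A := Fintype.ofFinite _
  rw [wsum_eq, ← Finset.sum_fiberwise_of_maps_to (t := S) (g := h)
    (fun x hx => hS x (Finset.mem_filter.1 hx).2)]
  refine Finset.sum_congr rfl fun i _ => ?_
  rw [wsum_eq, Finset.filter_filter]
  rfl

/-- `m` copies. -/
theorem wsum_copies {A : Type} [Finite A] (m : ℕ) (P : Set A) (w : A → ℝ) :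
    wsum {x : A × Fin m | x.1 ∈ P} (fun x => w x.1) = m * wsum P w := by
  classical
  have : Fintype A := Fintype.ofFinite _
  rw [wsum_eq, wsum_eq, Finset.sum_filter, Fintype.sum_prod_type, Finset.sum_filter, Finset.mul_sum]
  refine Finset.sum_congr rfl fun x _ => ?_
  show ∑ y : Fin m, (if x ∈ P then w x else 0) = m * (if x ∈ P then w x else 0)
  rw [Finset.sum_const, Finset.card_univ, Fintype.card_fin, nsmul_eq_mul]

theorem wsum_transfer {X E Y A B : Type} [Fintype X] [Fintype E] [Fintype Y] [Finite A] [Finite B]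
    (hcard : Fintype.card Y = Fintype.card X + Fintype.card E) (P : Set A) (Q : Set B)
    (Φ : (X ⊕ E ≃ Y) → A → B) (ι : B → E → Y)
    (h1 : ∀ e, ∀ x ∈ P, ∀ i, e (Sum.inr i) = ι (Φ e x) i)
    (h2 : ∀ e, ∀ x ∈ P, ∀ x' ∈ P, Φ e x = Φ e x' → x = x') (h3 : ∀ e, ∀ x ∈ P, Φ e x ∈ Q)
    (w : A → ℝ) (w' : B → ℝ) (hw' : ∀ y ∈ Q, 0 ≤ w' y) (hle : ∀ e, ∀ x ∈ P, w x ≤ w' (Φ e x)) :
    wsum P w * (Fintype.card Y).factorial ≤ wsum Q w' * (Fintype.card X).factorial := by
  classical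
  unfold wsum
  have : Fintype P := Fintype.ofFinite _
  have : Fintype Q := Fintype.ofFinite _
  rw [finsum_eq_sum_of_fintype, finsum_eq_sum_of_fintype]
  exact transfer (X := X) (E := E) (Y := Y) (A := P) (B := Q) hcard
    (fun e x => ⟨Φ e x.1, h3 e x.1 x.2⟩) (fun y => ι y.1)
    (fun e x i => h1 e x.1 x.2 i)
    (fun e x x' hxx => Subtype.ext (h2 e x.1 x.2 x'.1 x'.2 (congrArg Subtype.val hxx)))
    (fun x => w x.1) (fun y => w' y.1) (fun y => hw' y.1 y.2) (fun e x => hle e x.1 x.2)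

end SST
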