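import Pool.Agent.SST.S.SumMap
import Pool.Agent.SST.S.CoSum

/-!
# SST-S-CoDef: contour sequences (definitions)  (paper proof, (8.2)).  DO NOT CHANGE.
`E 0, …, E i`: darts.  `K_E` = these darts and their reverses.
-/

namespace SST
namespace Tri

variable {D : Type}

/-- `d` or its reverse is one of the `E r`. -/
def InK {i : ℕ} (T : Tri D) (E : Fin (i + 1) → D) (d : D) : Prop := ∃ r, d = E r ∨ d = T.a (E r)

/-- Number of steps (at least one) of the rotation from `d` to the first dart with `P`. -/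
noncomputable def ret (T : Tri D) (P : D → Prop) (d : D) : ℕ := sInf {l : ℕ | 1 ≤ l ∧ P ((T.s ^ l) d)}

/-- The length of the sector of `K_E` after `T.a (E r)`. -/
noncomputable def sec {i : ℕ} (T : Tri D) (E : Fin (i + 1) → D) (r : Fin (i + 1)) : ℕ :=
  T.ret (T.InK E) (T.a (E r))

/-- Contour sequences: `E (r + 1)` is the first dart of `K_E` after `T.a (E r)`, and all `E r` except
perhaps the last one are distinct. -/
def IsCo {i : ℕ} (T : Tri D) (E : Fin (i + 1) → D) : Prop :=
  (∀ r r' : Fin i, E r.castSucc = E r'.castSucc → r = r') ∧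
    ∀ r : Fin i, E r.succ = (T.s ^ T.sec E r.castSucc) (T.a (E r.castSucc))

/-- Sum of the lengths of the sectors. -/
noncomputable def clen {i : ℕ} (T : Tri D) (E : Fin (i + 1) → D) : ℕ := ∑ r : Fin i, T.sec E r.castSucc

/-- Contour sequences of distinct darts, with at least `y` free darts after the last one. -/
def IsFr {i : ℕ} (T : Tri D) (E : Fin (i + 1) → D) (y : ℕ) : Prop :=
  T.IsCo E ∧ Function.Injective E ∧
    ∀ q, 1 ≤ q → q ≤ y → ¬ T.InK E ((T.s ^ q) (T.a (E (Fin.last i))))

end Tri

def CoSet (n g i : ℕ) : Set (Tri (Fin (6 * n)) × (Fin (i + 1) → Fin (6 * n))) :=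
  {x | x.1 ∈ Trn n g ∧ x.1.IsCo x.2}

def FrSet (n g i y : ℕ) : Set (Tri (Fin (6 * n)) × (Fin (i + 1) → Fin (6 * n))) :=
  {x | x.1 ∈ Trn n g ∧ x.1.IsFr x.2 y}

/-- Weighted number of contour sequences. -/
noncomputable def WW (n g i : ℕ) (z : ℝ) : ℝ :=
  wsum (CoSet n g i) (fun x => z ^ x.1.clen x.2) / (6 * n).factorial

/-- Weighted number of contour sequences with a free sector of length at least `y` at the end. -/
noncomputable def FF (n g i y : ℕ) (z : ℝ) : ℝ :=
  wsum (FrSet n g i y) (fun x => z ^ x.1.clen x.2) / (6 * n).factorial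

end SST
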