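import Pool.Agent.SST.S.CoRet

/-!
# SST-S-CoDrop: dropping the last dart of a contour sequence
Let `E : Fin (i + 2) → D` be a contour sequence, `E' r = E r.castSucc`.  `K_{E'} ⊆ K_E`.
* `sec_drop`: for `r : Fin (i + 1)` let `l = T.sec E r.castSucc`; `(T.s ^ l) (T.a (E r.castSucc)) = E r.succ`.
  If `r < i` then `E r.succ` is in `K_{E'}` (it is `E' (r + 1)`), and the darts `(T.s ^ q) (T.a (E r.castSucc))`,
  `1 ≤ q < l`, are not in `K_E ⊇ K_{E'}`: `ret_eq`.
  (In the statement `r : Fin i`, the sectors of `E'` which count in `clen` and in `IsCo`.)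
* `co_drop`: `IsCo E'`: the darts `E' r` are distinct by `IsCo E`; so `E'` is injective; the last sector
  of `E'` has the free darts `1 ≤ q ≤ l - 1`, `l = T.sec E (last i).castSucc` (`sec_free`).
  `clen`: `Fin.sum_univ_castSucc`.
-/

namespace SST
namespace Tri

variable {D : Type}

theorem inK_drop {i : ℕ} (T : Tri D) (E : Fin (i + 2) → D) {d : D}
    (h : T.InK (fun r : Fin (i + 1) => E r.castSucc) d) : T.InK E d := by
  obtain ⟨r, hr⟩ := h
  exact ⟨r.castSucc, hr⟩

theorem sec_drop [Finite D] {i : ℕ} (T : Tri D) (E : Fin (i + 2) → D) (h : T.IsCo E) (r : Fin i) :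
    T.sec (fun r : Fin (i + 1) => E r.castSucc) r.castSucc = T.sec E r.castSucc.castSucc := by
  apply T.ret_eq
  · exact T.sec_pos E _
  · refine ⟨r.succ, Or.inl ?_⟩
    have h1 := h.2 r.castSucc
    exact h1.symm
  · intro q h1 h2 h3
    exact T.sec_free E _ h1 h2 (T.inK_drop E h3)

theorem co_drop [Finite D] {i : ℕ} (T : Tri D) (E : Fin (i + 2) → D) (h : T.IsCo E) :
    T.IsFr (fun r : Fin (i + 1) => E r.castSucc) (T.sec E (Fin.last i).castSucc - 1) ∧
      T.clen E = T.clen (fun r : Fin (i + 1) => E r.castSucc) + T.sec E (Fin.last i).castSucc ∧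
      E (Fin.last (i + 1)) =
        (T.s ^ T.sec E (Fin.last i).castSucc) (T.a (E (Fin.last i).castSucc)) := by
  refine ⟨⟨⟨?_, ?_⟩, ?_, ?_⟩, ?_, ?_⟩
  · intro r r' hr
    have h1 := h.1 r.castSucc r'.castSucc hr
    exact Fin.castSucc_injective _ h1
  · intro r
    rw [T.sec_drop E h r]
    exact h.2 r.castSucc
  · intro r r' hr
    exact h.1 r r' hr
  · intro q h1 h2 h3
    exact T.sec_free E _ h1 (by omega) (T.inK_drop E h3)
  · unfold clen
    rw [Fin.sum_univ_castSucc]
    congr 1
    exact Finset.sum_congr rfl fun r _ => (T.sec_drop E h r).symm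
  · have h1 := h.2 (Fin.last i)
    rw [Fin.succ_last] at h1
    exact h1

end Tri
end SST
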