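import Pool.Agent.SST.S.CoDef

/-!
# SST-S-CoRet: elementary facts on returns and contour sequences
* `ret_spec`: the set `{l | 1 ≤ l ∧ P ((T.s ^ l) d)}` contains `orderOf T.s ≥ 1` (`orderOf_pos`,
  `pow_orderOf_eq_one`) as `P d`; `Nat.sInf_mem`.
* `ret_min`: `Nat.notMem_of_lt_sInf`.  `ret_eq`: from these two (`le_antisymm`).
* `ret_le_card`: the darts `(T.s ^ q) d`, `0 ≤ q ≤ card D`, are not all distinct: `(T.s ^ l) d = d` for some
  `1 ≤ l ≤ card D` (pigeonhole, or: the minimal period `Function.minimalPeriod T.s d` is at most `card D`).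
* `map`: `((T.map e).s ^ l) (e d) = e ((T.s ^ l) d)` (`map_s`, induction), `map_a`.
-/

namespace SST
namespace Tri

variable {D D' : Type}

theorem ret_spec [Finite D] (T : Tri D) (P : D → Prop) {d : D} (h : P d) :
    1 ≤ T.ret P d ∧ P ((T.s ^ T.ret P d) d) := by
  have hne : {l : ℕ | 1 ≤ l ∧ P ((T.s ^ l) d)}.Nonempty := by
    refine ⟨orderOf T.s, ?_, ?_⟩
    · exact orderOf_pos T.s
    · rw [pow_orderOf_eq_one]
      exact h
  exact Nat.sInf_mem hne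

theorem ret_min (T : Tri D) (P : D → Prop) {d : D} {q : ℕ} (h : 1 ≤ q) (h' : q < T.ret P d) :
    ¬ P ((T.s ^ q) d) := fun hP => Nat.notMem_of_lt_sInf h' ⟨h, hP⟩

theorem ret_eq (T : Tri D) (P : D → Prop) {d : D} {l : ℕ} (h : 1 ≤ l) (h' : P ((T.s ^ l) d))
    (h'' : ∀ q, 1 ≤ q → q < l → ¬ P ((T.s ^ q) d)) : T.ret P d = l := by
  have hmem : l ∈ {l : ℕ | 1 ≤ l ∧ P ((T.s ^ l) d)} := ⟨h, h'⟩
  apply le_antisymm (Nat.sInf_le hmem)
  by_contra hlt
  have h1 : T.ret P d ∈ {l : ℕ | 1 ≤ l ∧ P ((T.s ^ l) d)} := Nat.sInf_mem ⟨l, hmem⟩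
  exact h'' _ h1.1 (not_le.mp hlt) h1.2

theorem ret_le_card [Fintype D] (T : Tri D) (P : D → Prop) {d : D} (h : P d) :
    T.ret P d ≤ Fintype.card D := by
  obtain ⟨x, y, hxy, he⟩ := Fintype.exists_ne_map_eq_of_card_lt
    (fun q : Fin (Fintype.card D + 1) => (T.s ^ (q : ℕ)) d) (by simp)
  wlog hlt : x < y generalizing x y
  · exact this y x hxy.symm he.symm (lt_of_le_of_ne (not_lt.mp hlt) hxy.symm)
  have h1 : (y : ℕ) = (x : ℕ) + ((y : ℕ) - x) := by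
    have : (x : ℕ) < y := hlt
    omega
  have he' : (T.s ^ (x : ℕ)) d = (T.s ^ (y : ℕ)) d := he
  rw [h1, pow_add, Equiv.Perm.mul_apply] at he'
  have h2 := (T.s ^ (x : ℕ)).injective he'
  have h3 : ((y : ℕ) - x) ∈ {l : ℕ | 1 ≤ l ∧ P ((T.s ^ l) d)} := by
    refine ⟨?_, ?_⟩
    · have : (x : ℕ) < y := hlt
      omega
    · rw [← h2]
      exact h
  refine (Nat.sInf_le h3).trans ?_
  have := y.2
  omega

theorem inK_E {i : ℕ} (T : Tri D) (E : Fin (i + 1) → D) (r : Fin (i + 1)) : T.InK E (E r) :=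
  ⟨r, Or.inl rfl⟩

theorem inK_aE {i : ℕ} (T : Tri D) (E : Fin (i + 1) → D) (r : Fin (i + 1)) : T.InK E (T.a (E r)) :=
  ⟨r, Or.inr rfl⟩

theorem inK_a {i : ℕ} (T : Tri D) (E : Fin (i + 1) → D) (d : D) :
    T.InK E (T.a d) ↔ T.InK E d := by
  have key : ∀ d, T.InK E d → T.InK E (T.a d) := by
    rintro d ⟨r, hr | hr⟩
    · exact ⟨r, Or.inr (by rw [hr])⟩
    · exact ⟨r, Or.inl (by rw [hr, T.aa])⟩
  constructor
  · intro h
    have := key _ h
    rwa [T.aa] at this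
  · exact key d

theorem sec_pos [Finite D] {i : ℕ} (T : Tri D) (E : Fin (i + 1) → D) (r : Fin (i + 1)) :
    1 ≤ T.sec E r :=
  (T.ret_spec _ (T.inK_aE E r)).1

theorem sec_le_card [Fintype D] {i : ℕ} (T : Tri D) (E : Fin (i + 1) → D) (r : Fin (i + 1)) :
    T.sec E r ≤ Fintype.card D :=
  T.ret_le_card _ (T.inK_aE E r)

theorem sec_free {i : ℕ} (T : Tri D) (E : Fin (i + 1) → D) (r : Fin (i + 1)) {q : ℕ}
    (h : 1 ≤ q) (h' : q < T.sec E r) : ¬ T.InK E ((T.s ^ q) (T.a (E r))) :=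
  T.ret_min _ h h'

theorem isFr_mono {i : ℕ} {T : Tri D} {E : Fin (i + 1) → D} {y y' : ℕ} (h : T.IsFr E y)
    (hy : y' ≤ y) : T.IsFr E y' :=
  ⟨h.1, h.2.1, fun q h1 h2 => h.2.2 q h1 (h2.trans hy)⟩

theorem map_s_pow (T : Tri D) (e : D ≃ D') (l : ℕ) (d : D) :
    ((T.map e).s ^ l) (e d) = e ((T.s ^ l) d) := by
  induction l with
  | zero => rfl
  | succ l ih =>
    rw [pow_succ', pow_succ', Equiv.Perm.mul_apply, Equiv.Perm.mul_apply, ih, map_s]

theorem map_inK {i : ℕ} (T : Tri D) (e : D ≃ D') (E : Fin (i + 1) → D) (d : D) :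
    (T.map e).InK (fun r => e (E r)) (e d) ↔ T.InK E d := by
  unfold InK
  simp only [map_a, e.injective.eq_iff]

theorem map_sec {i : ℕ} (T : Tri D) (e : D ≃ D') (E : Fin (i + 1) → D) (r : Fin (i + 1)) :
    (T.map e).sec (fun r => e (E r)) r = T.sec E r := by
  unfold sec ret
  simp only [map_a, map_s_pow, map_inK]

theorem map_clen {i : ℕ} (T : Tri D) (e : D ≃ D') (E : Fin (i + 1) → D) :
    (T.map e).clen (fun r => e (E r)) = T.clen E := by
  unfold clen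
  simp only [map_sec]

theorem map_isFr {i : ℕ} (T : Tri D) (e : D ≃ D') (E : Fin (i + 1) → D) {y : ℕ} (h : T.IsFr E y) :
    (T.map e).IsFr (fun r => e (E r)) y := by
  obtain ⟨⟨h1, h2⟩, h3, h4⟩ := h
  refine ⟨⟨fun r r' hr => h1 r r' (e.injective hr), fun r => ?_⟩, fun r r' hr => h3 (e.injective hr),
    fun q hq hq' => ?_⟩
  · rw [map_sec, map_a, map_s_pow]
    exact congrArg e (h2 r)
  · rw [map_a, map_s_pow, map_inK]
    exact h4 q hq hq'

end Tri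
end SST
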