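import Pool.Agent.SST.S.CoRet

/-!
# SST-S-CoSect: the free sector at the end of a contour sequence
Let `T.IsFr E y`, `b = T.a (E (last i))`, `p = T.f (E (last i)) = T.s b` (`s_apply`, `aa`),
`c = (T.s ^ j) p = (T.s ^ (j + 1)) b`, `1 ≤ j`, `j + 1 ≤ y`.  `b ∈ K` (`inK_aE`), and `(T.s ^ q) b ∉ K` for
`1 ≤ q ≤ y`.
* `fr_not`: `p = (T.s ^ 1) b`, `c = (T.s ^ (j + 1)) b`.
* `fr_ne`: if `(T.s ^ q) p = p` then `(T.s ^ q) b = b` (injectivity of `T.s`), which is in `K`, contradiction as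
  `1 ≤ q ≤ y`.
* `fr_avoid`: let `b' = T.a (E r.castSucc) ≠ b` (`E` is injective, `r.castSucc ≠ last`), `(T.s ^ q) b' ∉ K` for
  `1 ≤ q < sec`.  Suppose `(T.s ^ q) b' = (T.s ^ k) b` with `k = 1` or `k = j + 1` (so `1 ≤ k ≤ y`), `q < sec`.
  If `q < k`: cancel `T.s ^ q`: `b' = (T.s ^ (k - q)) b ∉ K`, contradiction (`inK_aE`).  If `q ≥ k`:
  `(T.s ^ (q - k)) b' = b ∈ K`: `q - k = 0` is excluded by `b' ≠ b`, `1 ≤ q - k < sec` by `sec_free`.
* `fr_avoid_last`: `(T.s ^ q) b = (T.s ^ k) b` with `k ∈ {1, j + 1}`, `k < q ≤ y`: `(T.s ^ (q - k)) b = b ∈ K`,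
  contradiction.
-/

namespace SST
namespace Tri

variable {D : Type}

theorem pow_cancel_le {s : Equiv.Perm D} {x y : D} {q k : ℕ} (h : k ≤ q) (he : (s ^ q) x = (s ^ k) y) :
    (s ^ (q - k)) x = y := by
  have h1 : q = k + (q - k) := by omega
  rw [h1, pow_add, Equiv.Perm.mul_apply] at he
  exact (s ^ k).injective he

theorem fr_p {i : ℕ} (T : Tri D) (E : Fin (i + 1) → D) :
    T.f (E (Fin.last i)) = T.s (T.a (E (Fin.last i))) := by
  rw [s_apply, T.aa]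

theorem fr_pow {i : ℕ} (T : Tri D) (E : Fin (i + 1) → D) (j : ℕ) :
    (T.s ^ j) (T.f (E (Fin.last i))) = (T.s ^ (j + 1)) (T.a (E (Fin.last i))) := by
  rw [fr_p, pow_succ, Equiv.Perm.mul_apply]

theorem fr_not {i : ℕ} {T : Tri D} {E : Fin (i + 1) → D} {y : ℕ} (h : T.IsFr E y) {j : ℕ}
    (hj : j + 1 ≤ y) : ¬ T.InK E ((T.s ^ j) (T.f (E (Fin.last i)))) := by
  rw [fr_pow]
  exact h.2.2 (j + 1) (by omega) hj

theorem fr_ne {i : ℕ} {T : Tri D} {E : Fin (i + 1) → D} {y : ℕ} (h : T.IsFr E y) {q : ℕ}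
    (h0 : 0 < q) (hq : q ≤ y) :
    (T.s ^ q) (T.f (E (Fin.last i))) ≠ T.f (E (Fin.last i)) := by
  intro he
  rw [fr_pow, fr_p] at he
  have h1 : (T.s ^ (q + 1)) (T.a (E (Fin.last i))) = (T.s ^ 1) (T.a (E (Fin.last i))) := by
    rw [he, pow_one]
  have h2 := pow_cancel_le (by omega) h1
  rw [Nat.add_sub_cancel] at h2
  apply h.2.2 q h0 hq
  rw [h2]
  exact T.inK_aE E _

theorem fr_avoid {i : ℕ} {T : Tri D} {E : Fin (i + 1) → D} {y : ℕ} (h : T.IsFr E y) {j : ℕ}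
    (hj : j + 1 ≤ y) (r : Fin i) {q : ℕ} (hq : q < T.sec E r.castSucc) :
    (T.s ^ q) (T.a (E r.castSucc)) ≠ (T.s ^ j) (T.f (E (Fin.last i))) := by
  intro he
  rw [fr_pow] at he
  rcases Nat.lt_or_ge q (j + 1) with hlt | hge
  · have h1 := pow_cancel_le hlt.le he.symm
    apply h.2.2 (j + 1 - q) (by omega) (by omega)
    rw [h1]
    exact T.inK_aE E _
  · have h1 := pow_cancel_le hge he
    rcases Nat.eq_zero_or_pos (q - (j + 1)) with h0 | h0
    · rw [h0, pow_zero] at h1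
      have h2 : T.a (E r.castSucc) = T.a (E (Fin.last i)) := h1
      have h3 := h.2.1 (T.a.injective h2)
      exact absurd h3 (Fin.castSucc_lt_last r).ne
    · apply T.sec_free E r.castSucc h0 (by omega)
      rw [h1]
      exact T.inK_aE E _

theorem fr_avoid_last {i : ℕ} {T : Tri D} {E : Fin (i + 1) → D} {y : ℕ} (h : T.IsFr E y) {j q : ℕ}
    (hq : j < q) (hq' : q + 1 ≤ y) :
    (T.s ^ q) (T.f (E (Fin.last i))) ≠ (T.s ^ j) (T.f (E (Fin.last i))) := by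
  intro he
  rw [fr_pow, fr_pow] at he
  have h1 := pow_cancel_le (by omega) he
  have h2 : q + 1 - (j + 1) = q - j := by omega
  rw [h2] at h1
  apply h.2.2 (q - j) (by omega) (by omega)
  rw [h1]
  exact T.inK_aE E _

end Tri
end SST
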