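import Pool.Agent.SST.S.SplitPath
import Pool.Agent.SST.S.CoSect

/-!
# SST-S-CoSplit: splitting in the free sector of a contour sequence
`T.IsFr E y`, `p = T.f (E (last i))`, `c = (T.s ^ j) p`, `1 ≤ j`, `j + 1 ≤ y`; `T' = T.split p c`,
`E' r = inl (E r)`, `b = T.a (E (last i))`, `p = T.s b`.  `c ≠ p` (`fr_ne`), `p, c ∉ K` (`fr_not` with `0`
and `j`), so also `T.a p, T.a c ∉ K` (`inK_a`).
1. `T'.a (inl (E r)) = inl (T.a (E r))` (`split_a_ne`, because `E r ∈ K`).
2. `T'.InK E' (inl d) ↔ T.InK E d`, `¬ T'.InK E' (inr k)` (from 1).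
3. For `r : Fin i`, `l = T.sec E r.castSucc`, `d = T.a (E r.castSucc)`: `split_path` (hypothesis: `fr_avoid` with
   `0` and with `j`) gives `k' ≥ l` with `(T'.s ^ k') (inl d) = inl ((T.s ^ l) d)`, which is in `K'` by 2.
   (`ret_spec`), and before it only darts `inr _` and `inl ((T.s ^ q) d)`, `0 < q < l`, not in `K'` (`sec_free`).
   So `T'.sec E' r.castSucc = k'` (`ret_eq`) `≥ l`.  Hence `IsCo` (the value is `inl (E r.succ)`) and the
   inequality for `clen` (`Finset.sum_le_sum`).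
4. `E'` is injective.
5. Free darts: for `1 ≤ q ≤ y - j` the dart `(T'.s ^ q) (inl b)` is not in `K'`: `T'.s (inl b) = inl p` (`split_s_ne`:
   `b ∈ K`), not in `K'`.  Then `split_jump`: the next darts are `inr _`, up to `inl (T.s c)` at `k₁ ≥ 3` steps after
   `inl p`.  `T.s c = (T.s ^ (j + 1)) p`.  Then `split_path` with `d = T.s c`, `k = y - (j + 1)`: for `q < k`
   `(T.s ^ q) d = (T.s ^ (j + 1 + q)) p` is neither `p` nor `c` (`fr_avoid_last` with `0` and `j`, as
   `j + 1 + q + 1 ≤ y`), so there are `k' ≥ k` steps with only `inr _` and `inl ((T.s ^ q) d)`, `0 < q < k`, strictly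
   between, and these `(T.s ^ (j + 1 + q)) p` are not in `K` (`fr_not` with `j + 1 + q`); `inl d` itself too if
   `0 < k` (`fr_not` with `j + 1`).  So all positions `1 ≤ q < 1 + k₁ + k'` after `inl b` are free (if `k = 0` then
   use only the positions `< 1 + k₁`), and `1 + k₁ + k' > y - j`.
-/

namespace SST
namespace Tri

open Classical

variable {D : Type}

private theorem cs_add {E : Type} (S : Equiv.Perm E) (a b : ℕ) (x : E) :
    (S ^ (a + b)) x = (S ^ a) ((S ^ b) x) := by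
  rw [pow_add, Equiv.Perm.mul_apply]

theorem co_split [Finite D] {i : ℕ} {T : Tri D} {E : Fin (i + 1) → D} {y j : ℕ} (h : T.IsFr E y)
    (h1 : 1 ≤ j) (h2 : j + 1 ≤ y) :
    (T.split (T.f (E (Fin.last i))) ((T.s ^ j) (T.f (E (Fin.last i))))).IsFr
        (fun r => Sum.inl (E r)) (y - j) ∧
      T.clen E ≤ (T.split (T.f (E (Fin.last i))) ((T.s ^ j) (T.f (E (Fin.last i))))).clen
        (fun r => Sum.inl (E r)) := by
  have hcp : (T.s ^ j) (T.f (E (Fin.last i))) ≠ T.f (E (Fin.last i)) := fr_ne h h1 (by omega)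
  have hpK : ¬ T.InK E (T.f (E (Fin.last i))) := by
    have := fr_not h (j := 0) (by omega)
    simpa using this
  have hcK : ¬ T.InK E ((T.s ^ j) (T.f (E (Fin.last i)))) := fr_not h h2
  have hav0 : ∀ (r : Fin i) {q : ℕ}, q < T.sec E r.castSucc →
      (T.s ^ q) (T.a (E r.castSucc)) ≠ T.f (E (Fin.last i)) := by
    intro r q hq
    have := fr_avoid h (j := 0) (by omega) r hq
    simpa using this
  have havj : ∀ (r : Fin i) {q : ℕ}, q < T.sec E r.castSucc →
      (T.s ^ q) (T.a (E r.castSucc)) ≠ (T.s ^ j) (T.f (E (Fin.last i))) := by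
    intro r q hq
    exact fr_avoid h h2 r hq
  have hl0 : ∀ {q : ℕ}, 0 < q → q + 1 ≤ y →
      (T.s ^ q) (T.f (E (Fin.last i))) ≠ T.f (E (Fin.last i)) := by
    intro q hq hq'
    have := fr_avoid_last h (j := 0) hq hq'
    simpa using this
  have hlj : ∀ {q : ℕ}, j < q → q + 1 ≤ y →
      (T.s ^ q) (T.f (E (Fin.last i))) ≠ (T.s ^ j) (T.f (E (Fin.last i))) :=
    fun hq hq' => fr_avoid_last h hq hq'
  have hnot : ∀ {q : ℕ}, q + 1 ≤ y → ¬ T.InK E ((T.s ^ q) (T.f (E (Fin.last i)))) :=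
    fun hq => fr_not h hq
  have hsb : T.s (T.a (E (Fin.last i))) = T.f (E (Fin.last i)) := (fr_p T E).symm
  obtain ⟨⟨hco1, hco2⟩, hinj, -⟩ := h
  generalize hp : T.f (E (Fin.last i)) = p at *
  generalize hc : (T.s ^ j) p = c at *
  have hapK : ¬ T.InK E (T.a p) := fun hh => hpK ((T.inK_a E p).1 hh)
  have hacK : ¬ T.InK E (T.a c) := fun hh => hcK ((T.inK_a E c).1 hh)
  have hne : ∀ d, T.InK E d → d ≠ p ∧ d ≠ c ∧ d ≠ T.a p ∧ d ≠ T.a c := by
    intro d hd
    refine ⟨?_, ?_, ?_, ?_⟩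
    · intro hh
      exact hpK (hh ▸ hd)
    · intro hh
      exact hcK (hh ▸ hd)
    · intro hh
      exact hapK (hh ▸ hd)
    · intro hh
      exact hacK (hh ▸ hd)
  have ha : ∀ d, T.InK E d → (T.split p c).a (Sum.inl d) = Sum.inl (T.a d) := by
    intro d hd
    obtain ⟨g1, g2, g3, g4⟩ := hne d hd
    exact T.split_a_ne g1 g2 g3 g4
  have hK1 : ∀ d, (T.split p c).InK (fun r => Sum.inl (E r)) (Sum.inl d) ↔ T.InK E d := by
    intro d
    constructor
    · rintro ⟨r, hr | hr⟩
      · exact ⟨r, Or.inl (Sum.inl_injective hr)⟩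
      · simp only at hr
        rw [ha _ (T.inK_E E r)] at hr
        exact ⟨r, Or.inr (Sum.inl_injective hr)⟩
    · rintro ⟨r, hr | hr⟩
      · exact ⟨r, Or.inl (by rw [hr])⟩
      · refine ⟨r, Or.inr ?_⟩
        simp only
        rw [ha _ (T.inK_E E r), hr]
  have hK2 : ∀ k, ¬ (T.split p c).InK (fun r => Sum.inl (E r)) (Sum.inr k) := by
    rintro k ⟨r, hr | hr⟩
    · exact Sum.inr_ne_inl hr
    · simp only at hr
      rw [ha _ (T.inK_E E r)] at hr
      exact Sum.inr_ne_inl hr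
  have hsec : ∀ r : Fin i, T.sec E r.castSucc ≤
      (T.split p c).sec (fun r => Sum.inl (E r)) r.castSucc ∧
      ((T.split p c).s ^ ((T.split p c).sec (fun r => Sum.inl (E r)) r.castSucc))
        ((T.split p c).a (Sum.inl (E r.castSucc))) =
        Sum.inl ((T.s ^ T.sec E r.castSucc) (T.a (E r.castSucc))) := by
    intro r
    obtain ⟨k', g1, g2, g3⟩ := T.split_path hcp (T.a (E r.castSucc)) (T.sec E r.castSucc)
      (fun q hq => ⟨hav0 r hq, havj r hq⟩)
    have g4 : (T.split p c).sec (fun r => Sum.inl (E r)) r.castSucc = k' := by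
      unfold sec
      rw [ha _ (T.inK_E E r.castSucc)]
      apply ret_eq
      · exact (T.sec_pos E r.castSucc).trans g1
      · rw [g2, hK1]
        exact (T.ret_spec _ (T.inK_aE E r.castSucc)).2
      · intro q hq1 hq2
        rcases g3 q hq1 hq2 with ⟨k, g5⟩ | ⟨q2, g5, g6, g7⟩
        · rw [g5]
          exact hK2 k
        · rw [g7, hK1]
          exact T.sec_free E r.castSucc g5 g6
    rw [g4]
    refine ⟨g1, ?_⟩
    rw [ha _ (T.inK_E E r.castSucc), g2]
  refine ⟨⟨⟨?_, ?_⟩, ?_, ?_⟩, ?_⟩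
  · intro r r' hr
    exact hco1 r r' (Sum.inl_injective hr)
  · intro r
    simp only
    rw [(hsec r).2, ← hco2 r]
  · intro r r' hr
    exact hinj (Sum.inl_injective hr)
  · intro q hq1 hq2
    simp only
    have hbK : T.InK E (T.a (E (Fin.last i))) := T.inK_aE E (Fin.last i)
    rw [ha _ (T.inK_E E (Fin.last i))]
    have hs1 : (T.split p c).s (Sum.inl (T.a (E (Fin.last i)))) = Sum.inl p := by
      obtain ⟨g1, g2, g3, g4⟩ := hne _ hbK
      rw [T.split_s_ne g1 g2 g3 g4, hsb]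
    obtain ⟨k1, e1, e2, e3⟩ := T.split_jump hcp
    have hsc : ∀ q, (T.s ^ q) (T.s c) = (T.s ^ (j + 1 + q)) p := by
      intro q
      rw [← hc, show j + 1 + q = q + (1 + j) by omega, cs_add, cs_add T.s 1 j, pow_one]
    obtain ⟨k', f1, f2, f3⟩ := T.split_path hcp (T.s c) (y - (j + 1)) (by
      intro q hq
      rw [hsc]
      exact ⟨hl0 (by omega) (by omega), hlj (by omega) (by omega)⟩)
    have hq1' : ((T.split p c).s ^ q) (Sum.inl (T.a (E (Fin.last i)))) =
        ((T.split p c).s ^ (q - 1)) (Sum.inl p) := by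
      conv_lhs => rw [show q = (q - 1) + 1 by omega]
      rw [cs_add, pow_one, hs1]
    rw [hq1']
    rcases Nat.lt_or_ge (q - 1) k1 with hlt | hge
    · rcases Nat.eq_zero_or_pos (q - 1) with h0 | h0
      · rw [h0, pow_zero, Equiv.Perm.one_apply, hK1]
        exact hpK
      · obtain ⟨k, hk⟩ := e3 (q - 1) h0 hlt
        rw [hk]
        exact hK2 k
    · have hq3 : ((T.split p c).s ^ (q - 1)) (Sum.inl p) =
          ((T.split p c).s ^ (q - 1 - k1)) (Sum.inl (T.s c)) := by
        conv_lhs => rw [show q - 1 = (q - 1 - k1) + k1 by omega]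
        rw [cs_add, e2]
      rw [hq3]
      rcases Nat.eq_zero_or_pos (q - 1 - k1) with h0 | h0
      · rw [h0, pow_zero, Equiv.Perm.one_apply, hK1]
        have h5 := hsc 0
        rw [pow_zero, Equiv.Perm.one_apply] at h5
        rw [h5]
        exact hnot (by omega)
      · rcases f3 (q - 1 - k1) h0 (by omega) with ⟨k, hk⟩ | ⟨q2, g1, g2, g3⟩
        · rw [hk]
          exact hK2 k
        · rw [g3, hK1, hsc]
          exact hnot (by omega)
  · unfold clen
    exact Finset.sum_le_sum fun r _ => (hsec r).1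

end Tri
end SST
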