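import Pool.Agent.SST.D.DDefs
import Pool.Agent.SST.S.CoRet
import Pool.Agent.SST.S.CoCyc

/-!
# SST-S-CoUni: a unicellular set gives a contour sequence
`Unicell K` gives `η` with `η d = T.s (T.a d)` for `d ∈ K`, `η d = T.s d` for `d ∉ K`, transitive on
`S = T.DU (T.VK K)` (`d ∈ S ↔ T.tl d ∈ T.VK K`; `T.VK K = K.image T.tl`).
1. `S` is preserved by `η`: `tl_s`, and `T.tl (T.a d) ∈ T.VK K` for `d ∈ K` because `T.a d ∈ K` (`hK`).
   `K ⊆ S`.
2. `cyc_enum` gives `E`, `l`.  `T.InK E d ↔ d ∈ K`: every `E r ∈ K`, `K` is closed under `T.a`, and all elements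
   of `K` occur.
3. For `r : Fin K.card`, `x = E r.castSucc ∈ K`: `(η ^ q) x = (T.s ^ q) (T.a x)` for `1 ≤ q ≤ l r` (induction:
   `η x = T.s (T.a x)`, and `(η ^ q) x ∉ K` for `1 ≤ q < l r`).  So `(T.s ^ l r) (T.a x) = E r.succ ∈ K` and
   `(T.s ^ q) (T.a x) ∉ K` for `1 ≤ q < l r`: `T.sec E r.castSucc = l r` (`ret_eq`).
4. `IsCo`, and `clen = ∑ l = S.card`.
-/

namespace SST
namespace Tri

open Classical

theorem unicell_co {D : Type} [Fintype D] (T : Tri D) (K : Finset D) (hK : T.AC K) (hne : K.Nonempty)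
    (hU : T.Unicell K) :
    ∃ E : Fin (K.card + 1) → D, T.IsCo E ∧ T.clen E = (T.DU (T.VK K)).card := by
  obtain ⟨η, hη, htr⟩ := hU
  have hmem : ∀ d, d ∈ T.DU (T.VK K) ↔ T.tl d ∈ T.VK K := by
    intro d
    simp [DU]
  have hKV : ∀ d ∈ K, T.tl d ∈ T.VK K := fun d hd => Finset.mem_image_of_mem _ hd
  have hS : ∀ d ∈ T.DU (T.VK K), η d ∈ T.DU (T.VK K) := by
    intro d hd
    rw [hmem] at hd ⊢
    rw [hη]
    by_cases hdK : d ∈ K
    · rw [if_pos hdK, tl_s]
      exact hKV _ (hK d hdK)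
    · rw [if_neg hdK, tl_s]
      exact hd
  have htr' : ∀ d ∈ T.DU (T.VK K), ∀ d' ∈ T.DU (T.VK K), η.SameCycle d d' := by
    intro d hd d' hd'
    exact htr d d' ((hmem d).1 hd) ((hmem d').1 hd')
  have hKS : K ⊆ T.DU (T.VK K) := fun d hd => (hmem d).2 (hKV d hd)
  obtain ⟨E, l, hE, hinj, hall, hl, hsum⟩ := cyc_enum η (T.DU (T.VK K)) K hS htr' hKS hne
  have hInK : ∀ d, T.InK E d ↔ d ∈ K := by
    intro d
    constructor
    · rintro ⟨r, hr | hr⟩
      · rw [hr]; exact hE r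
      · rw [hr]; exact hK _ (hE r)
    · intro hd
      obtain ⟨r, hr⟩ := hall d hd
      exact ⟨r.castSucc, Or.inl hr.symm⟩
  have hpow : ∀ r : Fin K.card, ∀ q, 1 ≤ q → q ≤ l r →
      (η ^ q) (E r.castSucc) = (T.s ^ q) (T.a (E r.castSucc)) := by
    intro r q
    induction q with
    | zero => intro h; omega
    | succ q ih =>
      intro _ h2
      by_cases hq : q = 0
      · subst hq
        simp only [zero_add, pow_one]
        rw [hη, if_pos (hE _)]
      · have hq1 : 1 ≤ q := Nat.one_le_iff_ne_zero.2 hq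
        have hnot := (hl r).2.2 q hq1 (by omega)
        rw [pow_succ', pow_succ', Equiv.Perm.mul_apply, Equiv.Perm.mul_apply, ← ih hq1 (by omega), hη,
          if_neg hnot]
  have hsec : ∀ r : Fin K.card, T.sec E r.castSucc = l r := by
    intro r
    obtain ⟨h1, h2, h3⟩ := hl r
    refine T.ret_eq (T.InK E) h1 ?_ ?_
    · rw [hInK, ← hpow r (l r) h1 le_rfl, ← h2]
      exact hE _
    · intro q hq hq'
      rw [hInK, ← hpow r q hq hq'.le]
      exact h3 q hq hq'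
  refine ⟨E, ⟨hinj, fun r => ?_⟩, ?_⟩
  · rw [hsec, ← hpow r (l r) (hl r).1 le_rfl]
    exact (hl r).2.1
  · unfold clen
    simp only [hsec]
    exact hsum

end Tri
end SST
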