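import Pool.Agent.SST.S.Rew

/-!
# SST-S-Hom: homology and rewiring  (paper proof, (8.3))
* `nullHom_closed`: if `chain c = k - k ∘ a` with `k ∘ f = k` and `c` is a walk from `u` to `v` then
  `u = v`.  For a finite vertex `w`: the sum over the darts `d` leaving `w` of `chain c d` is
  `[u = w] - [v = w]` (induction on the walk: for one dart `x` it is `[tl x = w] - [hd x = w]`), and of
  `k d - k (a d) = k d - k (s d)` (`k (a d) = k (f (a d)) = k (s d)`) it is 0.  Take `w = u`.
* `rew_conn`: let `S` be non-empty, closed under `f` and `a' = (T.rew p q).a`.  `a'` exchanges `p, q` and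
  `a p, a q`, and equals `a` elsewhere.  If `p, a p ∈ S` (then `q, a q ∈ S`) or neither is in `S` then
  `S` is closed under `a`: everything (the second case gives `p ∈ S`, contradiction).  If `p ∈ S`,
  `a p ∉ S`: `k := indicator of S` shows that `[p, q]` is null-homologous in `T` (check `d = p, q,
  a p, a q` and the others, where `k d = k (a d)`); if `p ∉ S`, `a p ∈ S` take minus the indicator.
  (`S` closed under `f` is also closed under `f⁻¹ = f ∘ f`.)
* `slit_hom`: let `k` show that `l` is null-homologous in `T' = T.rew p q`.  For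
  `d ∉ {p, q, a p, a q}` `chain' l d = chain l d` and `a' d = a d`.  `chain' l p = 0` as
  `p, q = a' p ∉ l`: `k p = k q`; likewise `k (a p) = k (a q)`.  Let `c := k p - k (a p)`.  Then
  `chain l + c • chain [p, q] = k - k ∘ a` on all darts.  Divergence at `tl p`: `-1 + c = 0` (`l` is a
  walk from `hd q` to `tl p`, `tl p ≠ hd q`).  So `c = 1` and `[p, q] ++ l` is null-homologous in `T`.
-/

namespace SST
namespace Tri

open Classical

variable {D : Type}

private theorem div_walk [Fintype D] (T : Tri D) (w : T.V) {u v : T.V} {c : List D}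
    (hc : T.IsWalk u c v) :
    ∑ d : D, (if T.tl d = w then T.chain c d else 0) =
      (if u = w then (1 : ℤ) else 0) - (if v = w then 1 else 0) := by
  induction c generalizing u with
  | nil =>
    have e : u = v := hc
    subst e
    rw [sub_self]
    refine Finset.sum_eq_zero fun d _ => ?_
    rw [chain_nil, ite_self]
  | cons e l ih =>
    have h1 : T.tl e = u := hc.1
    have h2 := ih hc.2
    have h3 : ∑ d : D, (if T.tl d = w then ind e d else 0) = if u = w then (1 : ℤ) else 0 := by
      rw [Finset.sum_eq_single e]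
      · rw [ind_self, h1]
      · intro b _ hb
        rw [ind_ne (fun x => hb x.symm), ite_self]
      · intro h
        exact absurd (Finset.mem_univ e) h
    have h4 : ∑ d : D, (if T.tl d = w then ind e (T.a d) else 0) =
        if T.hd e = w then (1 : ℤ) else 0 := by
      rw [Finset.sum_eq_single (T.a e)]
      · rw [T.aa, ind_self]
        rfl
      · intro b _ hb
        rw [ind_ne, ite_self]
        intro x
        apply hb
        rw [x, T.aa]
      · intro h
        exact absurd (Finset.mem_univ _) h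
    have h5 : ∀ d : D, (if T.tl d = w then T.chain (e :: l) d else 0) =
        (if T.tl d = w then ind e d else 0) - (if T.tl d = w then ind e (T.a d) else 0) +
          (if T.tl d = w then T.chain l d else 0) := by
      intro d
      by_cases h : T.tl d = w
      · rw [if_pos h, if_pos h, if_pos h, if_pos h, chain_cons]
      · rw [if_neg h, if_neg h, if_neg h, if_neg h]
        ring
    simp only [h5, Finset.sum_add_distrib, Finset.sum_sub_distrib]
    rw [h3, h4, h2]
    ring

private theorem div_bd [Fintype D] (T : Tri D) (w : T.V) (k : D → ℤ) (hk : ∀ d, k (T.f d) = k d) :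
    ∑ d : D, (if T.tl d = w then k d - k (T.a d) else 0) = 0 := by
  have h1 : ∀ d, k (T.a d) = k (T.s d) := fun d => by rw [s_apply, hk]
  have h2 := Equiv.sum_comp T.s (fun d => if T.tl d = w then k d else 0)
  have h3 : ∀ d : D, (if T.tl d = w then k d - k (T.a d) else 0) =
      (if T.tl d = w then k d else 0) - (if T.tl (T.s d) = w then k (T.s d) else 0) := by
    intro d
    rw [tl_s, h1]
    by_cases h : T.tl d = w
    · rw [if_pos h, if_pos h, if_pos h]
    · rw [if_neg h, if_neg h, if_neg h]
      ring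
  simp only [h3, Finset.sum_sub_distrib]
  rw [h2, sub_self]

private theorem chain_pq (T : Tri D) {p q : D} (h₁ : q ≠ p) (h₂ : q ≠ T.a p) :
    T.chain [p, q] p = 1 ∧ T.chain [p, q] q = 1 ∧ ∀ d, d ≠ p → d ≠ q → d ≠ T.a p → d ≠ T.a q →
      T.chain [p, q] d = 0 := by
  refine ⟨?_, ?_, ?_⟩
  · rw [chain_cons, chain_cons, chain_nil, ind_self, ind_ne (fun x => T.ane p x.symm), ind_ne h₁,
      ind_ne h₂]
    ring
  · rw [chain_cons, chain_cons, chain_nil, ind_self, ind_ne (fun x => T.ane q x.symm),
      ind_ne (fun x => h₁ x.symm), ind_ne]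
    · ring
    · intro x
      apply h₂
      rw [x, T.aa]
  · intro d h1 h2 h3 h4
    refine chain_of_not_mem T ?_ ?_
    · simp only [List.mem_cons, List.not_mem_nil, or_false, not_or]
      exact ⟨h1, h2⟩
    · simp only [List.mem_cons, List.not_mem_nil, or_false, not_or]
      refine ⟨fun x => h3 ?_, fun x => h4 ?_⟩
      · rw [← x, T.aa]
      · rw [← x, T.aa]

/-- extension of an identity from one dart of each edge. -/
private theorem all_darts (T : Tri D) {p q : D} {P : D → Prop} (hP : ∀ d, P d → P (T.a d))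
    (hp : P p) (hq : P q)
    (h : ∀ d, d ≠ p → d ≠ q → d ≠ T.a p → d ≠ T.a q → P d) : ∀ d, P d := by
  intro d
  by_cases h1 : d = p
  · rw [h1]; exact hp
  by_cases h2 : d = q
  · rw [h2]; exact hq
  by_cases h3 : d = T.a p
  · rw [h3]; exact hP _ hp
  by_cases h4 : d = T.a q
  · rw [h4]; exact hP _ hq
  exact h d h1 h2 h3 h4

private theorem nullHom_pq (T : Tri D) {p q : D} (h₁ : q ≠ p) (h₂ : q ≠ T.a p) (k : D → ℤ)
    (hk : ∀ d, k (T.f d) = k d) (hp : k p - k (T.a p) = 1) (hq : k q - k (T.a q) = 1)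
    (h : ∀ d, d ≠ p → d ≠ q → d ≠ T.a p → d ≠ T.a q → k d = k (T.a d)) :
    T.NullHom [p, q] := by
  obtain ⟨c1, c2, c3⟩ := chain_pq T h₁ h₂
  refine ⟨k, hk, ?_⟩
  refine all_darts T (p := p) (q := q) ?_ ?_ ?_ ?_
  · intro d hd
    rw [chain_anti, hd, T.aa]
    ring
  · rw [c1, hp]
  · rw [c2, hq]
  · intro d h1 h2 h3 h4
    rw [c3 d h1 h2 h3 h4, ← h d h1 h2 h3 h4, sub_self]

theorem nullHom_closed [Finite D] (T : Tri D) {u v : T.V} {c : List D} (hc : T.IsWalk u c v)
    (h : T.NullHom c) : u = v := by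
  have := Fintype.ofFinite D
  obtain ⟨k, hk, hk'⟩ := h
  have h1 := div_walk T u hc
  have h2 := div_bd T u k hk
  simp only [hk', h2, if_true] at h1
  by_contra hne
  rw [if_neg (fun x => hne x.symm)] at h1
  norm_num at h1

theorem rew_conn (T : Tri D) (hT : T.Conn) {p q : D} (h₁ : q ≠ p) (h₂ : q ≠ T.a p)
    (h : ¬ T.NullHom [p, q]) : (T.rew p q).Conn := by
  intro S hS hcl
  have ha : ∀ d, (T.rew p q).a d = rwP T.a p q d := fun d => rfl
  have hf : ∀ d ∈ S, T.f d ∈ S := fun d hd => (hcl d hd).2
  have hf' : ∀ d, T.f d ∈ S ↔ d ∈ S := by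
    intro d
    refine ⟨fun x => ?_, hf d⟩
    have := hf _ (hf _ x)
    rwa [T.fff] at this
  have ha' : ∀ d, rwP T.a p q d ∈ S ↔ d ∈ S := by
    intro d
    refine ⟨fun x => ?_, fun x => (hcl d x).1⟩
    have := (hcl _ x).1
    rwa [ha, rwP_invol T.aa] at this
  have hp : q ∈ S ↔ p ∈ S := by
    have := ha' p
    rwa [rwP_p T.aa T.ane h₁ h₂] at this
  have hap : T.a q ∈ S ↔ T.a p ∈ S := by
    have := ha' (T.a p)
    rwa [rwP_ap T.aa T.ane h₁ h₂] at this
  have ho : ∀ d, d ≠ p → d ≠ q → d ≠ T.a p → d ≠ T.a q → (T.a d ∈ S ↔ d ∈ S) := by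
    intro d h1 h2 h3 h4
    have := ha' d
    rwa [rwP_ne T.aa h1 h2 h3 h4] at this
  by_cases hpS : p ∈ S
  · by_cases hapS : T.a p ∈ S
    · refine hT S hS fun d hd => ⟨?_, hf d hd⟩
      by_cases c1 : d = p
      · rw [c1]; exact hapS
      by_cases c2 : d = q
      · rw [c2]; exact hap.mpr hapS
      by_cases c3 : d = T.a p
      · rw [c3, T.aa]; exact hpS
      by_cases c4 : d = T.a q
      · rw [c4, T.aa]; exact hp.mpr hpS
      exact (ho d c1 c2 c3 c4).mpr hd
    · exfalso
      apply h
      refine nullHom_pq T h₁ h₂ (fun d => if d ∈ S then 1 else 0) ?_ ?_ ?_ ?_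
      · intro d
        simp only [hf' d]
      · simp only [if_pos hpS, if_neg hapS, sub_zero]
      · simp only [if_pos (hp.mpr hpS), if_neg (fun x => hapS (hap.mp x)), sub_zero]
      · intro d h1 h2 h3 h4
        simp only [ho d h1 h2 h3 h4]
  · by_cases hapS : T.a p ∈ S
    · exfalso
      apply h
      refine nullHom_pq T h₁ h₂ (fun d => if d ∈ S then -1 else 0) ?_ ?_ ?_ ?_
      · intro d
        simp only [hf' d]
      · simp only [if_neg hpS, if_pos hapS]
        norm_num
      · simp only [if_neg (fun x => hpS (hp.mp x)), if_pos (hap.mpr hapS)]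
        norm_num
      · intro d h1 h2 h3 h4
        simp only [ho d h1 h2 h3 h4]
    · exfalso
      have : S = Set.univ := by
        refine hT S hS fun d hd => ⟨?_, hf d hd⟩
        by_cases c1 : d = p
        · exact absurd (c1 ▸ hd) hpS
        by_cases c2 : d = q
        · exact absurd (hp.mp (c2 ▸ hd)) hpS
        by_cases c3 : d = T.a p
        · exact absurd (c3 ▸ hd) hapS
        by_cases c4 : d = T.a q
        · exact absurd (hap.mp (c4 ▸ hd)) hapS
        exact (ho d c1 c2 c3 c4).mpr hd
      exact hpS (this ▸ Set.mem_univ p)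

theorem slit_hom [Finite D] (T : Tri D) {p q : D} {l : List D} (hc : T.Closed ([p, q] ++ l))
    (h₁ : T.tl p ≠ T.hd q) (hp : p ∉ l) (hq : q ∉ l) (hap : T.a p ∉ l) (haq : T.a q ∉ l)
    (hqp : q ≠ p) (h : (T.rew p q).NullHom l) : T.NullHom ([p, q] ++ l) := by
  have := Fintype.ofFinite D
  have h₂ : q ≠ T.a p := by
    intro e
    apply h₁
    rw [e, hd_a]
  obtain ⟨k, hk, hk'⟩ := h
  have hkf : ∀ d, k (T.f d) = k d := hk
  obtain ⟨c1, c2, c3⟩ := chain_pq T hqp h₂
  have ha : ∀ d, (T.rew p q).a d = rwP T.a p q d := fun d => rfl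
  have e1 : k p = k q := by
    have h1 := hk' p
    rw [chain_of_not_mem (T.rew p q) hp, ha, rwP_p T.aa T.ane hqp h₂] at h1
    · linarith
    · rw [ha, rwP_p T.aa T.ane hqp h₂]
      exact hq
  have e2 : k (T.a p) = k (T.a q) := by
    have h1 := hk' (T.a p)
    rw [chain_of_not_mem (T.rew p q) hap, ha, rwP_ap T.aa T.ane hqp h₂] at h1
    · linarith
    · rw [ha, rwP_ap T.aa T.ane hqp h₂]
      exact haq
  have key : ∀ d, T.chain l d + (k p - k (T.a p)) * T.chain [p, q] d = k d - k (T.a d) := by
    refine all_darts T (p := p) (q := q) ?_ ?_ ?_ ?_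
    · intro d hd
      rw [chain_anti, chain_anti, T.aa]
      linarith
    · rw [c1, chain_of_not_mem T hp hap]
      ring
    · rw [c2, chain_of_not_mem T hq haq, e1, e2]
      ring
    · intro d h1 h2 h3 h4
      have h5 := hk' d
      have h6 : (T.rew p q).a d = T.a d := by
        rw [ha, rwP_ne T.aa h1 h2 h3 h4]
      have h7 : (T.rew p q).chain l d = T.chain l d := by
        unfold chain
        rw [h6]
      rw [h7, h6] at h5
      rw [c3 d h1 h2 h3 h4, h5]
      ring
  have hw : T.IsWalk (T.tl p) ([p, q] ++ l) (T.tl p) := (closed_iff T p (q :: l)).mp hc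
  have hw1 : T.hd p = T.tl q := hw.2.1.symm
  have hw2 : T.IsWalk (T.hd q) l (T.tl p) := hw.2.2
  have hw3 : T.IsWalk (T.tl p) [p, q] (T.hd q) := ⟨rfl, hw1.symm, rfl⟩
  have d1 := div_walk T (T.tl p) hw2
  have d2 := div_walk T (T.tl p) hw3
  have d3 := div_bd T (T.tl p) k hkf
  rw [if_neg (fun x => h₁ x.symm), if_pos rfl] at d1
  rw [if_pos rfl, if_neg (fun x => h₁ x.symm)] at d2
  have d4 : ∀ d, (if T.tl d = T.tl p then k d - k (T.a d) else 0) =
      (if T.tl d = T.tl p then T.chain l d else 0) +
        (k p - k (T.a p)) * (if T.tl d = T.tl p then T.chain [p, q] d else 0) := by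
    intro d
    rw [← key d]
    by_cases h : T.tl d = T.tl p
    · rw [if_pos h, if_pos h, if_pos h]
    · rw [if_neg h, if_neg h, if_neg h]
      ring
  simp only [d4, Finset.sum_add_distrib, ← Finset.mul_sum] at d3
  rw [d1, d2] at d3
  have hc1 : k p - k (T.a p) = 1 := by linarith
  refine ⟨k, hkf, fun d => ?_⟩
  rw [← key d, hc1, chain_append]
  ring

end Tri
end SST
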