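import Mathlib

/-!
# SST-S-NCyc: number of cycles of a permutation times a transposition
`ncyc σ` = number of cycles (orbits, fixed points included) of `σ`.
* `sameCycle_swap_diff`: if `x, y` are in different cycles of `σ`, the cycles of `σ * swap x y` are those
  of `σ` except that the two cycles of `x` and `y` are merged:
  `SameCycle (σ * swap x y) u v ↔ SameCycle σ u v ∨ (u, v in the union of the cycles of x and y)`.
  Proof: `τ := σ * swap x y` agrees with `σ` off `{x, y}`, `τ x = σ y`, `τ y = σ x`.  (⊇) Starting at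
  `σ y = τ x` and iterating `τ` = iterating `σ` until `y` is reached (the `σ`-cycle of `y` does not
  contain `x`): all elements of the `σ`-cycle of `y` are in the `τ`-cycle of `x`; same for the cycle of
  `x` and the `τ`-cycle of `y`; and `y` is in the `τ`-cycle of `x`.  For a cycle without `x, y` `σ = τ`.
  (⊆) `τ u` is `σ`-equivalent to `u` or both are in the union.
* `ncyc_swap_diff`: the quotient map identifies exactly two classes.  (For instance: the map
  `Quotient σ → Quotient τ` is surjective, injective on the complement of the class of `x`, and the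
  classes of `x` and `y` have the same image.)
* `ncyc_swap_same`: apply the first to `σ' = σ * swap x y` (`σ' * swap x y = σ`), for which `x`, `y` are in
  different cycles: if `σ^k x = y` with `0 < k` minimal (`x ≠ y`), then `σ'` restricted to
  `{σ x, …, σ^k x = y}` is: `σ' y = σ x`, so it is a `σ'`-cycle which does not contain `x`.
* `sameCycle_swap_same`: the new cycles are contained in the old ones.
-/

namespace SST

open Classical

variable {E : Type}

/-- Number of cycles, fixed points included. -/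
noncomputable def ncyc (σ : Equiv.Perm E) : ℕ := Nat.card (Quotient (Equiv.Perm.SameCycle.setoid σ))

private theorem NCyc_nat [Finite E] {τ : Equiv.Perm E} {u v : E} (h : τ.SameCycle u v) :
    ∃ n : ℕ, (τ ^ n) u = v := by
  obtain ⟨n, hn⟩ := h.exists_pow_eq'
  exact ⟨n, hn.2⟩

private theorem NCyc_closed [Finite E] {τ : Equiv.Perm E} (R : E → E → Prop) (hr : ∀ u, R u u)
    (ht : ∀ u v w, R u v → R v w → R u w) (hs : ∀ u, R u (τ u)) {u v : E} (h : τ.SameCycle u v) :
    R u v := by
  obtain ⟨n, hn⟩ := NCyc_nat h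
  have key : ∀ n : ℕ, R u ((τ ^ n) u) := by
    intro n
    induction n with
    | zero => exact hr u
    | succ n ih =>
      have e : (τ ^ (n + 1)) u = τ ((τ ^ n) u) := by
        rw [pow_succ', Equiv.Perm.mul_apply]
      rw [e]
      exact ht _ _ _ ih (hs _)
  rw [← hn]
  exact key n

private theorem NCyc_step {τ : Equiv.Perm E} (u : E) : τ.SameCycle u (τ u) :=
  ⟨1, by rw [zpow_one]⟩

private theorem NCyc_joined [Finite E] (σ : Equiv.Perm E) {x y : E} (h : ¬ σ.SameCycle x y) :
    (σ * Equiv.swap x y).SameCycle x y := by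
  have hex : ∃ n : ℕ, 0 < n ∧ (σ ^ n) y = y := by
    refine ⟨orderOf σ, orderOf_pos σ, ?_⟩
    rw [pow_orderOf_eq_one]
    rfl
  obtain ⟨hn0, hn⟩ := Nat.find_spec hex
  have hmin : ∀ k, 0 < k → k < Nat.find hex → (σ ^ k) y ≠ y := fun k hk hkn he =>
    Nat.find_min hex hkn ⟨hk, he⟩
  have key : ∀ k : ℕ, k + 1 ≤ Nat.find hex →
      ((σ * Equiv.swap x y) ^ (k + 1)) x = (σ ^ (k + 1)) y := by
    intro k
    induction k with
    | zero =>
      intro _
      rw [zero_add, pow_one, pow_one, Equiv.Perm.mul_apply, Equiv.swap_apply_left]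
    | succ k ih =>
      intro hk
      have e1 : ((σ * Equiv.swap x y) ^ (k + 1 + 1)) x =
          (σ * Equiv.swap x y) (((σ * Equiv.swap x y) ^ (k + 1)) x) := by
        rw [pow_succ', Equiv.Perm.mul_apply]
      have e2 : (σ ^ (k + 1 + 1)) y = σ ((σ ^ (k + 1)) y) := by
        rw [pow_succ', Equiv.Perm.mul_apply]
      have h1 : (σ ^ (k + 1)) y ≠ y := hmin _ (Nat.succ_pos _) (by omega)
      have h2 : (σ ^ (k + 1)) y ≠ x := by
        intro he
        apply h
        refine Equiv.Perm.SameCycle.symm ⟨((k + 1 : ℕ) : ℤ), ?_⟩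
        rw [zpow_natCast]
        exact he
      rw [e1, e2, ih (by omega), Equiv.Perm.mul_apply, Equiv.swap_apply_of_ne_of_ne h2 h1]
  refine ⟨((Nat.find hex : ℕ) : ℤ), ?_⟩
  rw [zpow_natCast]
  obtain ⟨m, hm⟩ : ∃ m, Nat.find hex = m + 1 := ⟨Nat.find hex - 1, by omega⟩
  have := key m hm.ge
  rw [hm] at hn ⊢
  rw [this, hn]

theorem sameCycle_swap_diff [Finite E] (σ : Equiv.Perm E) {x y : E} (h : ¬ σ.SameCycle x y) (u v : E) :
    (σ * Equiv.swap x y).SameCycle u v ↔ σ.SameCycle u v ∨
      ((σ.SameCycle x u ∨ σ.SameCycle y u) ∧ (σ.SameCycle x v ∨ σ.SameCycle y v)) := by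
  constructor
  · intro huv
    refine NCyc_closed (τ := σ * Equiv.swap x y) (fun u v => σ.SameCycle u v ∨
      ((σ.SameCycle x u ∨ σ.SameCycle y u) ∧ (σ.SameCycle x v ∨ σ.SameCycle y v)))
      (fun u => Or.inl (Equiv.Perm.SameCycle.refl σ u)) ?_ ?_ huv
    · rintro a b c (h1 | ⟨h1, h2⟩) (h3 | ⟨h3, h4⟩)
      · exact Or.inl (h1.trans h3)
      · exact Or.inr ⟨h3.imp (fun t => t.trans h1.symm) (fun t => t.trans h1.symm), h4⟩
      · exact Or.inr ⟨h1, h2.imp (fun t => t.trans h3) (fun t => t.trans h3)⟩
      · exact Or.inr ⟨h1, h4⟩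
    · intro a
      show σ.SameCycle a (σ (Equiv.swap x y a)) ∨ ((σ.SameCycle x a ∨ σ.SameCycle y a) ∧
        (σ.SameCycle x (σ (Equiv.swap x y a)) ∨ σ.SameCycle y (σ (Equiv.swap x y a))))
      by_cases hx : a = x
      · subst hx
        rw [Equiv.swap_apply_left]
        exact Or.inr ⟨Or.inl (Equiv.Perm.SameCycle.refl σ a), Or.inr (NCyc_step y)⟩
      · by_cases hy : a = y
        · subst hy
          rw [Equiv.swap_apply_right]
          exact Or.inr ⟨Or.inr (Equiv.Perm.SameCycle.refl σ a), Or.inl (NCyc_step x)⟩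
        · rw [Equiv.swap_apply_of_ne_of_ne hx hy]
          exact Or.inl (NCyc_step a)
  · have hxy := NCyc_joined σ h
    have hstep : ∀ a, (σ * Equiv.swap x y).SameCycle a (σ a) := by
      intro a
      by_cases hx : a = x
      · subst hx
        have e : σ a = (σ * Equiv.swap a y) y := by
          rw [Equiv.Perm.mul_apply, Equiv.swap_apply_right]
        rw [e]
        exact hxy.trans (NCyc_step y)
      · by_cases hy : a = y
        · subst hy
          have e : σ a = (σ * Equiv.swap x a) x := by
            rw [Equiv.Perm.mul_apply, Equiv.swap_apply_left]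
          rw [e]
          exact hxy.symm.trans (NCyc_step x)
        · have e : σ a = (σ * Equiv.swap x y) a := by
            rw [Equiv.Perm.mul_apply, Equiv.swap_apply_of_ne_of_ne hx hy]
          rw [e]
          exact NCyc_step a
    have hall : ∀ a b, σ.SameCycle a b → (σ * Equiv.swap x y).SameCycle a b := fun a b hab =>
      NCyc_closed (τ := σ) (fun a b => (σ * Equiv.swap x y).SameCycle a b)
        (fun a => Equiv.Perm.SameCycle.refl _ a) (fun _ _ _ h1 h2 => h1.trans h2) hstep hab
    rintro (huv | ⟨h1, h2⟩)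
    · exact hall u v huv
    · have hu : (σ * Equiv.swap x y).SameCycle x u := by
        rcases h1 with h1 | h1
        · exact hall _ _ h1
        · exact hxy.trans (hall _ _ h1)
      have hv : (σ * Equiv.swap x y).SameCycle x v := by
        rcases h2 with h2 | h2
        · exact hall _ _ h2
        · exact hxy.trans (hall _ _ h2)
      exact hu.symm.trans hv

theorem sameCycle_swap_same [Finite E] (σ : Equiv.Perm E) {x y : E} (h : σ.SameCycle x y) {u v : E}
    (huv : (σ * Equiv.swap x y).SameCycle u v) : σ.SameCycle u v := by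
  refine NCyc_closed (τ := σ * Equiv.swap x y) (fun u v => σ.SameCycle u v)
    (fun u => Equiv.Perm.SameCycle.refl σ u) (fun _ _ _ h1 h2 => h1.trans h2) ?_ huv
  intro a
  show σ.SameCycle a (σ (Equiv.swap x y a))
  by_cases hx : a = x
  · subst hx
    rw [Equiv.swap_apply_left]
    exact h.trans (NCyc_step y)
  · by_cases hy : a = y
    · subst hy
      rw [Equiv.swap_apply_right]
      exact h.symm.trans (NCyc_step x)
    · rw [Equiv.swap_apply_of_ne_of_ne hx hy]
      exact NCyc_step a

theorem not_sameCycle_swap [Finite E] (σ : Equiv.Perm E) {x y : E} (hne : x ≠ y)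
    (h : σ.SameCycle x y) : ¬ (σ * Equiv.swap x y).SameCycle x y := by
  have hex : ∃ n : ℕ, (σ ^ n) x = y := NCyc_nat h
  have hk := Nat.find_spec hex
  have hmin : ∀ j, j < Nat.find hex → (σ ^ j) x ≠ y := fun j hj he => Nat.find_min hex hj he
  have hk0 : 0 < Nat.find hex := by
    rcases Nat.eq_zero_or_pos (Nat.find hex) with h0 | h0
    · rw [h0, pow_zero] at hk
      exact absurd hk hne
    · exact h0
  have hx : ∀ j, 0 < j → j ≤ Nat.find hex → (σ ^ j) x ≠ x := by
    intro j hj hjk he
    have e : (σ ^ (Nat.find hex - j)) x = y := by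
      have h1 : (σ ^ (Nat.find hex - j + j)) x = y := by
        rw [Nat.sub_add_cancel hjk]
        exact hk
      rw [pow_add, Equiv.Perm.mul_apply, he] at h1
      exact h1
    exact hmin _ (by omega) e
  intro hsame
  obtain ⟨n, hn⟩ := NCyc_nat hsame.symm
  have key : ∀ n : ℕ, ∃ j, 0 < j ∧ j ≤ Nat.find hex ∧
      ((σ * Equiv.swap x y) ^ n) y = (σ ^ j) x := by
    intro n
    induction n with
    | zero => exact ⟨Nat.find hex, hk0, le_rfl, by rw [pow_zero, hk]; rfl⟩
    | succ n ih =>
      obtain ⟨j, hj0, hjk, hj⟩ := ih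
      have e1 : ((σ * Equiv.swap x y) ^ (n + 1)) y =
          (σ * Equiv.swap x y) (((σ * Equiv.swap x y) ^ n) y) := by
        rw [pow_succ', Equiv.Perm.mul_apply]
      rw [e1, hj, Equiv.Perm.mul_apply]
      rcases Nat.lt_or_ge j (Nat.find hex) with hlt | hge
      · refine ⟨j + 1, Nat.succ_pos _, hlt, ?_⟩
        rw [Equiv.swap_apply_of_ne_of_ne (hx j hj0 hjk) (hmin j hlt), pow_succ',
          Equiv.Perm.mul_apply]
      · have hjj : j = Nat.find hex := le_antisymm hjk hge
        refine ⟨1, Nat.one_pos, hk0, ?_⟩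
        rw [hjj, hk, Equiv.swap_apply_right, pow_one]
  obtain ⟨j, hj0, hjk, hj⟩ := key n
  exact hx j hj0 hjk (hj.symm.trans hn)

/-- Cycles which meet neither `x` nor `y` are unchanged. -/
theorem sameCycle_swap_other [Finite E] (σ : Equiv.Perm E) {x y u : E} (hx : ¬ σ.SameCycle x u)
    (hy : ¬ σ.SameCycle y u) (v : E) :
    (σ * Equiv.swap x y).SameCycle u v ↔ σ.SameCycle u v := by
  have key : ∀ n : ℕ, ((σ * Equiv.swap x y) ^ n) u = (σ ^ n) u := by
    intro n
    induction n with
    | zero => rfl
    | succ n ih =>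
      have e1 : ((σ * Equiv.swap x y) ^ (n + 1)) u =
          (σ * Equiv.swap x y) (((σ * Equiv.swap x y) ^ n) u) := by
        rw [pow_succ', Equiv.Perm.mul_apply]
      have hc : σ.SameCycle u ((σ ^ n) u) := ⟨(n : ℤ), by rw [zpow_natCast]⟩
      have h1 : (σ ^ n) u ≠ x := by
        intro he
        rw [he] at hc
        exact hx hc.symm
      have h2 : (σ ^ n) u ≠ y := by
        intro he
        rw [he] at hc
        exact hy hc.symm
      rw [e1, ih, Equiv.Perm.mul_apply, Equiv.swap_apply_of_ne_of_ne h1 h2, pow_succ',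
        Equiv.Perm.mul_apply]
  constructor
  · intro h
    obtain ⟨n, hn⟩ := NCyc_nat h
    exact ⟨(n : ℤ), by rw [zpow_natCast, ← key, hn]⟩
  · intro h
    obtain ⟨n, hn⟩ := NCyc_nat h
    exact ⟨(n : ℤ), by rw [zpow_natCast, key, hn]⟩

theorem ncyc_swap_diff [Finite E] (σ : Equiv.Perm E) {x y : E} (h : ¬ σ.SameCycle x y) :
    ncyc (σ * Equiv.swap x y) + 1 = ncyc σ := by
  set τ := σ * Equiv.swap x y with hτ
  have hiff := sameCycle_swap_diff σ h
  rw [← hτ] at hiff
  let f : Quotient (Equiv.Perm.SameCycle.setoid σ) → Quotient (Equiv.Perm.SameCycle.setoid τ) :=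
    Quotient.map' id fun a b hab => (hiff a b).2 (Or.inl hab)
  have hf : ∀ a, f (Quotient.mk _ a) = Quotient.mk _ a := fun _ => rfl
  have hsur : Function.Surjective f := by
    intro q
    induction q using Quotient.inductionOn with
    | h a => exact ⟨Quotient.mk _ a, rfl⟩
  have hab : f (Quotient.mk _ x) = f (Quotient.mk _ y) := by
    rw [hf, hf]
    exact Quotient.sound ((hiff x y).2 (Or.inr ⟨Or.inl (Equiv.Perm.SameCycle.refl σ x),
      Or.inr (Equiv.Perm.SameCycle.refl σ y)⟩))
  have hinj : ∀ c d, f c = f d → c = d ∨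
      ((c = Quotient.mk _ x ∨ c = Quotient.mk _ y) ∧ (d = Quotient.mk _ x ∨ d = Quotient.mk _ y)) := by
    intro c d
    induction c using Quotient.inductionOn with
    | h a =>
      induction d using Quotient.inductionOn with
      | h b =>
        intro hcd
        rw [hf, hf] at hcd
        have h1 : τ.SameCycle a b := Quotient.exact hcd
        rcases (hiff a b).1 h1 with h2 | ⟨h2, h3⟩
        · exact Or.inl (Quotient.sound h2)
        · refine Or.inr ⟨?_, ?_⟩
          · rcases h2 with h2 | h2
            · exact Or.inl (Quotient.sound h2.symm)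
            · exact Or.inr (Quotient.sound h2.symm)
          · rcases h3 with h3 | h3
            · exact Or.inl (Quotient.sound h3.symm)
            · exact Or.inr (Quotient.sound h3.symm)
  have hne : (Quotient.mk (Equiv.Perm.SameCycle.setoid σ) x) ≠ Quotient.mk _ y := fun he =>
    h (Quotient.exact he)
  let a : Quotient (Equiv.Perm.SameCycle.setoid σ) := Quotient.mk _ x
  let g : {c : Quotient (Equiv.Perm.SameCycle.setoid σ) // c ≠ a} →
      Quotient (Equiv.Perm.SameCycle.setoid τ) := fun c => f c.1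
  have hg : Function.Bijective g := by
    constructor
    · rintro ⟨c, hc⟩ ⟨d, hd⟩ hcd
      rcases hinj c d hcd with h1 | ⟨h1, h2⟩
      · exact Subtype.ext h1
      · have h3 := h1.resolve_left hc
        have h4 := h2.resolve_left hd
        exact Subtype.ext (h3.trans h4.symm)
    · intro t
      obtain ⟨c, hc⟩ := hsur t
      by_cases hca : c = a
      · refine ⟨⟨Quotient.mk _ y, hne.symm⟩, ?_⟩
        show f (Quotient.mk _ y) = t
        rw [← hab, ← hc, hca]
      · exact ⟨⟨c, hca⟩, hc⟩
  have h1 : Nat.card {c : Quotient (Equiv.Perm.SameCycle.setoid σ) // c ≠ a} = ncyc τ :=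
    Nat.card_eq_of_bijective g hg
  have h2 : ncyc σ = Nat.card (Option {c : Quotient (Equiv.Perm.SameCycle.setoid σ) // c ≠ a}) :=
    (Nat.card_congr (Equiv.optionSubtypeNe a)).symm
  rw [h2, Finite.card_option, h1]

theorem ncyc_swap_same [Finite E] (σ : Equiv.Perm E) {x y : E} (hne : x ≠ y)
    (h : σ.SameCycle x y) : ncyc (σ * Equiv.swap x y) = ncyc σ + 1 := by
  have h1 := ncyc_swap_diff (σ * Equiv.swap x y) (not_sameCycle_swap σ hne h)
  rw [mul_assoc, Equiv.swap_mul_self, mul_one] at h1
  exact h1.symm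

end SST
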