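import Pool.Agent.SST.S.RwP
import Pool.Agent.SST.S.NCyc
import Pool.Agent.SST.S.SumMap

/-!
# SST-S-Rew: rewiring two edges of a gluing  (paper proof, section 8, REWIRE)
`T.rew p q`: pair `p` with `q`, `a p` with `a q`.  `(T.rew p q).s = T.s * swap p (a q) * swap (a p) q`
(`rwP_s`).  `Nat.card T.V = ncyc T.s` by definition.  The two transpositions commute if `p ≠ q`
(`{p, a q}` and `{a p, q}` are disjoint, or `q = a p` and both are trivial).
* `rew_s_ne`: `(T.rew p q).s d = T.s d` for `d ∉ {p, q, a p, a q}`.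
* `rew_comm`: `T.rew p q = T.rew q p` for `q ≠ p`, `q ≠ a p` (same pairing).
* `card_V_*` from `ncyc_swap_same` / `ncyc_swap_diff` applied twice; use `sameCycle_swap_other`,
  `sameCycle_swap_same`, `sameCycle_swap_diff` to see in which cycles the second pair is:
  - `cut`: `tl p = hd q ≠ hd p = tl q` (2-cycle `p q`, `q ≠ a p`): two more vertices;
  - `slit`: `hd p = tl q`, `tl p ≠ hd q`: same number (first `swap (a p) q` splits, then
    `swap p (a q)` merges: the new cycles are contained in the old ones);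
  - `slit'`: the mirror image (`rew_comm`);
  - `merge`: two components (vertices of the first different from vertices of the second), `tl q ≠ hd q`:
    the number of vertices drops by 2.  Here `tl p = hd p` is allowed.
* `deg_slit_le`: the new vertices are contained in `tl p ∪ hd q` or in `hd p` or are old ones.
-/

namespace SST
namespace Tri

open Classical

variable {D : Type}

/-- Rewiring. -/
noncomputable def rew (T : Tri D) (p q : D) : Tri D where
  a := rwP T.a p q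
  f := T.f
  aa := rwP_invol T.aa p q
  ane := rwP_fpf T.aa T.ane p q
  fff := T.fff
  fne := T.fne

private theorem Rew_tl (T : Tri D) (d e : D) : T.tl d = T.tl e ↔ T.s.SameCycle d e :=
  ⟨fun h => Quotient.exact h, fun h => Quotient.sound h⟩

private theorem Rew_hd (T : Tri D) (d : D) : T.hd d = T.tl (T.a d) := rfl

private theorem Rew_card (T : Tri D) : Nat.card T.V = ncyc T.s := rfl

theorem rew_s (T : Tri D) (p q : D) :
    (T.rew p q).s = T.s * Equiv.swap p (T.a q) * Equiv.swap (T.a p) q :=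
  rwP_s T.aa T.f p q

theorem rew_s_ne (T : Tri D) {p q d : D} (h₁ : d ≠ p) (h₂ : d ≠ q) (h₃ : d ≠ T.a p)
    (h₄ : d ≠ T.a q) : (T.rew p q).s d = T.s d := by
  show T.f (rwP T.a p q d) = T.f (T.a d)
  rw [rwP_ne T.aa h₁ h₂ h₃ h₄]

theorem rew_comm (T : Tri D) {p q : D} (h₁ : q ≠ p) (h₂ : q ≠ T.a p) :
    T.rew p q = T.rew q p := by
  have h₂' : p ≠ T.a q := by
    rintro h
    apply h₂
    rw [h, T.aa]
  refine Tri.ext' ?_ rfl
  show rwP T.a p q = rwP T.a q p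
  apply Equiv.ext
  intro d
  by_cases d1 : d = p
  · rw [d1, rwP_p T.aa T.ane h₁ h₂, rwP_q T.aa T.ane h₁.symm h₂']
  by_cases d2 : d = q
  · rw [d2, rwP_q T.aa T.ane h₁ h₂, rwP_p T.aa T.ane h₁.symm h₂']
  by_cases d3 : d = T.a p
  · rw [d3, rwP_ap T.aa T.ane h₁ h₂, rwP_aq T.aa T.ane h₁.symm h₂']
  by_cases d4 : d = T.a q
  · rw [d4, rwP_aq T.aa T.ane h₁ h₂, rwP_ap T.aa T.ane h₁.symm h₂']
  rw [rwP_ne T.aa d1 d2 d3 d4, rwP_ne T.aa d2 d1 d4 d3]

theorem rew_undo (T : Tri D) {p q : D} (h₁ : q ≠ p) (h₂ : q ≠ T.a p) :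
    (T.rew p q).rew p (T.a p) = T := by
  refine Tri.ext' ?_ rfl
  exact rwP_undo T.aa T.ane h₁ h₂

/-- The transpositions in the other order. -/
private theorem Rew_s' (T : Tri D) {p q : D} (h₁ : q ≠ p) :
    (T.rew p q).s = T.s * Equiv.swap (T.a p) q * Equiv.swap p (T.a q) := by
  rw [rew_s, mul_assoc, mul_assoc]
  congr 1
  rw [Equiv.mul_swap_eq_swap_mul, Equiv.swap_apply_of_ne_of_ne (T.ane p)
    (fun h => h₁ (T.a.injective h).symm), Equiv.swap_apply_of_ne_of_ne h₁ (T.ane q).symm]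

theorem card_V_cut [Finite D] (T : Tri D) {p q : D} (hq : q ≠ T.a p) (h₁ : T.tl p = T.hd q)
    (h₂ : T.hd p = T.tl q) (h₃ : T.tl p ≠ T.hd p) :
    Nat.card (T.rew p q).V = Nat.card T.V + 2 := by
  rw [Rew_hd, Rew_tl] at h₁ h₂
  rw [Rew_hd, Ne, Rew_tl] at h₃
  have hpq : p ≠ T.a q := by
    intro h
    apply hq
    rw [h, T.aa]
  rw [Rew_card, Rew_card, rew_s, ncyc_swap_same _ hq.symm ?_, ncyc_swap_same _ hpq h₁]
  exact (sameCycle_swap_other T.s h₃ (fun h => h₃ (h₁.trans h)) q).2 h₂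

private theorem Rew_slit_ne (T : Tri D) {p q : D} (h₁ : T.hd p = T.tl q)
    (h₂ : T.tl p ≠ T.hd q) : q ≠ p ∧ q ≠ T.a p := by
  constructor
  · rintro rfl
    exact h₂ h₁.symm
  · rintro rfl
    apply h₂
    rw [Rew_hd, T.aa]

private theorem Rew_slit_not [Finite D] (T : Tri D) {p q : D} (h₁ : T.hd p = T.tl q)
    (h₂ : T.tl p ≠ T.hd q) : ¬ (T.s * Equiv.swap (T.a p) q).SameCycle p (T.a q) := by
  rw [Rew_hd, Rew_tl] at h₁
  rw [Rew_hd, Ne, Rew_tl] at h₂
  exact fun h => h₂ (sameCycle_swap_same T.s h₁ h)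

theorem card_V_slit [Finite D] (T : Tri D) {p q : D} (h₁ : T.hd p = T.tl q)
    (h₂ : T.tl p ≠ T.hd q) : Nat.card (T.rew p q).V = Nat.card T.V := by
  obtain ⟨hne, hne'⟩ := Rew_slit_ne T h₁ h₂
  have h3 := ncyc_swap_diff _ (Rew_slit_not T h₁ h₂)
  rw [Rew_hd, Rew_tl] at h₁
  have h4 := ncyc_swap_same T.s hne'.symm h₁
  rw [Rew_card, Rew_card, Rew_s' T hne]
  omega

theorem card_V_slit' [Finite D] (T : Tri D) {p q : D} (h₁ : T.tl p = T.hd q)
    (h₂ : T.hd p ≠ T.tl q) : Nat.card (T.rew p q).V = Nat.card T.V := by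
  obtain ⟨hne, hne'⟩ := Rew_slit_ne T h₁.symm h₂.symm
  rw [← rew_comm T hne hne']
  exact card_V_slit T h₁.symm h₂.symm

theorem card_V_merge [Finite D] (T : Tri D) {p q : D} (h : T.tl q ≠ T.hd q)
    (h₁ : T.tl p ≠ T.tl q) (h₂ : T.tl p ≠ T.hd q) (h₃ : T.hd p ≠ T.tl q) (h₄ : T.hd p ≠ T.hd q) :
    Nat.card (T.rew p q).V + 2 = Nat.card T.V := by
  rw [Rew_hd, Ne, Rew_tl] at h h₂ h₃
  rw [Ne, Rew_tl] at h₁
  have h5 := ncyc_swap_diff T.s h₂
  have h6 : ¬ (T.s * Equiv.swap p (T.a q)).SameCycle (T.a p) q := by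
    rw [sameCycle_swap_diff T.s h₂]
    rintro (h7 | ⟨_, h7 | h7⟩)
    · exact h₃ h7
    · exact h₁ h7
    · exact h h7.symm
  have h8 := ncyc_swap_diff _ h6
  rw [Rew_card, Rew_card, rew_s]
  omega

private theorem Rew_deg (T : Tri D) (d : D) : T.deg d = {e : D | T.s.SameCycle d e}.ncard := by
  unfold deg
  congr 1
  ext e
  show T.tl e = T.tl d ↔ _
  rw [Rew_tl]
  exact ⟨fun h => h.symm, fun h => h.symm⟩

theorem deg_slit_le [Finite D] (T : Tri D) {p q : D} (h₁ : T.hd p = T.tl q)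
    (h₂ : T.tl p ≠ T.hd q) {Δ : ℕ} (hΔ : ∀ d, T.deg d ≤ Δ) (d : D) :
    (T.rew p q).deg d ≤ 2 * Δ := by
  obtain ⟨hne, hne'⟩ := Rew_slit_ne T h₁ h₂
  have h3 := Rew_slit_not T h₁ h₂
  rw [Rew_hd, Rew_tl] at h₁
  rw [Rew_deg, Rew_s' T hne]
  have hsub : ∀ {u v : D}, (T.s * Equiv.swap (T.a p) q).SameCycle u v → T.s.SameCycle u v :=
    fun h => sameCycle_swap_same T.s h₁ h
  by_cases hd : (T.s * Equiv.swap (T.a p) q).SameCycle p d ∨
      (T.s * Equiv.swap (T.a p) q).SameCycle (T.a q) d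
  · have h4 : {e : D | (T.s * Equiv.swap (T.a p) q * Equiv.swap p (T.a q)).SameCycle d e} ⊆
        {e : D | T.s.SameCycle p e} ∪ {e : D | T.s.SameCycle (T.a q) e} := by
      intro e he
      have h5 := (sameCycle_swap_diff _ h3 d e).1 he
      rcases h5 with h5 | ⟨_, h5 | h5⟩
      · rcases hd with hd | hd
        · exact Or.inl (hsub (hd.trans h5))
        · exact Or.inr (hsub (hd.trans h5))
      · exact Or.inl (hsub h5)
      · exact Or.inr (hsub h5)
    have h6 := (Set.ncard_le_ncard h4 (Set.toFinite _)).trans (Set.ncard_union_le _ _)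
    have h7 := hΔ p
    have h8 := hΔ (T.a q)
    rw [Rew_deg] at h7 h8
    omega
  · have h4 : {e : D | (T.s * Equiv.swap (T.a p) q * Equiv.swap p (T.a q)).SameCycle d e} ⊆
        {e : D | T.s.SameCycle d e} := by
      intro e he
      have h5 := (sameCycle_swap_diff _ h3 d e).1 he
      rcases h5 with h5 | ⟨h5, _⟩
      · exact hsub h5
      · exact absurd h5 hd
    have h6 := Set.ncard_le_ncard h4 (Set.toFinite _)
    have h7 := hΔ d
    rw [Rew_deg] at h7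
    omega

/-- Vertices away from the two edges are unchanged. -/
theorem rew_tl_eq [Finite D] (T : Tri D) {p q d e : D} (h₁ : T.tl d ≠ T.tl p) (h₂ : T.tl d ≠ T.hd p)
    (h₃ : T.tl d ≠ T.tl q) (h₄ : T.tl d ≠ T.hd q) :
    (T.rew p q).tl d = (T.rew p q).tl e ↔ T.tl d = T.tl e := by
  rw [Rew_hd, Ne, Rew_tl] at h₂ h₄
  rw [Ne, Rew_tl] at h₁ h₃
  rw [Rew_tl, Rew_tl, rew_s]
  have h5 : ∀ v, (T.s * Equiv.swap p (T.a q)).SameCycle d v ↔ T.s.SameCycle d v :=
    sameCycle_swap_other T.s (fun h => h₁ h.symm) (fun h => h₄ h.symm)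
  rw [sameCycle_swap_other _ (fun h => h₂ ((h5 _).1 h.symm)) (fun h => h₃ ((h5 _).1 h.symm)), h5]

/-- In a slit the vertices `tl p` and `hd q` are merged. -/
theorem rew_slit_merged [Finite D] (T : Tri D) {p q : D} (h₁ : T.hd p = T.tl q)
    (h₂ : T.tl p ≠ T.hd q) (h₃ : T.hd p ≠ T.tl p) (h₄ : T.hd p ≠ T.hd q) {d e : D}
    (hd : T.tl d = T.tl p ∨ T.tl d = T.hd q) :
    (T.rew p q).tl d = (T.rew p q).tl e ↔ (T.tl e = T.tl p ∨ T.tl e = T.hd q) := by
  obtain ⟨hne, hne'⟩ := Rew_slit_ne T h₁ h₂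
  have h5 := Rew_slit_not T h₁ h₂
  rw [Rew_hd, Rew_tl] at h₁
  rw [Rew_hd, Ne, Rew_tl] at h₃
  rw [Rew_hd, Rew_hd, Ne, Rew_tl] at h₄
  rw [Rew_hd, Rew_tl, Rew_tl] at hd
  rw [Rew_hd, Rew_tl, Rew_tl, Rew_tl, Rew_s' T hne, sameCycle_swap_diff _ h5]
  have hp : ∀ v, (T.s * Equiv.swap (T.a p) q).SameCycle p v ↔ T.s.SameCycle p v :=
    sameCycle_swap_other T.s h₃ (fun h => h₃ (h₁.trans h))
  have hq : ∀ v, (T.s * Equiv.swap (T.a p) q).SameCycle (T.a q) v ↔ T.s.SameCycle (T.a q) v :=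
    sameCycle_swap_other T.s h₄ (fun h => h₄ (h₁.trans h))
  have hd' : (T.s * Equiv.swap (T.a p) q).SameCycle p d ∨
      (T.s * Equiv.swap (T.a p) q).SameCycle (T.a q) d := by
    rw [hp, hq]
    exact hd.imp (fun h => h.symm) (fun h => h.symm)
  constructor
  · rintro (h | ⟨_, h⟩)
    · rcases hd' with h6 | h6
      · exact Or.inl ((hp e).1 (h6.trans h)).symm
      · exact Or.inr ((hq e).1 (h6.trans h)).symm
    · rw [hp, hq] at h
      exact h.imp (fun h => h.symm) (fun h => h.symm)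
  · intro h
    refine Or.inr ⟨hd', ?_⟩
    rw [hp, hq]
    exact h.imp (fun h => h.symm) (fun h => h.symm)

end Tri
end SST
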