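import Mathlib

/-!
# SST-S-RwP: rewiring two edges of a fixed point free involution  (paper proof, section 8, REWIRE)
`rwP a p q` pairs `p` with `q` and `a p` with `a q`.  All elementary with `Equiv.swap_apply_def` /
`Equiv.swap_apply_of_ne_of_ne`.
`rwP_s`: `swap (a p) q * a = a * swap (a⁻¹ (a p)) (a⁻¹ q) = a * swap p (a q)`
(`Equiv.swap_mul_eq_mul_swap` / `Equiv.mul_swap_eq_swap_mul`; `a` is an involution).
-/

namespace SST

open Classical

variable {E : Type}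

/-- Rewiring. -/
noncomputable def rwP (a : Equiv.Perm E) (p q : E) : Equiv.Perm E :=
  Equiv.swap (a p) q * a * Equiv.swap (a p) q

theorem rwP_p {a : Equiv.Perm E} (haa : ∀ d, a (a d) = d) (hne : ∀ d, a d ≠ d) {p q : E}
    (h₁ : q ≠ p) (h₂ : q ≠ a p) : rwP a p q p = q := by
  show Equiv.swap (a p) q (a (Equiv.swap (a p) q p)) = q
  rw [Equiv.swap_apply_of_ne_of_ne (hne p).symm h₁.symm, Equiv.swap_apply_left]

theorem rwP_q {a : Equiv.Perm E} (haa : ∀ d, a (a d) = d) (hne : ∀ d, a d ≠ d) {p q : E}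
    (h₁ : q ≠ p) (h₂ : q ≠ a p) : rwP a p q q = p := by
  show Equiv.swap (a p) q (a (Equiv.swap (a p) q q)) = p
  rw [Equiv.swap_apply_right, haa, Equiv.swap_apply_of_ne_of_ne (hne p).symm h₁.symm]

theorem rwP_ap {a : Equiv.Perm E} (haa : ∀ d, a (a d) = d) (hne : ∀ d, a d ≠ d) {p q : E}
    (h₁ : q ≠ p) (h₂ : q ≠ a p) : rwP a p q (a p) = a q := by
  show Equiv.swap (a p) q (a (Equiv.swap (a p) q (a p))) = a q
  rw [Equiv.swap_apply_left, Equiv.swap_apply_of_ne_of_ne (fun h => h₁ (a.injective h)) (hne q)]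

theorem rwP_aq {a : Equiv.Perm E} (haa : ∀ d, a (a d) = d) (hne : ∀ d, a d ≠ d) {p q : E}
    (h₁ : q ≠ p) (h₂ : q ≠ a p) : rwP a p q (a q) = a p := by
  show Equiv.swap (a p) q (a (Equiv.swap (a p) q (a q))) = a p
  rw [Equiv.swap_apply_of_ne_of_ne (fun h => h₁ (a.injective h)) (hne q), haa,
    Equiv.swap_apply_right]

theorem rwP_ne {a : Equiv.Perm E} (haa : ∀ d, a (a d) = d) {p q d : E}
    (h₁ : d ≠ p) (h₂ : d ≠ q) (h₃ : d ≠ a p) (h₄ : d ≠ a q) : rwP a p q d = a d := by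
  show Equiv.swap (a p) q (a (Equiv.swap (a p) q d)) = a d
  rw [Equiv.swap_apply_of_ne_of_ne h₃ h₂, Equiv.swap_apply_of_ne_of_ne]
  · exact fun h => h₁ (a.injective h)
  · intro h
    apply h₄
    rw [← h, haa]

theorem rwP_invol {a : Equiv.Perm E} (haa : ∀ d, a (a d) = d) (p q d : E) :
    rwP a p q (rwP a p q d) = d := by
  show Equiv.swap (a p) q (a (Equiv.swap (a p) q (Equiv.swap (a p) q (a (Equiv.swap (a p) q d))))) = d
  rw [Equiv.swap_apply_self, haa, Equiv.swap_apply_self]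

theorem rwP_fpf {a : Equiv.Perm E} (haa : ∀ d, a (a d) = d) (hne : ∀ d, a d ≠ d) (p q d : E) :
    rwP a p q d ≠ d := by
  intro h
  have h1 : Equiv.swap (a p) q (a (Equiv.swap (a p) q d)) = d := h
  apply hne (Equiv.swap (a p) q d)
  have h2 := congrArg (Equiv.swap (a p) q) h1
  rw [Equiv.swap_apply_self] at h2
  exact h2

theorem rwP_s {a : Equiv.Perm E} (haa : ∀ d, a (a d) = d) (f : Equiv.Perm E) (p q : E) :
    f * rwP a p q = (f * a) * Equiv.swap p (a q) * Equiv.swap (a p) q := by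
  have h1 : a⁻¹ (a p) = p := a.symm_apply_apply p
  have h2 : a⁻¹ q = a q := by
    rw [Equiv.Perm.inv_eq_iff_eq, haa]
  unfold rwP
  rw [Equiv.swap_mul_eq_mul_swap, h1, h2, ← mul_assoc, ← mul_assoc]

/-- Undoing a rewiring. -/
theorem rwP_undo {a : Equiv.Perm E} (haa : ∀ d, a (a d) = d) (hne : ∀ d, a d ≠ d) {p q : E}
    (h₁ : q ≠ p) (h₂ : q ≠ a p) : rwP (rwP a p q) p (a p) = a := by
  have h := rwP_p haa hne h₁ h₂
  have h1 : rwP (rwP a p q) p (a p) =
      Equiv.swap (rwP a p q p) (a p) * rwP a p q * Equiv.swap (rwP a p q p) (a p) := rfl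
  rw [h1, h]
  apply Equiv.ext
  intro d
  show Equiv.swap q (a p) (Equiv.swap (a p) q (a (Equiv.swap (a p) q (Equiv.swap q (a p) d)))) = a d
  rw [Equiv.swap_comm q (a p), Equiv.swap_apply_self, Equiv.swap_apply_self]

end SST
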