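import Pool.Agent.SST.S.Subdiv
import Pool.Agent.SST.S.Hom
import Pool.Agent.SST.S.Transfer
import Pool.Agent.SST.D.DDefs

/-!
# SST-S-SC: sets of pairs (triangulation, short cycle).  Definitions only.  DO NOT CHANGE.
-/

namespace SST

noncomputable instance (m : ℕ) : Fintype (Tri (Fin m)) := Fintype.ofFinite _

/-- Pairs: triangulation of genus `g` with `2n` faces and maximal degree at most `Δ`, and a simple
closed walk of length `ℓ` which is not null-homologous. -/
def SC (n g ℓ Δ : ℕ) : Set (Tri (Fin (6 * n)) × List (Fin (6 * n))) :=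
  {x | x.1 ∈ Trn n g ∧ (∀ d, x.1.deg d ≤ Δ) ∧ x.2.length = ℓ ∧ x.1.Closed x.2 ∧ x.1.Simple x.2 ∧
    ¬ x.1.NullHom x.2}

theorem SC_finite (n g ℓ Δ : ℕ) : (SC n g ℓ Δ).Finite := by
  have h : (Set.univ ×ˢ {l : List (Fin (6 * n)) | l.length = ℓ} :
      Set (Tri (Fin (6 * n)) × List (Fin (6 * n)))).Finite :=
    Set.Finite.prod Set.finite_univ (List.finite_length_eq _ _)
  exact h.subset (fun x hx => ⟨Set.mem_univ _, hx.2.2.1⟩)

end SST
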