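import Pool.Agent.SST.S.Rew
import Pool.Agent.SST.S.Transfer

/-!
# SST-S-Split: splitting a vertex (definition and tables)  (paper proof, section 8, SPLIT)
`T.split p c`: new darts `0 1 2` (= t0 t1 t2), `3 4 5` (= r0 r1 r2).  `f`: `0 → 1 → 2 → 0`,
`3 → 4 → 5 → 3`.  Pairs: `p - 0`, `c - 3`, `1 - 4`; if `c ≠ a p` also `a p - 2`, `a c - 5`;
if `c = a p` also `2 - 5`.  All other darts keep their partner.
`s' = f' a'`:  `inl p → 1 → 5 → inl (s c)` (if `c = a p`: `5 → 0 → inl (s c)`),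
`inl c → 4 → 2 → inl (s p)` (if `c = a p`: `2 → 3 → inl (s p)`),
and if `c ≠ a p`: `inl (a p) → 0 → inl (s (a p))`, `inl (a c) → 3 → inl (s (a c))`.
-/

namespace SST
namespace Tri

open Classical

variable {D : Type}

/-- Splitting the vertex of `p`: the darts `s p, …, c` are separated from `s c, …, p`. -/
noncomputable def split (T : Tri D) (p c : D) : Tri (D ⊕ Fin 6) :=
  ((T.sum Theta).rew (Sum.inl p) (Sum.inr 0)).rew (Sum.inl c) (Sum.inr 3)

/-- The new darts, read off from the marked dart `p`. -/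
def newD {E : Type} (T : Tri E) (p : E) : Fin 6 → E :=
  ![T.f (T.f (T.s p)), T.s p, T.f (T.s p), T.f (T.f (T.a (T.s p))), T.a (T.s p), T.f (T.a (T.s p))]

/-- The intermediate object. -/
noncomputable def split1 (T : Tri D) (p : D) : Tri (D ⊕ Fin 6) :=
  (T.sum Theta).rew (Sum.inl p) (Sum.inr 0)

theorem split_eq (T : Tri D) (p c : D) : T.split p c = (T.split1 p).rew (Sum.inl c) (Sum.inr 3) := rfl

private theorem sp_h1 (d : D) (i : Fin 6) : (Sum.inr i : D ⊕ Fin 6) ≠ Sum.inl d := Sum.inr_ne_inl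

private theorem sp_h2 (T : Tri D) (d : D) :
    (Sum.inr 0 : D ⊕ Fin 6) ≠ (T.sum Theta).a (Sum.inl d) := by
  rw [sum_a_inl]
  exact Sum.inr_ne_inl

private theorem sum_a_inr'' (T : Tri D) (i : Fin 6) :
    (T.sum Theta).a (Sum.inr i) = Sum.inr (Theta.a i) := rfl

theorem split1_a_p (T : Tri D) (p : D) : (T.split1 p).a (Sum.inl p) = Sum.inr 0 :=
  rwP_p (T.sum Theta).aa (T.sum Theta).ane (sp_h1 p 0) (T.sp_h2 p)

theorem split1_a_ap (T : Tri D) (p : D) : (T.split1 p).a (Sum.inl (T.a p)) = Sum.inr 2 :=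
  rwP_ap (T.sum Theta).aa (T.sum Theta).ane (sp_h1 p 0) (T.sp_h2 p)

theorem split1_a_0 (T : Tri D) (p : D) : (T.split1 p).a (Sum.inr 0) = Sum.inl p :=
  rwP_q (T.sum Theta).aa (T.sum Theta).ane (sp_h1 p 0) (T.sp_h2 p)

theorem split1_a_2 (T : Tri D) (p : D) : (T.split1 p).a (Sum.inr 2) = Sum.inl (T.a p) :=
  rwP_aq (T.sum Theta).aa (T.sum Theta).ane (sp_h1 p 0) (T.sp_h2 p)

theorem split1_a_ne (T : Tri D) {p d : D} (h : d ≠ p) (h' : d ≠ T.a p) :
    (T.split1 p).a (Sum.inl d) = Sum.inl (T.a d) := by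
  refine rwP_ne (T.sum Theta).aa ?_ ?_ ?_ ?_
  · exact fun h1 => h (Sum.inl_injective h1)
  · exact Sum.inl_ne_inr
  · rw [sum_a_inl]
    exact fun h1 => h' (Sum.inl_injective h1)
  · rw [sum_a_inr'']
    exact Sum.inl_ne_inr

private theorem split1_inr (T : Tri D) (p : D) {i : Fin 6} (h0 : i ≠ 0) (h2 : i ≠ 2) :
    (T.split1 p).a (Sum.inr i) = Sum.inr (Theta.a i) := by
  refine rwP_ne (T.sum Theta).aa ?_ ?_ ?_ ?_
  · exact Sum.inr_ne_inl
  · exact fun h1 => h0 (Sum.inr_injective h1)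
  · rw [sum_a_inl]
    exact Sum.inr_ne_inl
  · rw [sum_a_inr'']
    exact fun h1 => h2 (Sum.inr_injective h1)

theorem split1_a_1 (T : Tri D) (p : D) : (T.split1 p).a (Sum.inr 1) = Sum.inr 4 :=
  T.split1_inr p (by decide) (by decide)

theorem split1_a_3 (T : Tri D) (p : D) : (T.split1 p).a (Sum.inr 3) = Sum.inr 5 :=
  T.split1_inr p (by decide) (by decide)

theorem split1_a_4 (T : Tri D) (p : D) : (T.split1 p).a (Sum.inr 4) = Sum.inr 1 :=
  T.split1_inr p (by decide) (by decide)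

theorem split1_a_5 (T : Tri D) (p : D) : (T.split1 p).a (Sum.inr 5) = Sum.inr 3 :=
  T.split1_inr p (by decide) (by decide)

theorem split1_f_inl (T : Tri D) (p d : D) : (T.split1 p).f (Sum.inl d) = Sum.inl (T.f d) := rfl

theorem split1_f_inr (T : Tri D) (p : D) (i : Fin 6) :
    (T.split1 p).f (Sum.inr i) = Sum.inr (Theta.f i) := rfl

theorem split1_a_c (T : Tri D) {p c : D} (h : c ≠ p) :
    (T.split1 p).a (Sum.inl c) = if c = T.a p then Sum.inr 2 else Sum.inl (T.a c) := by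
  split_ifs with h1
  · rw [h1, split1_a_ap]
  · exact T.split1_a_ne h h1

theorem split_h2 (T : Tri D) {p c : D} (h : c ≠ p) :
    (Sum.inr 3 : D ⊕ Fin 6) ≠ (T.split1 p).a (Sum.inl c) := by
  rw [T.split1_a_c h]
  split_ifs with h1
  · intro h2
    have := Sum.inr_injective h2
    revert this
    decide
  · exact Sum.inr_ne_inl

theorem split_f_inl (T : Tri D) (p c d : D) : (T.split p c).f (Sum.inl d) = Sum.inl (T.f d) := rfl

theorem split_f_inr (T : Tri D) (p c : D) (i : Fin 6) :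
    (T.split p c).f (Sum.inr i) = Sum.inr (Theta.f i) := rfl

theorem split_a_c (T : Tri D) {p c : D} (h : c ≠ p) : (T.split p c).a (Sum.inl c) = Sum.inr 3 :=
  rwP_p (T.split1 p).aa (T.split1 p).ane (sp_h1 c 3) (T.split_h2 h)

theorem split_a_3 (T : Tri D) {p c : D} (h : c ≠ p) : (T.split p c).a (Sum.inr 3) = Sum.inl c :=
  rwP_q (T.split1 p).aa (T.split1 p).ane (sp_h1 c 3) (T.split_h2 h)

/-- The old partner of `c` is paired with `5`. -/
theorem split_a_5' (T : Tri D) {p c : D} (h : c ≠ p) :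
    (T.split p c).a (Sum.inr 5) = (T.split1 p).a (Sum.inl c) := by
  rw [← T.split1_a_3 p]
  exact rwP_aq (T.split1 p).aa (T.split1 p).ane (sp_h1 c 3) (T.split_h2 h)

theorem split_a_5 (T : Tri D) {p c : D} (h : c ≠ p) :
    (T.split p c).a (Sum.inr 5) = if c = T.a p then Sum.inr 2 else Sum.inl (T.a c) := by
  rw [T.split_a_5' h, T.split1_a_c h]

private theorem split_ne (T : Tri D) {p c : D} {x : D ⊕ Fin 6} (h1 : x ≠ Sum.inl c)
    (h2 : x ≠ Sum.inr 3) (h3 : x ≠ (T.split1 p).a (Sum.inl c)) (h4 : x ≠ Sum.inr 5) :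
    (T.split p c).a x = (T.split1 p).a x := by
  refine rwP_ne (T.split1 p).aa h1 h2 h3 ?_
  rw [split1_a_3]
  exact h4

theorem split_a_p (T : Tri D) {p c : D} (h : c ≠ p) : (T.split p c).a (Sum.inl p) = Sum.inr 0 := by
  rw [T.split_ne, split1_a_p]
  · exact fun h1 => h (Sum.inl_injective h1).symm
  · exact Sum.inl_ne_inr
  · rw [T.split1_a_c h]
    split_ifs with h1
    · exact Sum.inl_ne_inr
    · intro h2
      apply h1
      have h3 : p = T.a c := Sum.inl_injective h2
      rw [h3, T.aa]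
  · exact Sum.inl_ne_inr

theorem split_a_0 (T : Tri D) {p c : D} (h : c ≠ p) : (T.split p c).a (Sum.inr 0) = Sum.inl p := by
  rw [← T.split_a_p h, (T.split p c).aa]

theorem split_a_1 (T : Tri D) {p c : D} (h : c ≠ p) : (T.split p c).a (Sum.inr 1) = Sum.inr 4 := by
  rw [T.split_ne, split1_a_1]
  · exact Sum.inr_ne_inl
  · exact fun h1 => by
      have := Sum.inr_injective h1
      revert this
      decide
  · rw [T.split1_a_c h]
    split_ifs with h1
    · exact fun h1 => by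
        have := Sum.inr_injective h1
        revert this
        decide
    · exact Sum.inr_ne_inl
  · exact fun h1 => by
      have := Sum.inr_injective h1
      revert this
      decide

theorem split_a_4 (T : Tri D) {p c : D} (h : c ≠ p) : (T.split p c).a (Sum.inr 4) = Sum.inr 1 := by
  rw [← T.split_a_1 h, (T.split p c).aa]

theorem split_a_2 (T : Tri D) {p c : D} (h : c ≠ p) :
    (T.split p c).a (Sum.inr 2) = if c = T.a p then Sum.inr 5 else Sum.inl (T.a p) := by
  split_ifs with h1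
  · have h2 := T.split_a_5 h
    rw [if_pos h1] at h2
    rw [← h2, (T.split p c).aa]
  · rw [T.split_ne, split1_a_2]
    · exact Sum.inr_ne_inl
    · exact fun h1 => by
        have := Sum.inr_injective h1
        revert this
        decide
    · rw [T.split1_a_c h, if_neg h1]
      exact Sum.inr_ne_inl
    · exact fun h1 => by
        have := Sum.inr_injective h1
        revert this
        decide

theorem split_a_ap (T : Tri D) {p c : D} (h : c ≠ p) (h' : c ≠ T.a p) :
    (T.split p c).a (Sum.inl (T.a p)) = Sum.inr 2 := by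
  have h2 := T.split_a_2 h
  rw [if_neg h'] at h2
  rw [← h2, (T.split p c).aa]

theorem split_a_ac (T : Tri D) {p c : D} (h : c ≠ p) (h' : c ≠ T.a p) :
    (T.split p c).a (Sum.inl (T.a c)) = Sum.inr 5 := by
  have h2 := T.split_a_5 h
  rw [if_neg h'] at h2
  rw [← h2, (T.split p c).aa]

theorem split_a_ne (T : Tri D) {p c d : D} (h1 : d ≠ p) (h2 : d ≠ c) (h3 : d ≠ T.a p)
    (h4 : d ≠ T.a c) : (T.split p c).a (Sum.inl d) = Sum.inl (T.a d) := by
  rw [T.split_ne, T.split1_a_ne h1 h3]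
  · exact fun h5 => h2 (Sum.inl_injective h5)
  · exact Sum.inl_ne_inr
  · by_cases h : c = p
    · rw [h, split1_a_p]
      exact Sum.inl_ne_inr
    · rw [T.split1_a_c h]
      split_ifs with h5
      · exact Sum.inl_ne_inr
      · exact fun h6 => h4 (Sum.inl_injective h6)
  · exact Sum.inl_ne_inr

theorem split_s_p (T : Tri D) {p c : D} (h : c ≠ p) : (T.split p c).s (Sum.inl p) = Sum.inr 1 := by
  rw [s_apply, T.split_a_p h]
  rfl

theorem split_s_1 (T : Tri D) {p c : D} (h : c ≠ p) : (T.split p c).s (Sum.inr 1) = Sum.inr 5 := by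
  rw [s_apply, T.split_a_1 h]
  rfl

theorem split_s_5 (T : Tri D) {p c : D} (h : c ≠ p) :
    (T.split p c).s (Sum.inr 5) = if c = T.a p then Sum.inr 0 else Sum.inl (T.s c) := by
  rw [s_apply, T.split_a_5 h]
  split_ifs with h1
  · rfl
  · rfl

theorem split_s_c (T : Tri D) {p c : D} (h : c ≠ p) : (T.split p c).s (Sum.inl c) = Sum.inr 4 := by
  rw [s_apply, T.split_a_c h]
  rfl

theorem split_s_4 (T : Tri D) {p c : D} (h : c ≠ p) : (T.split p c).s (Sum.inr 4) = Sum.inr 2 := by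
  rw [s_apply, T.split_a_4 h]
  rfl

theorem split_s_2 (T : Tri D) {p c : D} (h : c ≠ p) :
    (T.split p c).s (Sum.inr 2) = if c = T.a p then Sum.inr 3 else Sum.inl (T.s p) := by
  rw [s_apply, T.split_a_2 h]
  split_ifs with h1
  · rfl
  · rfl

theorem split_s_0 (T : Tri D) {p c : D} (h : c ≠ p) :
    (T.split p c).s (Sum.inr 0) = Sum.inl (T.s (T.a p)) := by
  rw [s_apply, T.split_a_0 h, s_a]
  rfl

theorem split_s_3 (T : Tri D) {p c : D} (h : c ≠ p) :
    (T.split p c).s (Sum.inr 3) = Sum.inl (T.s (T.a c)) := by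
  rw [s_apply, T.split_a_3 h, s_a]
  rfl

theorem split_s_ap (T : Tri D) {p c : D} (h : c ≠ p) (h' : c ≠ T.a p) :
    (T.split p c).s (Sum.inl (T.a p)) = Sum.inr 0 := by
  rw [s_apply, T.split_a_ap h h']
  rfl

theorem split_s_ac (T : Tri D) {p c : D} (h : c ≠ p) (h' : c ≠ T.a p) :
    (T.split p c).s (Sum.inl (T.a c)) = Sum.inr 3 := by
  rw [s_apply, T.split_a_ac h h']
  rfl

theorem split_s_ne (T : Tri D) {p c d : D} (h1 : d ≠ p) (h2 : d ≠ c) (h3 : d ≠ T.a p)
    (h4 : d ≠ T.a c) : (T.split p c).s (Sum.inl d) = Sum.inl (T.s d) := by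
  rw [s_apply, T.split_a_ne h1 h2 h3 h4]
  rfl

/-- The new darts are recognised. -/
theorem newD_split (T : Tri D) {p c : D} (h : c ≠ p) (i : Fin 6) :
    newD (T.split p c) (Sum.inl p) i = Sum.inr i := by
  have h6 : i = 0 ∨ i = 1 ∨ i = 2 ∨ i = 3 ∨ i = 4 ∨ i = 5 := by
    revert i
    decide
  unfold newD
  rcases h6 with h6 | h6 | h6 | h6 | h6 | h6
  all_goals
    subst h6
    simp only [T.split_s_p h, T.split_a_1 h]
    rfl

theorem newD_map {E E' : Type} (T : Tri E) (e : E ≃ E') (p : E) (i : Fin 6) :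
    newD (T.map e) (e p) i = e (newD T p i) := by
  have h6 : i = 0 ∨ i = 1 ∨ i = 2 ∨ i = 3 ∨ i = 4 ∨ i = 5 := by
    revert i
    decide
  unfold newD
  simp only [map_s, map_a, map_f]
  rcases h6 with h6 | h6 | h6 | h6 | h6 | h6
  all_goals
    subst h6
    rfl

end Tri
end SST
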