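import Pool.Agent.SST.S.Split

/-!
# SST-S-SplitPath: rotations in a split triangulation
`(T.split p c).s` is tabulated in `S/Split.lean`.
* `split_path`: induction on `k`.  Let `k'` be the value for `k` and `x = (T.s ^ k) d`, `x ≠ p`, `x ≠ c`
  (`hk k`).  If `x = T.a p` then `c ≠ T.a p` and `inl x → inr 0 → inl (T.s x)`: take `k' + 2`.  If
  `x = T.a c` then again `c ≠ T.a p` (otherwise `x = T.a (T.a p) = p`) and `inl x → inr 3 → inl (T.s x)`:
  take `k' + 2`.  Otherwise `inl x → inl (T.s x)` (`split_s_ne`): take `k' + 1`.  New intermediate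
  positions: `q' = k'` (value `inl ((T.s ^ k) d)`; here `0 < k` because `k = 0` gives `k' = 0`: carry
  `k = 0 → k' = 0` in the induction hypothesis, or use that `0 < q'`), and `q' = k' + 1` (value
  `inr 0` or `inr 3`).
* `split_jump`: `inl p → inr 1 → inr 5 → inl (T.s c)`, or (if `c = T.a p`)
  `inl p → inr 1 → inr 5 → inr 0 → inl (T.s (T.a p))`.
-/

namespace SST
namespace Tri

open Classical

variable {D : Type}

private theorem sp_pow {E : Type} (S : Equiv.Perm E) (y : E) (k : ℕ) :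
    (S ^ (k + 1)) y = S ((S ^ k) y) := by
  rw [pow_succ', Equiv.Perm.mul_apply]

private theorem split_path_aux (T : Tri D) {p c : D} (h : c ≠ p) (d : D) (k : ℕ)
    (hk : ∀ q < k, (T.s ^ q) d ≠ p ∧ (T.s ^ q) d ≠ c) :
    ∃ k' : ℕ, k ≤ k' ∧ (k = 0 → k' = 0) ∧
      ((T.split p c).s ^ k') (Sum.inl d) = Sum.inl ((T.s ^ k) d) ∧
      ∀ q', 0 < q' → q' < k' → (∃ i, ((T.split p c).s ^ q') (Sum.inl d) = Sum.inr i) ∨
        ∃ q, 0 < q ∧ q < k ∧ ((T.split p c).s ^ q') (Sum.inl d) = Sum.inl ((T.s ^ q) d) := by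
  induction k with
  | zero =>
    refine ⟨0, le_refl _, fun _ => rfl, ?_, ?_⟩
    · simp
    · intro q' h1 h2
      omega
  | succ k ih =>
    obtain ⟨k', h1, h0, h2, h3⟩ := ih (fun q hq => hk q (by omega))
    obtain ⟨hp, hc⟩ := hk k (by omega)
    have hx : (T.s ^ (k + 1)) d = T.s ((T.s ^ k) d) := sp_pow _ _ _
    have hS : ((T.split p c).s ^ (k' + 1)) (Sum.inl d) =
        (T.split p c).s (Sum.inl ((T.s ^ k) d)) := by
      rw [sp_pow, h2]
    have hS2 : ((T.split p c).s ^ (k' + 2)) (Sum.inl d) =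
        (T.split p c).s ((T.split p c).s (Sum.inl ((T.s ^ k) d))) := by
      rw [show k' + 2 = (k' + 1) + 1 from rfl, sp_pow, hS]
    have hlow : ∀ q', 0 < q' → q' ≤ k' →
        (∃ i, ((T.split p c).s ^ q') (Sum.inl d) = Sum.inr i) ∨
        ∃ q, 0 < q ∧ q < k + 1 ∧
          ((T.split p c).s ^ q') (Sum.inl d) = Sum.inl ((T.s ^ q) d) := by
      intro q' hq hq'
      rcases Nat.lt_or_ge q' k' with hlt | hge
      · rcases h3 q' hq hlt with h4 | ⟨q, h4, h5, h6⟩
        · exact Or.inl h4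
        · exact Or.inr ⟨q, h4, by omega, h6⟩
      · have hq2 : q' = k' := by omega
        right
        refine ⟨k, ?_, by omega, ?_⟩
        · rcases Nat.eq_zero_or_pos k with h7 | h7
          · have := h0 h7
            omega
          · exact h7
        · rw [hq2, h2]
    have htwo : ∀ i : Fin 6, (T.split p c).s (Sum.inl ((T.s ^ k) d)) = Sum.inr i →
        (T.split p c).s (Sum.inr i) = Sum.inl (T.s ((T.s ^ k) d)) →
        ∃ k'' : ℕ, k + 1 ≤ k'' ∧ (k + 1 = 0 → k'' = 0) ∧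
      ((T.split p c).s ^ k'') (Sum.inl d) = Sum.inl ((T.s ^ (k + 1)) d) ∧
      ∀ q', 0 < q' → q' < k'' → (∃ i, ((T.split p c).s ^ q') (Sum.inl d) = Sum.inr i) ∨
        ∃ q, 0 < q ∧ q < k + 1 ∧
          ((T.split p c).s ^ q') (Sum.inl d) = Sum.inl ((T.s ^ q) d) := by
      intro i hi1 hi2
      refine ⟨k' + 2, by omega, fun h8 => absurd h8 (by omega), ?_, ?_⟩
      · rw [hS2, hi1, hi2, hx]
      · intro q' hq hq'
        rcases Nat.lt_or_ge k' q' with hlt | hge
        · have hq2 : q' = k' + 1 := by omega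
          left
          exact ⟨i, by rw [hq2, hS, hi1]⟩
        · exact hlow q' hq hge
    by_cases hap : (T.s ^ k) d = T.a p
    · have hcp : c ≠ T.a p := by
        intro h4
        exact hc (hap.trans h4.symm)
      refine htwo 0 ?_ ?_
      · rw [hap]
        exact T.split_s_ap h hcp
      · rw [hap]
        exact T.split_s_0 h
    · by_cases hac : (T.s ^ k) d = T.a c
      · have hcp : c ≠ T.a p := by
          intro h4
          apply hp
          rw [hac, h4, T.aa]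
        refine htwo 3 ?_ ?_
        · rw [hac]
          exact T.split_s_ac h hcp
        · rw [hac]
          exact T.split_s_3 h
      · refine ⟨k' + 1, by omega, fun h8 => absurd h8 (by omega), ?_, ?_⟩
        · rw [hS, T.split_s_ne hp hc hap hac, hx]
        · intro q' hq hq'
          exact hlow q' hq (by omega)

/-- From `inl d` to `inl (s^k d)` if neither `p` nor `c` is left on the way. -/
theorem split_path (T : Tri D) {p c : D} (h : c ≠ p) (d : D) (k : ℕ)
    (hk : ∀ q < k, (T.s ^ q) d ≠ p ∧ (T.s ^ q) d ≠ c) :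
    ∃ k' : ℕ, k ≤ k' ∧ ((T.split p c).s ^ k') (Sum.inl d) = Sum.inl ((T.s ^ k) d) ∧
      ∀ q', 0 < q' → q' < k' → (∃ i, ((T.split p c).s ^ q') (Sum.inl d) = Sum.inr i) ∨
        ∃ q, 0 < q ∧ q < k ∧ ((T.split p c).s ^ q') (Sum.inl d) = Sum.inl ((T.s ^ q) d) := by
  obtain ⟨k', h1, _, h2, h3⟩ := T.split_path_aux h d k hk
  exact ⟨k', h1, h2, h3⟩

/-- From `inl p` to `inl (s c)`. -/
theorem split_jump (T : Tri D) {p c : D} (h : c ≠ p) :
    ∃ k' : ℕ, 3 ≤ k' ∧ ((T.split p c).s ^ k') (Sum.inl p) = Sum.inl (T.s c) ∧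
      ∀ q', 0 < q' → q' < k' → ∃ i, ((T.split p c).s ^ q') (Sum.inl p) = Sum.inr i := by
  have e1 : ((T.split p c).s ^ 1) (Sum.inl p) = Sum.inr 1 := by
    rw [pow_one]
    exact T.split_s_p h
  have e2 : ((T.split p c).s ^ 2) (Sum.inl p) = Sum.inr 5 := by
    rw [show 2 = 1 + 1 from rfl, sp_pow, e1]
    exact T.split_s_1 h
  by_cases hc : c = T.a p
  · have e3 : ((T.split p c).s ^ 3) (Sum.inl p) = Sum.inr 0 := by
      rw [show 3 = 2 + 1 from rfl, sp_pow, e2, T.split_s_5 h, if_pos hc]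
    have e4 : ((T.split p c).s ^ 4) (Sum.inl p) = Sum.inl (T.s c) := by
      rw [show 4 = 3 + 1 from rfl, sp_pow, e3, T.split_s_0 h, ← hc]
    refine ⟨4, by omega, e4, ?_⟩
    intro q' h1 h2
    have h3 : q' = 1 ∨ q' = 2 ∨ q' = 3 := by omega
    rcases h3 with h3 | h3 | h3
    · exact ⟨1, by rw [h3, e1]⟩
    · exact ⟨5, by rw [h3, e2]⟩
    · exact ⟨0, by rw [h3, e3]⟩
  · have e3 : ((T.split p c).s ^ 3) (Sum.inl p) = Sum.inl (T.s c) := by
      rw [show 3 = 2 + 1 from rfl, sp_pow, e2, T.split_s_5 h, if_neg hc]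
    refine ⟨3, by omega, e3, ?_⟩
    intro q' h1 h2
    have h3 : q' = 1 ∨ q' = 2 := by omega
    rcases h3 with h3 | h3
    · exact ⟨1, by rw [h3, e1]⟩
    · exact ⟨5, by rw [h3, e2]⟩

end Tri
end SST
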