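import Pool.Agent.SST.S.Rew

/-!
# SST-S-Subdiv: subdividing an edge  (paper proof, section 8, SUBDIV)
`T.subdiv d`: the edge of `d` is replaced by a 2-gon with an inner vertex of degree 2.  New darts
`0 1 2` (= t0 t1 t2), `3 4 5` (= r0 r1 r2); pairs `d - t0`, `a d - r2`, `t1 - r1`, `t2 - r0`;
`t1 : tl d → inner`, `t2 : inner → hd d`.
* `subdiv_a_*`: `rwP_p`, `rwP_q`, `rwP_ap`, `rwP_aq`, `rwP_ne` with `p = inl d`, `q = inr 0`, the
  partner of `inr 0` in `T.sum Theta2` is `inr 5`.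
* `subdiv_card_V`: `card_V_merge` (`hd (inr 0) = tl (inr 5)`, `tl (inr 0)`: different by `Theta2_same`;
  `sum_not_same`), `card_V_sum`, `card_V_Theta2`.
* `subdiv_tl`: `s' (inl e) = inl (s e)` for `e ≠ d, a d`; `s' (inl d) = f (inr 0) = inr 1`,
  `s' (inr 1) = f (a (inr 1)) = f (inr 4) = inr 5`, `s' (inr 5) = f (inl (a d)) = inl (s d)`;
  `s' (inl (a d)) = f (inr 5) = inr 3`, `s' (inr 3) = f (inr 2) = inr 0`, `s' (inr 0) = f (inl d) =
  inl (f d) = inl (s (a d))`; `s' (inr 2) = f (inr 3) = inr 4`, `s' (inr 4) = f (inr 1) = inr 2`.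
  So the orbits: old ones with `1, 5` inserted after `d`, `3, 0` after `a d`; and `{2, 4}`.
  (For `subdiv_tl_inl` one direction: if `e, e'` are in the same `s`-cycle, then step by step in the
  same `s'`-cycle; other direction: the map `D ⊕ Fin 6 → T.V ⊕ Unit` sending `inl e ↦ tl e`,
  `1, 5 ↦ tl d`, `3, 0 ↦ hd d`, `2, 4 ↦ *` is constant on `s'`-orbits.)
* `subdiv_deg`: count the fibres of that map.
* `subdiv_conn`: a non-empty set `S` closed under `a'`, `f'`: if it contains some `inl e`, then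
  `{e : inl e ∈ S}` is closed under `f` and `a` (for `d`: `inl d, inr 0, 1, 2` then `inr 3, 4, 5`, then
  `inl (a d)`), so it is everything, and `inr 0 = a' (inl d)` etc. are in `S`; if it only contains new
  darts then by the same chain it contains `inr 0` or `inr 5` and so an `inl`.
* `subdiv_inj`: `a' (inr 0) = inl d`; then `rew_undo`: `(T.subdiv d).rew (inl d) (inl (a d)) =
  T.sum Theta2` and `inl (a d) = a' (inr 5)`.
-/

namespace SST
namespace Tri

open Classical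

variable {D : Type}

/-- Subdivision of the edge of `d`. -/
noncomputable def subdiv (T : Tri D) (d : D) : Tri (D ⊕ Fin 6) :=
  (T.sum Theta2).rew (Sum.inl d) (Sum.inr 0)

private theorem sd_h1 (d : D) : (Sum.inr 0 : D ⊕ Fin 6) ≠ Sum.inl d := Sum.inr_ne_inl

private theorem sd_h2 (T : Tri D) (d : D) :
    (Sum.inr 0 : D ⊕ Fin 6) ≠ (T.sum Theta2).a (Sum.inl d) := by
  rw [sum_a_inl]
  exact Sum.inr_ne_inl

private theorem sum_a_inr' (T : Tri D) (i : Fin 6) :
    (T.sum Theta2).a (Sum.inr i) = Sum.inr (Theta2.a i) := rfl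

theorem subdiv_a_d (T : Tri D) (d : D) : (T.subdiv d).a (Sum.inl d) = Sum.inr 0 :=
  rwP_p (T.sum Theta2).aa (T.sum Theta2).ane (sd_h1 d) (T.sd_h2 d)

theorem subdiv_a_ad (T : Tri D) (d : D) : (T.subdiv d).a (Sum.inl (T.a d)) = Sum.inr 5 :=
  rwP_ap (T.sum Theta2).aa (T.sum Theta2).ane (sd_h1 d) (T.sd_h2 d)

theorem subdiv_a_ne (T : Tri D) {d e : D} (h : e ≠ d) (h' : e ≠ T.a d) :
    (T.subdiv d).a (Sum.inl e) = Sum.inl (T.a e) := by
  refine rwP_ne (T.sum Theta2).aa ?_ ?_ ?_ ?_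
  · exact fun h1 => h (Sum.inl_injective h1)
  · exact Sum.inl_ne_inr
  · rw [sum_a_inl]
    exact fun h1 => h' (Sum.inl_injective h1)
  · rw [sum_a_inr']
    exact Sum.inl_ne_inr

theorem subdiv_a_0 (T : Tri D) (d : D) : (T.subdiv d).a (Sum.inr 0) = Sum.inl d :=
  rwP_q (T.sum Theta2).aa (T.sum Theta2).ane (sd_h1 d) (T.sd_h2 d)

private theorem sd_inr (T : Tri D) (d : D) {i : Fin 6} (h0 : i ≠ 0) (h5 : i ≠ 5) :
    (T.subdiv d).a (Sum.inr i) = Sum.inr (Theta2.a i) := by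
  refine rwP_ne (T.sum Theta2).aa ?_ ?_ ?_ ?_
  · exact Sum.inr_ne_inl
  · exact fun h1 => h0 (Sum.inr_injective h1)
  · rw [sum_a_inl]
    exact Sum.inr_ne_inl
  · rw [sum_a_inr']
    exact fun h1 => h5 (Sum.inr_injective h1)

theorem subdiv_a_1 (T : Tri D) (d : D) : (T.subdiv d).a (Sum.inr 1) = Sum.inr 4 :=
  T.sd_inr d (by decide) (by decide)

theorem subdiv_a_2 (T : Tri D) (d : D) : (T.subdiv d).a (Sum.inr 2) = Sum.inr 3 :=
  T.sd_inr d (by decide) (by decide)

theorem subdiv_a_3 (T : Tri D) (d : D) : (T.subdiv d).a (Sum.inr 3) = Sum.inr 2 :=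
  T.sd_inr d (by decide) (by decide)

theorem subdiv_a_4 (T : Tri D) (d : D) : (T.subdiv d).a (Sum.inr 4) = Sum.inr 1 :=
  T.sd_inr d (by decide) (by decide)

theorem subdiv_a_5 (T : Tri D) (d : D) : (T.subdiv d).a (Sum.inr 5) = Sum.inl (T.a d) :=
  rwP_aq (T.sum Theta2).aa (T.sum Theta2).ane (sd_h1 d) (T.sd_h2 d)

theorem subdiv_f_inl (T : Tri D) (d e : D) :
    (T.subdiv d).f (Sum.inl e) = Sum.inl (T.f e) := rfl

theorem subdiv_f_inr (T : Tri D) (d : D) (i : Fin 6) :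
    (T.subdiv d).f (Sum.inr i) = Sum.inr (Theta2.f i) := rfl

private theorem fin6 (i : Fin 6) : i = 0 ∨ i = 1 ∨ i = 2 ∨ i = 3 ∨ i = 4 ∨ i = 5 := by
  revert i
  decide

/-- The vertex of a dart of the subdivision: an old vertex or the inner vertex. -/
private def vmap (T : Tri D) (d : D) : D ⊕ Fin 6 → T.V ⊕ Unit :=
  Sum.elim (fun e => Sum.inl (T.tl e))
    ![Sum.inl (T.hd d), Sum.inl (T.tl d), Sum.inr (), Sum.inl (T.hd d), Sum.inr (),
      Sum.inl (T.tl d)]

private theorem s_ne (T : Tri D) {d e : D} (h : e ≠ d) (h' : e ≠ T.a d) :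
    (T.subdiv d).s (Sum.inl e) = Sum.inl (T.s e) := by
  rw [s_apply, T.subdiv_a_ne h h', s_apply]
  rfl

private theorem s_d (T : Tri D) (d : D) : (T.subdiv d).s (Sum.inl d) = Sum.inr 1 := by
  rw [s_apply, subdiv_a_d]
  rfl

private theorem s_1 (T : Tri D) (d : D) : (T.subdiv d).s (Sum.inr 1) = Sum.inr 5 := by
  rw [s_apply, subdiv_a_1]
  rfl

private theorem s_5 (T : Tri D) (d : D) : (T.subdiv d).s (Sum.inr 5) = Sum.inl (T.s d) := by
  rw [s_apply, subdiv_a_5, s_apply]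
  rfl

private theorem s_ad (T : Tri D) (d : D) : (T.subdiv d).s (Sum.inl (T.a d)) = Sum.inr 3 := by
  rw [s_apply, subdiv_a_ad]
  rfl

private theorem s_3 (T : Tri D) (d : D) : (T.subdiv d).s (Sum.inr 3) = Sum.inr 0 := by
  rw [s_apply, subdiv_a_3]
  rfl

private theorem s_0 (T : Tri D) (d : D) :
    (T.subdiv d).s (Sum.inr 0) = Sum.inl (T.s (T.a d)) := by
  rw [s_apply, subdiv_a_0, s_a]
  rfl

private theorem s_2 (T : Tri D) (d : D) : (T.subdiv d).s (Sum.inr 2) = Sum.inr 4 := by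
  rw [s_apply, subdiv_a_2]
  rfl

private theorem s_4 (T : Tri D) (d : D) : (T.subdiv d).s (Sum.inr 4) = Sum.inr 2 := by
  rw [s_apply, subdiv_a_4]
  rfl

private theorem vmap_inl (T : Tri D) (d e : D) : T.vmap d (Sum.inl e) = Sum.inl (T.tl e) := rfl

private theorem vmap_s (T : Tri D) (d : D) (x : D ⊕ Fin 6) :
    T.vmap d ((T.subdiv d).s x) = T.vmap d x := by
  rcases x with e | i
  · by_cases h : e = d
    · rw [h, s_d]
      rfl
    · by_cases h' : e = T.a d
      · rw [h', s_ad]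
        rfl
      · rw [T.s_ne h h', vmap_inl, vmap_inl, tl_s]
  · rcases fin6 i with h | h | h | h | h | h
    · rw [h, s_0, vmap_inl, tl_s]
      rfl
    · rw [h, s_1]
      rfl
    · rw [h, s_2]
      rfl
    · rw [h, s_3]
      rfl
    · rw [h, s_4]
      rfl
    · rw [h, s_5, vmap_inl, tl_s]
      rfl

private theorem const_zpow {α β : Type} (s : Equiv.Perm α) (g : α → β)
    (h : ∀ x, g (s x) = g x) {x y : α} (hxy : s.SameCycle x y) : g x = g y := by
  have hn : ∀ (s : Equiv.Perm α), (∀ x, g (s x) = g x) → ∀ (n : ℕ) (x : α),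
      g ((s ^ n) x) = g x := by
    intro s h n
    induction n with
    | zero => intro x; rfl
    | succ n ih =>
      intro x
      rw [pow_succ, Equiv.Perm.mul_apply, ih, h]
  have hi : ∀ x, g (s⁻¹ x) = g x := by
    intro x
    rw [← h (s⁻¹ x)]
    exact congrArg g (s.apply_symm_apply x)
  obtain ⟨k, hk⟩ := hxy
  rw [← hk]
  rcases Int.eq_nat_or_neg k with ⟨n, rfl | rfl⟩
  · rw [zpow_natCast]
    exact (hn s h n x).symm
  · rw [zpow_neg, zpow_natCast, ← inv_pow]
    exact (hn _ hi n x).symm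

private theorem vmap_of_tl (T : Tri D) (d : D) {x y : D ⊕ Fin 6}
    (h : (T.subdiv d).tl x = (T.subdiv d).tl y) : T.vmap d x = T.vmap d y :=
  const_zpow _ _ (T.vmap_s d) (((T.subdiv d).tl_eq_iff x y).1 h)

private theorem tl_step (T : Tri D) (d e : D) :
    (T.subdiv d).tl (Sum.inl (T.s e)) = (T.subdiv d).tl (Sum.inl e) := by
  by_cases h : e = d
  · rw [h, ← s_5, tl_s, ← s_1, tl_s, ← s_d, tl_s]
  · by_cases h' : e = T.a d
    · rw [h', ← s_0, tl_s, ← s_3, tl_s, ← s_ad, tl_s]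
    · rw [← T.s_ne h h', tl_s]

theorem subdiv_card_V [Finite D] (T : Tri D) (d : D) :
    Nat.card (T.subdiv d).V = Nat.card T.V + 1 := by
  have h0 : ∀ (e : D) (i : Fin 6), (T.sum Theta2).tl (Sum.inl e) ≠ (T.sum Theta2).tl (Sum.inr i) := by
    intro e i h
    exact T.sum_not_same Theta2 e i (((T.sum Theta2).tl_eq_iff _ _).1 h)
  have h1 : (T.sum Theta2).tl (Sum.inr 0) ≠ (T.sum Theta2).hd (Sum.inr 0) := by
    intro h
    have h2 := (T.sum_same_inr Theta2 0 5).1 (((T.sum Theta2).tl_eq_iff _ _).1 h)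
    rw [Theta2_same] at h2
    revert h2
    decide
  have h2 := (T.sum Theta2).card_V_merge (p := Sum.inl d) (q := Sum.inr 0) h1 (h0 _ _) (h0 _ _)
    (h0 _ _) (h0 _ _)
  have h3 : Nat.card (T.subdiv d).V + 2 = Nat.card (T.sum Theta2).V := h2
  rw [card_V_sum, card_V_Theta2] at h3
  omega

theorem subdiv_genus [Finite D] (T : Tri D) (d : D) {n g : ℕ} (h : T.Genus n g) :
    (T.subdiv d).Genus (n + 1) g := by
  have h1 : Nat.card T.V + 2 * g = n + 2 := h
  show Nat.card (T.subdiv d).V + 2 * g = n + 1 + 2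
  rw [subdiv_card_V]
  omega

theorem subdiv_conn (T : Tri D) (d : D) (h : T.Conn) : (T.subdiv d).Conn := by
  intro S hS hcl
  have hf : ∀ i : Fin 6, Sum.inr i ∈ S → Sum.inr (Theta2.f i) ∈ S := by
    intro i hi
    exact (hcl _ hi).2
  have h12 : Sum.inr 1 ∈ S → Sum.inr 4 ∈ S := fun hi => by
    have := (hcl _ hi).1
    rwa [subdiv_a_1] at this
  have h21 : Sum.inr 4 ∈ S → Sum.inr 1 ∈ S := fun hi => by
    have := (hcl _ hi).1
    rwa [subdiv_a_4] at this
  have e0 : Sum.inr 0 ∈ S → Sum.inr 1 ∈ S := hf 0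
  have e1 : Sum.inr 1 ∈ S → Sum.inr 2 ∈ S := hf 1
  have e2 : Sum.inr 2 ∈ S → Sum.inr 0 ∈ S := hf 2
  have e3 : Sum.inr 3 ∈ S → Sum.inr 4 ∈ S := hf 3
  have e4 : Sum.inr 4 ∈ S → Sum.inr 5 ∈ S := hf 4
  have e5 : Sum.inr 5 ∈ S → Sum.inr 3 ∈ S := hf 5
  -- if one new dart is in `S` then all new darts are
  have hall : ∀ i : Fin 6, Sum.inr i ∈ S → ∀ j : Fin 6, Sum.inr j ∈ S := by
    intro i hi
    have h0 : Sum.inr 0 ∈ S := by
      rcases fin6 i with h | h | h | h | h | h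
      · exact h ▸ hi
      · exact e2 (e1 (h ▸ hi))
      · exact e2 (h ▸ hi)
      · exact e2 (e1 (h21 (e3 (h ▸ hi))))
      · exact e2 (e1 (h21 (h ▸ hi)))
      · exact e2 (e1 (h21 (e3 (e5 (h ▸ hi)))))
    intro j
    rcases fin6 j with h | h | h | h | h | h
    · exact h ▸ h0
    · exact h ▸ e0 h0
    · exact h ▸ e1 (e0 h0)
    · exact h ▸ e5 (e4 (h12 (e0 h0)))
    · exact h ▸ h12 (e0 h0)
    · exact h ▸ e4 (h12 (e0 h0))
  have hnd : ∀ i : Fin 6, Sum.inr i ∈ S → Sum.inl d ∈ S := by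
    intro i hi
    have := (hcl _ (hall i hi 0)).1
    rwa [subdiv_a_0] at this
  have hd0 : Sum.inl d ∈ S → ∀ j : Fin 6, Sum.inr j ∈ S := by
    intro hd
    have := (hcl _ hd).1
    rw [subdiv_a_d] at this
    exact hall 0 this
  have hd1 : Sum.inl (T.a d) ∈ S → ∀ j : Fin 6, Sum.inr j ∈ S := by
    intro hd
    have := (hcl _ hd).1
    rw [subdiv_a_ad] at this
    exact hall 5 this
  have hinl : ∃ e : D, Sum.inl e ∈ S := by
    obtain ⟨x, hx⟩ := hS
    rcases x with e | i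
    · exact ⟨e, hx⟩
    · exact ⟨d, hnd i hx⟩
  have hu : {e : D | (Sum.inl e : D ⊕ Fin 6) ∈ S} = Set.univ := by
    refine h _ hinl ?_
    intro e he
    refine ⟨?_, (hcl _ he).2⟩
    by_cases h1 : e = d
    · have h2 := (hcl _ (hd0 (h1 ▸ he) 5)).1
      rw [subdiv_a_5] at h2
      show Sum.inl (T.a e) ∈ S
      rw [h1]
      exact h2
    · by_cases h2 : e = T.a d
      · show Sum.inl (T.a e) ∈ S
        rw [h2, T.aa]
        exact hnd 0 (hd1 (h2 ▸ he) 0)
      · have h3 := (hcl _ he).1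
        rw [T.subdiv_a_ne h1 h2] at h3
        exact h3
  have hinl' : ∀ e : D, Sum.inl e ∈ S := by
    intro e
    have : e ∈ {e : D | (Sum.inl e : D ⊕ Fin 6) ∈ S} := by
      rw [hu]
      exact Set.mem_univ _
    exact this
  rw [Set.eq_univ_iff_forall]
  rintro (e | i)
  · exact hinl' e
  · exact hd0 (hinl' d) i

theorem subdiv_tl_inl (T : Tri D) (d e e' : D) :
    (T.subdiv d).tl (Sum.inl e) = (T.subdiv d).tl (Sum.inl e') ↔ T.tl e = T.tl e' := by
  constructor
  · intro h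
    exact Sum.inl_injective (T.vmap_of_tl d h)
  · intro h
    exact const_zpow T.s (fun e => (T.subdiv d).tl (Sum.inl e)) (T.tl_step d)
      ((T.tl_eq_iff e e').1 h)

theorem subdiv_tl_1 (T : Tri D) (d : D) :
    (T.subdiv d).tl (Sum.inr 1) = (T.subdiv d).tl (Sum.inl d) := by
  rw [← s_d, tl_s]

theorem subdiv_tl_3 (T : Tri D) (d : D) :
    (T.subdiv d).tl (Sum.inr 3) = (T.subdiv d).tl (Sum.inl (T.a d)) := by
  rw [← s_ad, tl_s]

theorem subdiv_tl_24 (T : Tri D) (d : D) :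
    (T.subdiv d).tl (Sum.inr 4) = (T.subdiv d).tl (Sum.inr 2) := by
  rw [← T.s_2 d, tl_s]

theorem subdiv_tl_2 (T : Tri D) (d e : D) :
    (T.subdiv d).tl (Sum.inr 2) ≠ (T.subdiv d).tl (Sum.inl e) := by
  intro h
  exact Sum.inr_ne_inl (T.vmap_of_tl d h)

theorem subdiv_deg [Finite D] (T : Tri D) (d : D) {Δ : ℕ} (h : ∀ e, T.deg e ≤ Δ) (x : D ⊕ Fin 6) :
    (T.subdiv d).deg x ≤ Δ + 4 := by
  have h1 : {y | (T.subdiv d).tl y = (T.subdiv d).tl x} ⊆ {y | T.vmap d y = T.vmap d x} :=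
    fun y hy => T.vmap_of_tl d hy
  refine (Set.ncard_le_ncard h1 (Set.toFinite _)).trans ?_
  rcases hx : T.vmap d x with v | u
  · have h2 : {y | T.vmap d y = Sum.inl v} ⊆
        (Sum.inl '' {e : D | T.tl e = v}) ∪ (Sum.inr '' {0, 1, 3, 5}) := by
      rintro (e | i) hy
      · exact Or.inl ⟨e, Sum.inl_injective hy, rfl⟩
      · right
        refine ⟨i, ?_, rfl⟩
        rcases fin6 i with h | h | h | h | h | h
        · simp [h]
        · simp [h]
        · rw [h] at hy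
          exact absurd hy Sum.inr_ne_inl
        · simp [h]
        · rw [h] at hy
          exact absurd hy Sum.inr_ne_inl
        · simp [h]
    refine (Set.ncard_le_ncard h2 (Set.toFinite _)).trans ?_
    refine (Set.ncard_union_le _ _).trans ?_
    refine add_le_add ?_ ?_
    · rw [Set.ncard_image_of_injective _ Sum.inl_injective]
      obtain ⟨e, he⟩ := Quotient.exists_rep v
      have h3 := h e
      unfold deg at h3
      have h4 : T.tl e = v := he
      rw [h4] at h3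
      exact h3
    · rw [Set.ncard_image_of_injective _ Sum.inr_injective]
      have h5 : ({0, 1, 3, 5} : Set (Fin 6)) = (({0, 1, 3, 5} : Finset (Fin 6)) : Set (Fin 6)) := by
        simp
      rw [h5, Set.ncard_coe_finset]
      decide
  · have h2 : {y | T.vmap d y = Sum.inr u} ⊆ (Sum.inr '' {2, 4}) := by
      rintro (e | i) hy
      · exact absurd hy Sum.inl_ne_inr
      · refine ⟨i, ?_, rfl⟩
        rcases fin6 i with h | h | h | h | h | h
        · rw [h] at hy
          exact absurd hy Sum.inl_ne_inr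
        · rw [h] at hy
          exact absurd hy Sum.inl_ne_inr
        · simp [h]
        · rw [h] at hy
          exact absurd hy Sum.inl_ne_inr
        · simp [h]
        · rw [h] at hy
          exact absurd hy Sum.inl_ne_inr
    refine (Set.ncard_le_ncard h2 (Set.toFinite _)).trans ?_
    rw [Set.ncard_image_of_injective _ Sum.inr_injective]
    have h5 : ({2, 4} : Set (Fin 6)) = (({2, 4} : Finset (Fin 6)) : Set (Fin 6)) := by
      simp
    rw [h5, Set.ncard_coe_finset]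
    have h6 : (({2, 4} : Finset (Fin 6))).card = 2 := by decide
    omega

theorem subdiv_inj (T T' : Tri D) (d d' : D) (h : T.subdiv d = T'.subdiv d') : T = T' ∧ d = d' := by
  have h1 : d = d' := by
    have h2 := T.subdiv_a_0 d
    rw [h, subdiv_a_0] at h2
    exact (Sum.inl_injective h2).symm
  have h3 : T.a d = T'.a d' := by
    have h2 := T.subdiv_a_5 d
    rw [h, subdiv_a_5] at h2
    exact (Sum.inl_injective h2).symm
  have h4 : (T.subdiv d).rew (Sum.inl d) (Sum.inl (T.a d)) = T.sum Theta2 :=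
    (T.sum Theta2).rew_undo (sd_h1 d) (T.sd_h2 d)
  have h5 : (T'.subdiv d').rew (Sum.inl d') (Sum.inl (T'.a d')) = T'.sum Theta2 :=
    (T'.sum Theta2).rew_undo (sd_h1 d') (T'.sd_h2 d')
  have h6 : T.sum Theta2 = T'.sum Theta2 := by
    rw [← h4, ← h5, h, h3, h1]
  refine ⟨Tri.ext' ?_ ?_, h1⟩
  · ext e
    have h7 : (T.sum Theta2).a (Sum.inl e) = (T'.sum Theta2).a (Sum.inl e) := by rw [h6]
    exact Sum.inl_injective h7
  · ext e
    have h7 : (T.sum Theta2).f (Sum.inl e) = (T'.sum Theta2).f (Sum.inl e) := by rw [h6]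
    exact Sum.inl_injective h7

end Tri
end SST
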